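import Pool.Agent.Helper24.MinHadwiger.Defs

/-!
# Basic facts on clique minors
-/

namespace Pool.Helper24.MinHadwiger

open SimpleGraph

variable {V W : Type*}

/-- `a` and `b` are joined by a path inside `B` -/
def JoinedIn (X : SimpleGraph V) (B : Set V) (a b : V) : Prop :=
  Relation.ReflTransGen (fun x y => X.Adj x y ∧ x ∈ B ∧ y ∈ B) a b

namespace JoinedIn

variable {X : SimpleGraph V} {B C : Set V} {a b c : V}

lemma refl (a : V) : JoinedIn X B a a := Relation.ReflTransGen.refl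

lemma trans (h : JoinedIn X B a b) (h' : JoinedIn X B b c) : JoinedIn X B a c :=
  Relation.ReflTransGen.trans h h'

lemma symm (h : JoinedIn X B a b) : JoinedIn X B b a := by
  induction h with
  | refl => exact Relation.ReflTransGen.refl
  | tail _ h2 ih => exact Relation.ReflTransGen.head ⟨h2.1.symm, h2.2.2, h2.2.1⟩ ih

lemma map {X' : SimpleGraph W} {B' : Set W} (f : V → W)
    (hf : ∀ x ∈ B, ∀ y ∈ B, X.Adj x y → JoinedIn X' B' (f x) (f y))
    (h : JoinedIn X B a b) : JoinedIn X' B' (f a) (f b) := by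
  induction h with
  | refl => exact Relation.ReflTransGen.refl
  | tail _ h2 ih => exact Relation.ReflTransGen.trans ih (hf _ h2.2.1 _ h2.2.2 h2.1)

lemma mono (hBC : B ⊆ C) (h : JoinedIn X B a b) : JoinedIn X C a b := by
  induction h with
  | refl => exact Relation.ReflTransGen.refl
  | tail _ h2 ih => exact Relation.ReflTransGen.tail ih ⟨h2.1, hBC h2.2.1, hBC h2.2.2⟩

lemma of_adj (h : X.Adj a b) (ha : a ∈ B) (hb : b ∈ B) : JoinedIn X B a b :=
  Relation.ReflTransGen.single ⟨h, ha, hb⟩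

/-- invariance principle: a predicate preserved along edges inside `B` is preserved -/
lemma induct {P : V → Prop} (h : JoinedIn X B a b)
    (hP : ∀ x ∈ B, ∀ y ∈ B, X.Adj x y → P x → P y) (ha : P a) : P b := by
  induction h with
  | refl => exact ha
  | tail _ h2 ih => exact hP _ h2.2.1 _ h2.2.2 h2.1 ih

lemma mem_right (h : JoinedIn X B a b) (ha : a ∈ B) : b ∈ B :=
  h.induct (P := fun x => x ∈ B) (fun _ _ _ hy _ _ => hy) ha

end JoinedIn

lemma connected_iff_joinedIn {X : SimpleGraph V} {B : Set V} :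
    (X.induce B).Connected ↔ B.Nonempty ∧ ∀ a ∈ B, ∀ b ∈ B, JoinedIn X B a b := by
  constructor
  · intro h
    refine ⟨?_, ?_⟩
    · obtain ⟨v⟩ := h.nonempty
      exact ⟨v.1, v.2⟩
    · intro a ha b hb
      have h1 := h.preconnected ⟨a, ha⟩ ⟨b, hb⟩
      rw [SimpleGraph.reachable_iff_reflTransGen] at h1
      have key : ∀ c : B, Relation.ReflTransGen (X.induce B).Adj ⟨a, ha⟩ c →
          JoinedIn X B a c := by
        intro c hc
        induction hc with
        | refl => exact Relation.ReflTransGen.refl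
        | tail _ h2 ih => exact Relation.ReflTransGen.tail ih ⟨h2, Subtype.coe_prop _,
            Subtype.coe_prop _⟩
      exact key _ h1
  · rintro ⟨⟨v, hv⟩, h⟩
    have : Nonempty B := ⟨⟨v, hv⟩⟩
    refine SimpleGraph.Connected.mk ?_
    rintro ⟨a, ha⟩ ⟨b, hb⟩
    rw [SimpleGraph.reachable_iff_reflTransGen]
    have h1 := h a ha b hb
    have key : ∀ c (_ : JoinedIn X B a c) (hc : c ∈ B),
        Relation.ReflTransGen (X.induce B).Adj ⟨a, ha⟩ ⟨c, hc⟩ := by
      intro c hac
      induction hac with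
      | refl => intro _; exact Relation.ReflTransGen.refl
      | tail h1 h2 ih =>
        intro hc
        exact Relation.ReflTransGen.tail (ih h2.2.1) (by exact h2.1)
    exact key b h1 hb

lemma hasCliqueMinor_iff {X : SimpleGraph V} {k : ℕ} :
    HasCliqueMinor X k ↔ ∃ B : Fin k → Set V,
      (∀ i, (B i).Nonempty ∧ ∀ a ∈ B i, ∀ b ∈ B i, JoinedIn X (B i) a b) ∧
      (∀ i j, i ≠ j → Disjoint (B i) (B j)) ∧
      (∀ i j, i ≠ j → ∃ x ∈ B i, ∃ y ∈ B j, X.Adj x y) := by
  unfold HasCliqueMinor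
  simp only [connected_iff_joinedIn]

lemma HasCliqueMinor.mono {X : SimpleGraph V} {k l : ℕ} (h : HasCliqueMinor X k) (hl : l ≤ k) :
    HasCliqueMinor X l := by
  obtain ⟨B, h1, h2, h3⟩ := h
  refine ⟨fun i => B (Fin.castLE hl i), fun i => h1 _, fun i j hij => h2 _ _ ?_,
    fun i j hij => h3 _ _ ?_⟩ <;>
  · intro h
    exact hij (Fin.castLE_injective hl h)

lemma hasCliqueMinor_zero (X : SimpleGraph V) : HasCliqueMinor X 0 :=
  ⟨fun i => i.elim0, fun i => i.elim0, fun i => i.elim0, fun i => i.elim0⟩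

/-- If `X'` on `W` is obtained from `X` by contracting connected fibres (and deleting
edges and vertices), then clique minors of `X'` give clique minors of `X`. -/
lemma HasCliqueMinor.of_map {X : SimpleGraph V} {Y : SimpleGraph W} {k : ℕ}
    (S : Set V) (f : V → W)
    (hsurj : ∀ w, ∃ v ∈ S, f v = w)
    (hfib : ∀ a ∈ S, ∀ b ∈ S, f a = f b → JoinedIn X {v | v ∈ S ∧ f v = f a} a b)
    (hadj : ∀ w w', Y.Adj w w' → ∃ v ∈ S, ∃ v' ∈ S, f v = w ∧ f v' = w' ∧ X.Adj v v')
    (h : HasCliqueMinor Y k) : HasCliqueMinor X k := by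
  rw [hasCliqueMinor_iff] at h ⊢
  obtain ⟨B, h1, h2, h3⟩ := h
  refine ⟨fun i => {v | v ∈ S ∧ f v ∈ B i}, ?_, ?_, ?_⟩
  · intro i
    obtain ⟨⟨w, hw⟩, hc⟩ := h1 i
    constructor
    · obtain ⟨v, hv, rfl⟩ := hsurj w
      exact ⟨v, hv, hw⟩
    · rintro a ⟨haS, ha⟩ b ⟨hbS, hb⟩
      have key : ∀ w', JoinedIn Y (B i) (f a) w' → ∀ b ∈ S, f b = w' →
          JoinedIn X {v | v ∈ S ∧ f v ∈ B i} a b := by
        intro w' hw'
        induction hw' with
        | refl =>
          intro b hb hfb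
          refine (hfib a haS b hb hfb.symm).mono ?_
          rintro v ⟨hv, hfv⟩
          exact ⟨hv, by rw [hfv]; exact ha⟩
        | tail h1 h2 ih =>
          intro b hb hfb
          obtain ⟨v, hv, v', hv', hfv, hfv', hvv'⟩ := hadj _ _ h2.1
          have e1 := ih v hv hfv
          have e2 : JoinedIn X {v | v ∈ S ∧ f v ∈ B i} v v' :=
            JoinedIn.of_adj hvv' ⟨hv, by rw [hfv]; exact h2.2.1⟩
              ⟨hv', by rw [hfv']; exact h2.2.2⟩
          refine e1.trans (e2.trans ?_)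
          refine (hfib v' hv' b hb (by rw [hfv', hfb])).mono ?_
          rintro u ⟨hu, hfu⟩
          exact ⟨hu, by rw [hfu, hfv']; exact h2.2.2⟩
      exact key (f b) (hc _ ha _ hb) b hbS rfl
  · intro i j hij
    rw [Set.disjoint_left]
    rintro v ⟨_, hv⟩ ⟨_, hv'⟩
    exact Set.disjoint_left.1 (h2 i j hij) hv hv'
  · intro i j hij
    obtain ⟨x, hx, y, hy, hxy⟩ := h3 i j hij
    obtain ⟨v, hv, v', hv', rfl, rfl, hvv'⟩ := hadj _ _ hxy
    exact ⟨v, ⟨hv, hx⟩, v', ⟨hv', hy⟩, hvv'⟩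

/-- clique minors transfer along injective homomorphisms -/
lemma HasCliqueMinor.of_hom {X : SimpleGraph V} {Y : SimpleGraph W} {k : ℕ}
    (f : Y →g X) (hf : Function.Injective f) (h : HasCliqueMinor Y k) : HasCliqueMinor X k := by
  rw [hasCliqueMinor_iff] at h ⊢
  obtain ⟨B, h1, h2, h3⟩ := h
  refine ⟨fun i => f '' B i, ?_, ?_, ?_⟩
  · intro i
    obtain ⟨hn, hc⟩ := h1 i
    refine ⟨hn.image _, ?_⟩
    rintro _ ⟨a, ha, rfl⟩ _ ⟨b, hb, rfl⟩
    exact (hc a ha b hb).map f
      (fun x hx y hy hxy => JoinedIn.of_adj (f.map_rel hxy) ⟨x, hx, rfl⟩ ⟨y, hy, rfl⟩)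
  · intro i j hij
    exact (Set.disjoint_image_iff hf).2 (h2 i j hij)
  · intro i j hij
    obtain ⟨x, hx, y, hy, hxy⟩ := h3 i j hij
    exact ⟨f x, ⟨x, hx, rfl⟩, f y, ⟨y, hy, rfl⟩, f.map_rel hxy⟩

lemma hasCliqueMinor_iso {X : SimpleGraph V} {Y : SimpleGraph W} {k : ℕ}
    (f : X ≃g Y) : HasCliqueMinor X k ↔ HasCliqueMinor Y k :=
  ⟨fun h => h.of_hom f.toHom f.injective, fun h => h.of_hom f.symm.toHom f.symm.injective⟩

lemma hadwigerNumber_iso {X : SimpleGraph V} {Y : SimpleGraph W}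
    (f : X ≃g Y) : hadwigerNumber X = hadwigerNumber Y := by
  unfold hadwigerNumber
  congr 1
  ext k
  exact hasCliqueMinor_iso f

/-- a clique minor has at most as many branch sets as there are vertices -/
lemma HasCliqueMinor.le_card [Finite V] {X : SimpleGraph V} {k : ℕ} (h : HasCliqueMinor X k) :
    k ≤ Nat.card V := by
  rw [hasCliqueMinor_iff] at h
  obtain ⟨B, h1, h2, h3⟩ := h
  choose x hx using fun i => (h1 i).1
  have hinj : Function.Injective x := by
    intro i j hij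
    by_contra hne
    exact Set.disjoint_left.1 (h2 i j hne) (hx i) (by rw [hij]; exact hx j)
  have := Nat.card_le_card_of_injective x hinj
  simpa using this

lemma bddAbove_cliqueMinor [Finite V] (X : SimpleGraph V) :
    BddAbove {k : ℕ | HasCliqueMinor X k} :=
  ⟨Nat.card V, fun _ hk => HasCliqueMinor.le_card hk⟩

lemma le_hadwigerNumber [Finite V] {X : SimpleGraph V} {k : ℕ} (h : HasCliqueMinor X k) :
    k ≤ hadwigerNumber X := le_csSup (bddAbove_cliqueMinor X) h

lemma hadwigerNumber_le {X : SimpleGraph V} {m : ℕ} (h : ∀ k, HasCliqueMinor X k → k ≤ m) :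
    hadwigerNumber X ≤ m :=
  csSup_le ⟨0, hasCliqueMinor_zero X⟩ h

/-- transfer of the automorphism group along a graph isomorphism -/
def autEquiv {X : SimpleGraph V} {Y : SimpleGraph W} (f : X ≃g Y) : (X ≃g X) ≃* (Y ≃g Y) where
  toFun g := (f.symm.trans g).trans f
  invFun g := (f.trans g).trans f.symm
  left_inv g := by ext x; simp
  right_inv g := by ext x; simp
  map_mul' g h := by
    ext x
    simp [RelIso.mul_apply]

/-- `m(G)` is at most the Hadwiger number of any finite graph with automorphism group `G` -/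
lemma minHadwiger_le_of_aut {G : Type*} [Group G] [Finite V] (X : SimpleGraph V)
    (h : Nonempty ((X ≃g X) ≃* G)) : minHadwiger G ≤ hadwigerNumber X := by
  obtain ⟨e⟩ := h
  let f : V ≃ Fin (Nat.card V) := Finite.equivFin V
  let Y : SimpleGraph (Fin (Nat.card V)) := X.map f.toEmbedding
  have iso : X ≃g Y := SimpleGraph.Iso.map f X
  refine Nat.sInf_le ⟨Nat.card V, Y, ⟨(autEquiv iso).symm.trans e⟩, ?_⟩
  exact (hadwigerNumber_iso iso).symm

end Pool.Helper24.MinHadwiger
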