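import Pool.Agent.Helper24.MinHadwiger.Small

/-!
# Connected graphs with one edge orbit under the alternating group
-/

namespace Pool.Helper24.MinHadwiger

open Equiv Equiv.Perm Finset

section Gen

variable {G V : Type*} [Group G] [MulAction G V]

lemma connected_induct {X : SimpleGraph V} (hc : X.Connected) {P : V → Prop} {x : V} (hx : P x)
    (h : ∀ a b, X.Adj a b → P a → P b) (v : V) : P v := by
  have h1 := hc.preconnected x v
  rw [SimpleGraph.reachable_iff_reflTransGen] at h1
  induction h1 with
  | refl => exact hx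
  | tail _ h2 ih => exact h _ _ h2 ih

/-- connected graph, one edge orbit, no fixed vertex -/
structure OneEdge (G : Type*) {V : Type*} [Group G] [MulAction G V] (X : SimpleGraph V)
    (x y : V) : Prop where
  inv : Inv G X
  conn : X.Connected
  adj : X.Adj x y
  edge : ∀ a b, X.Adj a b → ∃ g : G, (a = g • x ∧ b = g • y) ∨ (a = g • y ∧ b = g • x)
  nofix : ∀ v : V, ∃ g : G, g • v ≠ v

namespace OneEdge

variable {X : SimpleGraph V} {x y : V}

lemma symm (h : OneEdge G X x y) : OneEdge G X y x where
  inv := h.inv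
  conn := h.conn
  adj := h.adj.symm
  edge a b hab := by
    obtain ⟨g, hg⟩ := h.edge a b hab
    exact ⟨g, hg.symm⟩
  nofix := h.nofix

lemma cover (h : OneEdge G X x y) (v : V) : v ∈ MulAction.orbit G x ∨ v ∈ MulAction.orbit G y := by
  refine connected_induct h.conn (P := fun v => v ∈ MulAction.orbit G x ∨ v ∈ MulAction.orbit G y)
    (x := x) (Or.inl (MulAction.mem_orbit_self x)) ?_ v
  intro a b hab _
  obtain ⟨g, ⟨-, rfl⟩ | ⟨-, rfl⟩⟩ := h.edge a b hab
  · exact Or.inr (MulAction.mem_orbit _ _)
  · exact Or.inl (MulAction.mem_orbit _ _)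

/-- a subgroup containing the two stabilisers and the elements mapping `x` to `y` is everything -/
lemma eq_top (h : OneEdge G X x y) (J : Subgroup G) (hJx : ∀ g : G, g • x = x → g ∈ J)
    (hJy : ∀ g : G, g • y = y → g ∈ J) (hJt : ∀ g : G, g • x = y → g ∈ J) : J = ⊤ := by
  have key : ∀ v, ∃ j ∈ J, v = j • x ∨ v = j • y := by
    intro v
    refine connected_induct h.conn (P := fun v => ∃ j ∈ J, v = j • x ∨ v = j • y) (x := x)
      ⟨1, J.one_mem, Or.inl (one_smul _ _).symm⟩ ?_ v
    rintro a b hab ⟨j, hj, ha⟩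
    obtain ⟨g, ⟨ha', rfl⟩ | ⟨ha', rfl⟩⟩ := h.edge a b hab
    · refine ⟨g, ?_, Or.inr rfl⟩
      rcases ha with ha | ha
      · have h1 : (j⁻¹ * g) • x = x := by rw [mul_smul, ← ha', ha, inv_smul_smul]
        have h2 := J.mul_mem hj (hJx _ h1)
        rwa [mul_inv_cancel_left] at h2
      · have h1 : (j⁻¹ * g) • x = y := by rw [mul_smul, ← ha', ha, inv_smul_smul]
        have h2 := J.mul_mem hj (hJt _ h1)
        rwa [mul_inv_cancel_left] at h2
    · refine ⟨g, ?_, Or.inl rfl⟩
      rcases ha with ha | ha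
      · have h1 : (g⁻¹ * j) • x = y := by rw [mul_smul, ← ha, ha', inv_smul_smul]
        have h2 := J.mul_mem hj (J.inv_mem (hJt _ h1))
        rwa [mul_inv_rev, inv_inv, mul_inv_cancel_left] at h2
      · have h1 : (j⁻¹ * g) • y = y := by rw [mul_smul, ← ha', ha, inv_smul_smul]
        have h2 := J.mul_mem hj (hJy _ h1)
        rwa [mul_inv_cancel_left] at h2
  rw [eq_top_iff]
  intro g _
  obtain ⟨j, hj, h1 | h1⟩ := key (g • x)
  · have h2 : (j⁻¹ * g) • x = x := by rw [mul_smul, h1, inv_smul_smul]
    have h3 := J.mul_mem hj (hJx _ h2)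
    rwa [mul_inv_cancel_left] at h3
  · have h2 : (j⁻¹ * g) • x = y := by rw [mul_smul, h1, inv_smul_smul]
    have h3 := J.mul_mem hj (hJt _ h2)
    rwa [mul_inv_cancel_left] at h3

lemma gen (h : OneEdge G X x y) :
    Subgroup.closure {g : G | X.dist x (g • x) ≤ 2} = ⊤ := by
  have h1 : X.dist x y = 1 := SimpleGraph.dist_eq_one_iff_adj.2 h.adj
  apply h.eq_top
  · intro g hg
    apply Subgroup.subset_closure
    simp only [Set.mem_ofPred_eq, hg, SimpleGraph.dist_self]
    omega
  · intro g hg
    apply Subgroup.subset_closure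
    simp only [Set.mem_ofPred_eq]
    have h2 := h.conn.dist_triangle (u := x) (v := y) (w := g • x)
    have h3 := h.inv.dist_smul h.conn g y x
    rw [hg, SimpleGraph.dist_comm (u := y) (v := x)] at h3
    omega
  · intro g hg
    apply Subgroup.subset_closure
    simp only [Set.mem_ofPred_eq, hg, h1]
    omega

end OneEdge

end Gen

variable {α : Type*} [DecidableEq α] [Fintype α]

/-- set stabiliser -/
def setStab (B : Finset α) : Subgroup (alternatingGroup α) where
  carrier := {g | B.image (g : Perm α) = B}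
  mul_mem' := by
    intro g h hg hh
    simp only [Set.mem_ofPred_eq] at hg hh ⊢
    have : B.image ((g * h : alternatingGroup α) : Perm α) =
        (B.image (h : Perm α)).image (g : Perm α) := by
      rw [Finset.image_image]; rfl
    rw [this, hh, hg]
  one_mem' := by
    simp only [Set.mem_ofPred_eq, Subgroup.coe_one]
    exact Finset.image_id
  inv_mem' := by
    intro g hg
    simp only [Set.mem_ofPred_eq] at hg ⊢
    have h1 : (B.image (g : Perm α)).image ((g⁻¹ : alternatingGroup α) : Perm α) = B := by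
      rw [Finset.image_image]
      have : (((g⁻¹ : alternatingGroup α) : Perm α) : α → α) ∘ ((g : Perm α) : α → α) = id := by
        ext y
        simp
      rw [this, Finset.image_id]
    rw [hg] at h1
    exact h1

lemma mem_setStab {B : Finset α} {g : alternatingGroup α} :
    g ∈ setStab B ↔ B.image (g : Perm α) = B := Iff.rfl

lemma setStab_ne_top {B : Finset α} (h : B.Nonempty) (h' : B ≠ univ) (hn : 3 ≤ Fintype.card α) :
    setStab B ≠ ⊤ := by
  intro htop
  obtain ⟨p, hp⟩ := h
  have : ∃ q, q ∉ B := by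
    by_contra hcon
    push Not at hcon
    exact h' (Finset.eq_univ_iff_forall.2 hcon)
  obtain ⟨q, hq⟩ := this
  obtain ⟨g, hg⟩ := exists_alt_map (s := {p}) (fun _ => q) (by
    intro a ha b hb _
    simp only [Finset.coe_singleton, Set.mem_singleton_iff] at ha hb
    rw [ha, hb]) (by rw [Finset.card_singleton]; omega)
  have h1 : g ∈ setStab B := by rw [htop]; trivial
  rw [mem_setStab] at h1
  have h2 : q ∈ B.image (g : Perm α) := by
    rw [Finset.mem_image]
    exact ⟨p, hp, hg p (by simp)⟩
  rw [h1] at h2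
  exact hq h2

section

variable {V : Type*} [MulAction (alternatingGroup α) V]

lemma image_eq_of_smul_eq {x : V} {B : Finset α} (hB : MaxGood (stab (α := α) x) B)
    (hbig : Fintype.card α < 2 * B.card) {g : alternatingGroup α} (hg : g • x = x) :
    B.image (g : Perm α) = B := by
  have h1 := maxGood_smul g hB
  rw [hg] at h1
  refine h1.eq_of_big hB ?_
  rw [Finset.card_image_of_injective _ (Equiv.injective _)]
  omega

lemma maxGood_ne_univ {x : V} {B : Finset α} (hB : MaxGood (stab (α := α) x) B)
    (hx : ∃ g : alternatingGroup α, g • x ≠ x) : B ≠ univ := by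
  rintro rfl
  obtain ⟨g, hg⟩ := hx
  apply hg
  rw [← coe_mem_stab]
  exact hB.1.mem _ (mem_alternatingGroup.1 g.2) (Finset.subset_univ _)

omit [Fintype α] in
lemma exists_sdiff {B B' : Finset α} (hne : B ≠ B') (hcard : B.card = B'.card) :
    (∃ a ∈ B, a ∉ B') ∧ ∃ a' ∈ B', a' ∉ B := by
  constructor
  · by_contra hcon
    push Not at hcon
    exact hne (Finset.eq_of_subset_of_card_le hcon hcard.ge)
  · by_contra hcon
    push Not at hcon
    exact hne (Finset.eq_of_subset_of_card_le hcon hcard.le).symm

/-- transfer of the index bound to the alternating group on a subset -/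
lemma subset_dichotomy (R : Finset α) (w : V) (hn : 2 ^ 100 ≤ R.card) :
    (∃ T : Finset V, R.card ^ 14 ≤ T.card ∧ ∀ v ∈ T, ∃ τ : alternatingGroup α,
      (τ : Perm α).support ⊆ R ∧ v = τ • w) ∨
    ∃ s : Finset α, s.card ≤ 16 ∧ Good (stab (α := α) w) (R \ s) := by
  classical
  let _ : MulAction (alternatingGroup R) V := MulAction.compHom V (alternatingGroup.ofSubtype R)
  have hdef : ∀ (τ : alternatingGroup R) (v : V), τ • v = alternatingGroup.ofSubtype R τ • v :=
    fun _ _ => rfl
  rcases orbit_large_or_small_support (α := R) w (by rwa [Fintype.card_coe]) with h | h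
  · left
    rw [Fintype.card_coe] at h
    have hfin : (MulAction.orbit (alternatingGroup R) w).Finite := Set.finite_range _
    refine ⟨hfin.toFinset, ?_, ?_⟩
    · rw [← Set.ncard_eq_toFinset_card _ hfin]
      exact h
    · intro v hv
      rw [Set.Finite.mem_toFinset] at hv
      obtain ⟨τ, rfl⟩ := hv
      refine ⟨alternatingGroup.ofSubtype R τ, ?_, hdef τ w⟩
      rw [← alternatingGroup.mem_range_ofSubtype_iff]
      exact ⟨_, rfl⟩
  · right
    obtain ⟨s, hs, hfix⟩ := h
    refine ⟨s.map (Function.Embedding.subtype _), by rwa [Finset.card_map], ?_⟩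
    intro i hi j hj k hk hij hik hjk
    have hmem : ∀ i, i ∈ R \ s.map (Function.Embedding.subtype (fun x => x ∈ R)) →
        ∃ h : i ∈ R, (⟨i, h⟩ : R) ∉ s := by
      intro i hi
      rw [Finset.mem_sdiff, Finset.mem_map] at hi
      refine ⟨hi.1, ?_⟩
      intro h
      exact hi.2 ⟨⟨i, hi.1⟩, h, rfl⟩
    obtain ⟨hiR, his⟩ := hmem i hi
    obtain ⟨hjR, hjs⟩ := hmem j hj
    obtain ⟨hkR, hks⟩ := hmem k hk
    have hij' : (⟨i, hiR⟩ : R) ≠ ⟨j, hjR⟩ := fun h => hij (congrArg Subtype.val h)
    have hik' : (⟨i, hiR⟩ : R) ≠ ⟨k, hkR⟩ := fun h => hik (congrArg Subtype.val h)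
    have hjk' : (⟨j, hjR⟩ : R) ≠ ⟨k, hkR⟩ := fun h => hjk (congrArg Subtype.val h)
    have h1 := hfix (tcA ⟨i, hiR⟩ ⟨j, hjR⟩ ⟨k, hkR⟩ hij' hik') (by
      intro p hp
      change tc (⟨i, hiR⟩ : R) ⟨j, hjR⟩ ⟨k, hkR⟩ p = p
      rw [tc_apply hij' hik' hjk']
      have e1 : p ≠ ⟨i, hiR⟩ := fun h => his (h ▸ hp)
      have e2 : p ≠ ⟨j, hjR⟩ := fun h => hjs (h ▸ hp)
      have e3 : p ≠ ⟨k, hkR⟩ := fun h => hks (h ▸ hp)
      simp [e1, e2, e3])
    rw [hdef, ← coe_mem_stab] at h1
    have h2 : ((alternatingGroup.ofSubtype R (tcA ⟨i, hiR⟩ ⟨j, hjR⟩ ⟨k, hkR⟩ hij' hik') :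
        alternatingGroup α) : Perm α) = tc i j k := by
      rw [alternatingGroup.coe_ofSubtype]
      simp only [tcA, tc, map_mul, Equiv.Perm.ofSubtype_swap_eq]
    rwa [h2] at h1

/-- **Small case.** -/
lemma OneEdge.small {X : SimpleGraph V} {x y : V} (h : OneEdge (alternatingGroup α) X x y)
    (hn : 2 ^ 101 ≤ Fintype.card α) (m : ℕ) (hm4 : 4 ≤ m) (hm : m + 66 ≤ Fintype.card α)
    (hx : ¬ Fintype.card α ^ 14 ≤ Nat.card (MulAction.orbit (alternatingGroup α) x)) :
    HasCliqueMinor X m := by
  classical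
  obtain ⟨n, hndef⟩ : ∃ n, n = Fintype.card α := ⟨_, rfl⟩
  rw [← hndef] at hn hm hx
  have h101 : (2 : ℕ) ^ 101 = 2 * 2 ^ 100 := by norm_num
  have h100 : (200 : ℕ) ≤ 2 ^ 100 := by norm_num
  obtain ⟨s, hs, hfix⟩ := (orbit_large_or_small_support (α := α) x (by omega)).resolve_left
    (by rw [← hndef]; exact hx)
  -- the big set of x
  have hgood : Good (stab (α := α) x) sᶜ := by
    intro i hi j hj k hk hij hik hjk
    rw [Finset.mem_compl] at hi hj hk
    have h1 := hfix (tcA i j k hij hik) (by
      intro p hp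
      change tc i j k p = p
      rw [tc_apply hij hik hjk]
      have e1 : p ≠ i := fun h => hi (h ▸ hp)
      have e2 : p ≠ j := fun h => hj (h ▸ hp)
      have e3 : p ≠ k := fun h => hk (h ▸ hp)
      simp [e1, e2, e3])
    rw [← coe_mem_stab] at h1
    exact h1
  have hsc : n ≤ sᶜ.card + 16 := by
    rw [Finset.card_compl, ← hndef]; omega
  obtain ⟨B, hB, hsB⟩ := exists_maxGood hgood (by omega)
  have hBc : n ≤ B.card + 16 := hsc.trans (Nat.add_le_add_right (Finset.card_le_card hsB) 16)
  have hBne : B ≠ univ := maxGood_ne_univ hB (h.nofix x)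
  have hBnon : B.Nonempty := by rw [← Finset.card_pos]; omega
  have hBtop := setStab_ne_top hBnon hBne (by omega)
  have hBbig : Fintype.card α < 2 * B.card := by omega
  by_cases hxy : y ∈ MulAction.orbit (alternatingGroup α) x
  · -- same orbit
    obtain ⟨t, ht⟩ := hxy
    have ht' : t • x = y := ht
    set B' := B.image (t : Perm α) with hB'def
    have hB' : MaxGood (stab (α := α) y) B' := by
      have := maxGood_smul t hB
      rwa [ht'] at this
    have hB'c : B'.card = B.card := Finset.card_image_of_injective _ (Equiv.injective _)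
    have hne : B ≠ B' := by
      intro heq
      apply hBtop
      apply h.eq_top
      · intro g hg
        exact image_eq_of_smul_eq hB hBbig hg
      · intro g hg
        have := image_eq_of_smul_eq hB' (by omega) hg
        rwa [← heq] at this
      · intro g hg
        rw [mem_setStab]
        have h1 := maxGood_smul g hB
        rw [hg] at h1
        have h2 := h1.eq_of_big hB' (by
          rw [Finset.card_image_of_injective _ (Equiv.injective _)]; omega)
        rw [h2, ← heq]
    obtain ⟨⟨a, haB, haB'⟩, a', ha'B', ha'B⟩ := exists_sdiff hne hB'c.symm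
    obtain ⟨c⟩ := exists_config (m := m) hB hB' haB haB' ha'B' ha'B (Finset.Subset.refl _) (by
      have h2 := Finset.card_union_add_card_inter B B'
      have h3 := Finset.card_le_univ (B ∪ B')
      omega)
    exact c.adj_case hm4 h.inv h.adj hBbig (by omega)
  -- different orbits
  have hyx : x ∉ MulAction.orbit (alternatingGroup α) y := by
    intro hcon
    exact hxy (MulAction.mem_orbit_symm.1 hcon)
  have hk : ∃ k : alternatingGroup α, k • y = y ∧ B.image (k : Perm α) ≠ B := by
    by_contra hcon
    push Not at hcon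
    apply hBtop
    apply h.eq_top
    · intro g hg
      exact image_eq_of_smul_eq hB hBbig hg
    · intro g hg
      exact hcon g hg
    · intro g hg
      exact absurd ⟨g, hg⟩ hxy
  obtain ⟨k, hky, hkB⟩ := hk
  set B' := B.image (k : Perm α) with hB'def
  have hB' : MaxGood (stab (α := α) (k • x)) B' := maxGood_smul k hB
  have hB'c : B'.card = B.card := Finset.card_image_of_injective _ (Equiv.injective _)
  have hadj1 : X.Adj y x := h.adj.symm
  have hadj2 : X.Adj y (k • x) := by
    have := h.inv k _ _ hadj1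
    rwa [hky] at this
  have hykx : y ∉ MulAction.orbit (alternatingGroup α) (k • x) := by
    rw [MulAction.orbit_smul]
    exact hxy
  obtain ⟨⟨a, haB, haB'⟩, a', ha'B', ha'B⟩ := exists_sdiff hkB.symm hB'c.symm
  have hRc : n ≤ (B ∩ B').card + 32 := by
    have h2 := Finset.card_union_add_card_inter B B'
    have h3 := Finset.card_le_univ (B ∪ B')
    omega
  rcases subset_dichotomy (B ∩ B') y (by omega) with ⟨T, hT, hTw⟩ | ⟨s', hs', hgood'⟩
  · -- Hall case
    obtain ⟨c⟩ := exists_config (m := m) hB hB' haB haB' ha'B' ha'B (Finset.Subset.refl _)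
      (by omega)
    refine c.hall_case hm4 h.inv hadj1 hadj2 hBbig (by omega) ⟨T, ?_, hTw⟩ hxy hykx
    refine le_trans ?_ hT
    have e1 : m ≤ (B ∩ B').card := by omega
    calc m ^ 2 ≤ (B ∩ B').card ^ 2 := Nat.pow_le_pow_left e1 _
      _ ≤ (B ∩ B').card ^ 14 := Nat.pow_le_pow_right (by omega) (by norm_num)
  -- y has a big good set
  have hcc : n ≤ ((B ∩ B') \ s').card + 48 := by
    have := Finset.le_card_sdiff s' (B ∩ B')
    omega
  obtain ⟨C, hC, hsC⟩ := exists_maxGood hgood' (by omega)
  have hCc : n ≤ C.card + 48 := hcc.trans (Nat.add_le_add_right (Finset.card_le_card hsC) 48)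
  have hCbig : Fintype.card α < 2 * C.card := by omega
  have hCne : C ≠ univ := maxGood_ne_univ hC (h.nofix y)
  have hCnon : C.Nonempty := by rw [← Finset.card_pos]; omega
  have hCtop := setStab_ne_top hCnon hCne (by omega)
  by_cases hBC : ∃ b ∈ B, b ∉ C
  · by_cases hCB : ∃ b' ∈ C, b' ∉ B
    · obtain ⟨b, hbB, hbC⟩ := hBC
      obtain ⟨b', hb'C, hb'B⟩ := hCB
      obtain ⟨c⟩ := exists_config (m := m) hB hC hbB hbC hb'C hb'B (Finset.Subset.refl _) (by
        have h2 := Finset.card_union_add_card_inter B C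
        have h3 := Finset.card_le_univ (B ∪ C)
        omega)
      exact c.adj_case hm4 h.inv h.adj hBbig hCbig
    · -- C ⊆ B
      push Not at hCB
      have hCB' : C ⊆ B := hCB
      have hCB'' : C ⊆ B' := by
        have h1 := image_eq_of_smul_eq hC hCbig hky
        rw [← h1]
        exact Finset.image_subset_image hCB'
      obtain ⟨c⟩ := exists_config (m := m) (R := C) hB hB' haB haB' ha'B' ha'B
        (Finset.subset_inter hCB' hCB'') (by omega)
      exact c.sub_case hm4 h.inv hadj1 hadj2 hBbig (by omega) hC hCbig (Finset.Subset.refl _)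
        (fun h => c.haB' (hCB'' h)) (fun h => c.ha'B (hCB' h)) hxy hykx
  · -- B ⊆ C
    push Not at hBC
    have hBC' : B ⊆ C := hBC
    have hk' : ∃ k : alternatingGroup α, k • x = x ∧ C.image (k : Perm α) ≠ C := by
      by_contra hcon
      push Not at hcon
      apply hCtop
      apply h.eq_top
      · intro g hg
        exact hcon g hg
      · intro g hg
        exact image_eq_of_smul_eq hC hCbig hg
      · intro g hg
        exact absurd ⟨g, hg⟩ hxy
    obtain ⟨k', hk'x, hk'C⟩ := hk'
    set C' := C.image (k' : Perm α) with hC'def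
    have hC' : MaxGood (stab (α := α) (k' • y)) C' := maxGood_smul k' hC
    have hC'c : C'.card = C.card := Finset.card_image_of_injective _ (Equiv.injective _)
    have hadj1' : X.Adj x y := h.adj
    have hadj2' : X.Adj x (k' • y) := by
      have := h.inv k' _ _ hadj1'
      rwa [hk'x] at this
    have hxky : x ∉ MulAction.orbit (alternatingGroup α) (k' • y) := by
      rw [MulAction.orbit_smul]
      exact hyx
    obtain ⟨⟨b, hbC, hbC'⟩, b', hb'C', hb'C⟩ := exists_sdiff hk'C.symm hC'c.symm
    have hBC'' : B ⊆ C' := by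
      have h1 := image_eq_of_smul_eq hB hBbig hk'x
      rw [← h1]
      exact Finset.image_subset_image hBC'
    obtain ⟨c⟩ := exists_config (m := m) (R := B) hC hC' hbC hbC' hb'C' hb'C
      (Finset.subset_inter hBC' hBC'') (by omega)
    exact c.sub_case hm4 h.inv hadj1' hadj2' hCbig (by omega) hB hBbig (Finset.Subset.refl _)
      (fun h => c.haB' (hBC'' h)) (fun h => c.ha'B (hBC' h)) hyx hxky

/-- **Connected graphs with one edge orbit.** -/
theorem OneEdge.hasCliqueMinor [Finite V] {X : SimpleGraph V} {x y : V}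
    (h : OneEdge (alternatingGroup α) X x y)
    (hn : 2 ^ 101 ≤ Fintype.card α) (m : ℕ) (hm4 : 4 ≤ m) (hm : m + 66 ≤ Fintype.card α) :
    HasCliqueMinor X m := by
  by_cases hx : Fintype.card α ^ 14 ≤ Nat.card (MulAction.orbit (alternatingGroup α) x)
  · by_cases hy : Fintype.card α ^ 14 ≤ Nat.card (MulAction.orbit (alternatingGroup α) y)
    · have h101 : (2 : ℕ) ^ 101 = 2 * 2 ^ 100 := by norm_num
      refine (hasCliqueMinor_of_long_orbits h.inv h.conn x y h.cover h.gen h.symm.gen
        (by omega) ?_).mono (by omega)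
      intro v
      rcases h.cover v with hv | hv
      · rw [MulAction.orbit_eq_iff.2 hv]; exact hx
      · rw [MulAction.orbit_eq_iff.2 hv]; exact hy
    · exact h.symm.small hn m hm4 hm hy
  · exact h.small hn m hm4 hm hx

end

end Pool.Helper24.MinHadwiger
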