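import Mathlib

/-!
# Definitions: clique minors, the Hadwiger number, and `m(G)`
-/

namespace Pool.Helper24.MinHadwiger

/-- `X` has the complete graph on `k` vertices as a minor (subcontraction to `K_k`): there are
`k` pairwise disjoint vertex sets (the branch sets), each inducing a connected subgraph of `X`
(in particular nonempty), with an edge of `X` between any two of them. -/
def HasCliqueMinor {V : Type*} (X : SimpleGraph V) (k : ℕ) : Prop :=
  ∃ B : Fin k → Set V,
    (∀ i, (X.induce (B i)).Connected) ∧
    (∀ i j, i ≠ j → Disjoint (B i) (B j)) ∧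
    (∀ i j, i ≠ j → ∃ x ∈ B i, ∃ y ∈ B j, X.Adj x y)

/-- The Hadwiger number `h(X)`: the largest `k` such that `K_k` is a minor of `X`. -/
noncomputable def hadwigerNumber {V : Type*} (X : SimpleGraph V) : ℕ :=
  sSup {k : ℕ | HasCliqueMinor X k}

/-- `m(G)`: the least Hadwiger number of a finite graph whose full automorphism group is
isomorphic to `G`.  (Every finite graph is isomorphic to one with vertex set `Fin N`.) -/
noncomputable def minHadwiger (G : Type*) [Group G] : ℕ :=
  sInf {k : ℕ | ∃ (N : ℕ) (X : SimpleGraph (Fin N)),
    Nonempty ((X ≃g X) ≃* G) ∧ hadwigerNumber X = k}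

end Pool.Helper24.MinHadwiger
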