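import Pool.Agent.Helper24.MinHadwiger.IndexBound

/-!
# Length functions on the alternating group, and a diameter bound
-/

namespace Pool.Helper24.MinHadwiger

open Equiv Equiv.Perm Finset

/-- subadditive symmetric length functions -/
structure LengthFn (G : Type*) [Group G] where
  /-- the function -/
  toFun : G → ℕ
  one : toFun 1 = 0
  mul : ∀ g h, toFun (g * h) ≤ toFun g + toFun h
  inv : ∀ g, toFun g⁻¹ = toFun g

namespace LengthFn

variable {G : Type*} [Group G] (l : LengthFn G)

lemma pow_le (g : G) (m : ℕ) : l.toFun (g ^ m) ≤ m * l.toFun g := by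
  induction m with
  | zero => simp [l.one]
  | succ m ih =>
    rw [pow_succ]
    have := l.mul (g ^ m) g
    nlinarith

lemma conj_le (g h : G) : l.toFun (h * g * h⁻¹) ≤ l.toFun g + 2 * l.toFun h := by
  have h1 := l.mul (h * g) h⁻¹
  have h2 := l.mul h g
  rw [l.inv] at h1
  omega

/-- breadth first search -/
lemma exists_short (hgen : Subgroup.closure {g : G | l.toFun g ≤ 2} = ⊤) {Ω : Type*} [Finite Ω]
    [MulAction G Ω] (a : Ω) (g₀ : G) :
    ∃ g : G, g • a = g₀ • a ∧ l.toFun g ≤ 2 * Nat.card Ω := by
  classical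
  let A : ℕ → Set Ω := fun j => {b | ∃ g : G, l.toFun g ≤ 2 * j ∧ g • a = b}
  have hmono : ∀ i j, i ≤ j → A i ⊆ A j := by
    rintro i j hij b ⟨g, hg, rfl⟩
    exact ⟨g, by omega, rfl⟩
  have hstep : ∀ j, ∀ b ∈ A j, ∀ s : G, l.toFun s ≤ 2 → s • b ∈ A (j + 1) := by
    rintro j b ⟨g, hg, rfl⟩ s hs
    refine ⟨s * g, ?_, mul_smul s g a⟩
    have := l.mul s g
    omega
  -- a stable step
  have hstab : ∃ j, j ≤ Nat.card Ω ∧ A (j + 1) = A j := by
    by_contra hcon
    push Not at hcon
    have h1 : ∀ j, j ≤ Nat.card Ω + 1 → j ≤ (A j).ncard := by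
      intro j
      induction j with
      | zero => intro _; exact Nat.zero_le _
      | succ j ih =>
        intro hj
        have h2 := ih (by omega)
        have h3 := hcon j (by omega)
        have h4 : A j ⊂ A (j + 1) := (hmono j (j + 1) (by omega)).ssubset_of_ne (Ne.symm h3)
        have h5 := Set.ncard_lt_ncard h4 (Set.toFinite _)
        omega
    have h6 := h1 (Nat.card Ω + 1) le_rfl
    have h7 : (A (Nat.card Ω + 1)).ncard ≤ Nat.card Ω := by
      rw [← Set.ncard_univ]
      exact Set.ncard_le_ncard (Set.subset_univ _) (Set.toFinite _)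
    omega
  obtain ⟨j, hj, hjj⟩ := hstab
  -- A j is invariant
  have hinv : ∀ g : G, ∀ b ∈ A j, g • b ∈ A j := by
    have key : ∀ g ∈ Subgroup.closure {g : G | l.toFun g ≤ 2}, ∀ b, b ∈ A j ↔ g • b ∈ A j := by
      intro g hg
      induction hg using Subgroup.closure_induction with
      | mem s hs =>
        intro b
        constructor
        · intro hb
          rw [← hjj]
          exact hstep j b hb s hs
        · intro hb
          have h1 := hstep j _ hb s⁻¹ (by rw [l.inv]; exact hs)
          rwa [inv_smul_smul, hjj] at h1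
      | one => intro b; rw [one_smul]
      | mul g h _ _ ihg ihh =>
        intro b
        rw [mul_smul, ← ihg, ← ihh]
      | inv g _ ih =>
        intro b
        rw [ih (g⁻¹ • b), smul_inv_smul]
    intro g b hb
    exact (key g (by rw [hgen]; trivial) b).1 hb
  have ha : a ∈ A j := ⟨1, by rw [l.one]; omega, one_smul _ _⟩
  obtain ⟨g, hg, hga⟩ := hinv g₀ a ha
  exact ⟨g, hga, by omega⟩

end LengthFn

variable {α : Type*} [DecidableEq α] [Fintype α]

/-- prescribing an even permutation on few points, with control of the length -/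
lemma exists_alt_map_short (l : LengthFn (alternatingGroup α))
    (hgen : Subgroup.closure {g : alternatingGroup α | l.toFun g ≤ 2} = ⊤)
    {s : Finset α} (f : α → α) (hf : Set.InjOn f s)
    (hs : s.card + 2 ≤ Fintype.card α) :
    ∃ g : alternatingGroup α, (∀ i ∈ s, (g : Perm α) i = f i) ∧
      l.toFun g ≤ 2 * Fintype.card α ^ s.card := by
  obtain ⟨g₀, hg₀⟩ := exists_alt_map f hf hs
  obtain ⟨g, hg, hl⟩ := l.exists_short hgen (Ω := s → α) (fun i => (i : α)) g₀
  refine ⟨g, ?_, ?_⟩
  · intro i hi
    have h1 := congrFun hg ⟨i, hi⟩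
    simp only [Pi.smul_apply] at h1
    have h2 : (g : Perm α) i = (g₀ : Perm α) i := h1
    rw [h2, hg₀ i hi]
  · refine hl.trans ?_
    rw [Nat.card_eq_fintype_card, Fintype.card_fun, Fintype.card_coe]

/-- the three-cycle as an element of the alternating group -/
def tcA (i j k : α) (hij : i ≠ j) (hik : i ≠ k) : alternatingGroup α :=
  ⟨tc i j k, tc_mem_alternating hij hik⟩

/-- If some three-cycle has length at most `L`, all elements have length at most
`n (L + 4 n^3)`. -/
lemma length_le_of_tc (l : LengthFn (alternatingGroup α))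
    (hgen : Subgroup.closure {g : alternatingGroup α | l.toFun g ≤ 2} = ⊤)
    (hn : 5 ≤ Fintype.card α) (L : ℕ) {i j k : α} (hij : i ≠ j) (hik : i ≠ k) (hjk : j ≠ k)
    (hL : l.toFun (tcA i j k hij hik) ≤ L) (g : alternatingGroup α) :
    l.toFun g ≤ Fintype.card α * (L + 4 * Fintype.card α ^ 3) := by
  classical
  set n := Fintype.card α with hndef
  -- all three-cycles
  have h1 : ∀ i' j' k' : α, ∀ hij' : i' ≠ j', ∀ hik' : i' ≠ k', j' ≠ k' →
      l.toFun (tcA i' j' k' hij' hik') ≤ L + 4 * n ^ 3 := by
    intro i' j' k' hij' hik' hjk'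
    have hcard : ({i, j, k} : Finset α).card = 3 :=
      Finset.card_eq_three.2 ⟨i, j, k, hij, hik, hjk, rfl⟩
    obtain ⟨g, hg, hl⟩ := exists_alt_map_short l hgen (s := {i, j, k})
      (fun x => if x = i then i' else if x = j then j' else k') (by
        intro x hx y hy hxy
        simp only [Finset.coe_insert, Finset.coe_singleton, Set.mem_insert_iff,
          Set.mem_singleton_iff] at hx hy
        rcases hx with rfl | rfl | rfl <;> rcases hy with rfl | rfl | rfl <;>
          simp_all [hij.symm, hik.symm, hjk.symm, hij'.symm, hik'.symm, hjk'.symm])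
      (by rw [hcard]; omega)
    have gi : (g : Perm α) i = i' := by rw [hg i (by simp)]; simp
    have gj : (g : Perm α) j = j' := by rw [hg j (by simp)]; simp [hij.symm]
    have gk : (g : Perm α) k = k' := by rw [hg k (by simp)]; simp [hik.symm, hjk.symm]
    have h2 : tcA i' j' k' hij' hik' = g * tcA i j k hij hik * g⁻¹ := by
      apply Subtype.ext
      simp only [tcA, Subgroup.coe_mul, Subgroup.coe_inv]
      rw [tc_conj, gi, gj, gk]
    rw [h2]
    have h3 := l.conj_le (tcA i j k hij hik) g
    rw [hcard, ← hndef] at hl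
    omega
  -- induction on the support
  have h2 : ∀ m : ℕ, ∀ g : alternatingGroup α, (g : Perm α).support.card ≤ m →
      l.toFun g ≤ m * (L + 4 * n ^ 3) := by
    intro m
    induction m with
    | zero =>
      intro g hg
      have : g = 1 := by
        apply Subtype.ext
        rw [Subgroup.coe_one, ← support_eq_empty_iff, ← Finset.card_eq_zero]
        omega
      rw [this, l.one]
      exact Nat.zero_le _
    | succ m ih =>
      intro g hg
      by_cases hne : (g : Perm α) = 1
      · have : g = 1 := Subtype.ext hne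
        rw [this, l.one]
        exact Nat.zero_le _
      obtain ⟨i', j', k', hij', hik', hjk', -, -, -, hsub⟩ :=
        exists_tc_reduce (mem_alternatingGroup.1 g.2) hne
      have e1 := ih (tcA i' j' k' hij' hik' * g) (by
        have := Finset.card_lt_card hsub
        simp only [tcA, Subgroup.coe_mul]
        omega)
      have e2 := h1 i' j' k' hij' hik' hjk'
      have e3 := l.mul (tcA i' j' k' hij' hik')⁻¹ (tcA i' j' k' hij' hik' * g)
      rw [inv_mul_cancel_left, l.inv] at e3
      calc l.toFun g ≤ (L + 4 * n ^ 3) + m * (L + 4 * n ^ 3) := by omega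
        _ = (m + 1) * (L + 4 * n ^ 3) := by ring
  exact h2 n g (Finset.card_le_univ _)

/-- the order of a permutation of `n` points is at most `2^n` -/
lemma orderOf_le_two_pow (g : Perm α) : orderOf g ≤ 2 ^ Fintype.card α := by
  have h1 : orderOf g ∣ g.cycleType.prod := by
    rw [← lcm_cycleType, Multiset.lcm_dvd]
    intro b hb
    exact Multiset.dvd_prod hb
  have h2 : ∀ s : Multiset ℕ, (∀ b ∈ s, 2 ≤ b) → 0 < s.prod ∧ s.prod ≤ 2 ^ s.sum := by
    intro s
    induction s using Multiset.induction_on with
    | empty => intro _; simp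
    | cons a s ih =>
      intro h
      have h3 := ih (fun b hb => h b (Multiset.mem_cons_of_mem hb))
      have h4 := h a (Multiset.mem_cons_self a s)
      rw [Multiset.prod_cons, Multiset.sum_cons, pow_add]
      have h5 : a < 2 ^ a := Nat.lt_two_pow_self
      exact ⟨Nat.mul_pos (by omega) h3.1, Nat.mul_le_mul h5.le h3.2⟩
  have h3 := h2 g.cycleType (fun b hb => two_le_of_mem_cycleType hb)
  calc orderOf g ≤ g.cycleType.prod := Nat.le_of_dvd h3.1 h1
    _ ≤ 2 ^ g.cycleType.sum := h3.2
    _ ≤ 2 ^ Fintype.card α := Nat.pow_le_pow_right (by norm_num) (sum_cycleType_le g)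

/-- A permutation in whose order many large primes occur has a power with small support. -/
lemma exists_pow_small_support (g : Perm α) {r : ℕ} (hr : 0 < r) (p : Fin r → ℕ)
    (hp : ∀ i, (p i).Prime) (hpp : ∀ i j, i ≠ j → Fintype.card α < p i * p j)
    (hne : ∀ i j, i ≠ j → p i ≠ p j)
    (hdvd : ∀ i, p i ∣ orderOf g) :
    ∃ m : ℕ, m ≤ 2 ^ Fintype.card α ∧ g ^ m ≠ 1 ∧ r * (g ^ m).support.card ≤ Fintype.card α := by
  classical
  let c : α → ℕ := fun x => Function.minimalPeriod g x
  have hcper : ∀ x m, (g ^ m) x = x ↔ c x ∣ m := by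
    intro x m
    rw [← Function.isPeriodicPt_iff_minimalPeriod_dvd, Function.IsPeriodicPt,
      Function.IsFixedPt, Equiv.Perm.iterate_eq_pow]
  have hcpos : ∀ x, 0 < c x := by
    intro x
    have h1 : c x ∣ orderOf g := by
      rw [← hcper, pow_orderOf_eq_one]; rfl
    exact Nat.pos_of_dvd_of_pos h1 (orderOf_pos g)
  have hcle : ∀ x, c x ≤ Fintype.card α := by
    intro x
    have h1 : Set.InjOn (fun m => (g ^ m) x) (Finset.range (c x) : Set ℕ) := by
      intro a ha b hb hab
      rw [Finset.mem_coe, Finset.mem_range] at ha hb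
      have key : ∀ a b, a ≤ b → b < c x → (g ^ a) x = (g ^ b) x → a = b := by
        intro a b hle hb hab
        have h2 : (g ^ (b - a)) x = x := by
          have h3 : g ^ b = g ^ a * g ^ (b - a) := by rw [← pow_add]; congr 1; omega
          rw [h3, Perm.mul_apply] at hab
          exact ((g ^ a).injective hab).symm
        rw [hcper] at h2
        have h4 := Nat.eq_zero_of_dvd_of_lt h2 (by omega)
        omega
      rcases le_total a b with h | h
      · exact key a b h hb hab
      · exact (key b a h ha hab.symm).symm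
    have h2 := Finset.card_le_card_of_injOn (fun m => (g ^ m) x) (t := univ)
      (fun _ _ => Finset.mem_coe.2 (Finset.mem_univ _)) h1
    rwa [Finset.card_range, Finset.card_univ] at h2
  let N := orderOf g
  have hN : 0 < N := orderOf_pos g
  -- supports
  have hsup : ∀ i, (g ^ (N / p i)).support ⊆ univ.filter (fun x => p i ∣ c x) := by
    intro i x hx
    rw [Finset.mem_filter]
    refine ⟨Finset.mem_univ _, ?_⟩
    by_contra hcon
    rw [mem_support] at hx
    apply hx
    rw [hcper]
    have h1 : c x ∣ N := by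
      rw [← hcper, pow_orderOf_eq_one]; rfl
    obtain ⟨q, hq⟩ := hdvd i
    have h2 : N / p i = q := by
      change orderOf g / p i = q
      rw [hq, Nat.mul_div_cancel_left _ (hp i).pos]
    rw [h2]
    have h3 : Nat.Coprime (c x) (p i) := ((hp i).coprime_iff_not_dvd.2 hcon).symm
    refine h3.dvd_of_dvd_mul_left ?_
    rw [← hq]
    exact h1
  have hdis : Set.PairwiseDisjoint (univ : Finset (Fin r)) (fun i => univ.filter (fun x => p i ∣ c x)) := by
    intro i _ j _ hij
    rw [Function.onFun, Finset.disjoint_left]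
    intro x hx hx'
    rw [Finset.mem_filter] at hx hx'
    have h1 : Nat.Coprime (p i) (p j) := (Nat.coprime_primes (hp i) (hp j)).2 (hne i j hij)
    have h2 := Nat.le_of_dvd (hcpos x) (h1.mul_dvd_of_dvd_of_dvd hx.2 hx'.2)
    have h3 := hpp i j hij
    have h4 := hcle x
    omega
  have hsum : ∑ i : Fin r, (g ^ (N / p i)).support.card ≤ Fintype.card α := by
    calc ∑ i : Fin r, (g ^ (N / p i)).support.card
        ≤ ∑ i : Fin r, (univ.filter (fun x => p i ∣ c x)).card :=
          Finset.sum_le_sum (fun i _ => Finset.card_le_card (hsup i))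
      _ = (univ.biUnion (fun i : Fin r => univ.filter (fun x => p i ∣ c x))).card :=
          (Finset.card_biUnion hdis).symm
      _ ≤ Fintype.card α := Finset.card_le_univ _
  obtain ⟨i, -, hi⟩ := Finset.exists_min_image (univ : Finset (Fin r))
    (fun i => (g ^ (N / p i)).support.card) ⟨⟨0, hr⟩, Finset.mem_univ _⟩
  refine ⟨N / p i, ?_, ?_, ?_⟩
  · exact (Nat.div_le_self _ _).trans (orderOf_le_two_pow g)
  · intro hcon
    have h1 := orderOf_dvd_of_pow_eq_one hcon
    have h2 : N / p i < N := Nat.div_lt_self hN (hp i).one_lt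
    have h3 : 0 < N / p i := Nat.div_pos (Nat.le_of_dvd hN (hdvd i)) (hp i).pos
    have h4 := Nat.le_of_dvd h3 h1
    exact absurd h2 (not_lt.2 h4)
  · calc r * (g ^ (N / p i)).support.card
        = ∑ j : Fin r, (g ^ (N / p i)).support.card := by
          rw [Finset.sum_const, Finset.card_univ, Fintype.card_fin, smul_eq_mul]
      _ ≤ ∑ j : Fin r, (g ^ (N / p j)).support.card :=
          Finset.sum_le_sum (fun j hj => hi j hj)
      _ ≤ _ := hsum

omit [DecidableEq α] [Fintype α] in
lemma dvd_of_finRotate_pow {q m : ℕ} (hq : 2 ≤ q) (h : finRotate q ^ m = 1) : q ∣ m := by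
  obtain ⟨k, rfl⟩ : ∃ k, q = k + 2 := ⟨q - 2, by omega⟩
  have h1 : orderOf (finRotate (k + 2)) = k + 2 := by
    rw [← lcm_cycleType, cycleType_finRotate]
    simp
  rw [← h1]
  exact orderOf_dvd_of_pow_eq_one h

/-- an even permutation of controlled length whose order is divisible by prescribed numbers -/
lemma exists_prescribed_order (l : LengthFn (alternatingGroup α))
    (hgen : Subgroup.closure {g : alternatingGroup α | l.toFun g ≤ 2} = ⊤)
    {r : ℕ} (p : Fin r → ℕ) (hp : ∀ i, 2 ≤ p i) (hsum : (∑ i, p i) + 2 ≤ Fintype.card α) :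
    ∃ g : alternatingGroup α, l.toFun g ≤ 2 * Fintype.card α ^ (∑ i, p i) ∧
      ∀ i, p i ∣ orderOf (g : Perm α) := by
  classical
  have hcard : Fintype.card (Σ i : Fin r, Fin (p i)) = ∑ i, p i := by
    rw [Fintype.card_sigma]
    simp
  obtain ⟨E⟩ : Nonempty ((Σ i : Fin r, Fin (p i)) ↪ α) :=
    Function.Embedding.nonempty_of_card_le (by rw [hcard]; omega)
  let ρ : Perm (Σ i : Fin r, Fin (p i)) := Equiv.sigmaCongrRight (fun i => finRotate (p i))
  let f : α → α := Function.extend E (fun y => E (ρ y)) id
  have hf : ∀ y, f (E y) = E (ρ y) := fun y => E.injective.extend_apply _ _ _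
  obtain ⟨g, hg, hl⟩ := exists_alt_map_short l hgen (s := univ.map E) f (by
    intro x hx y hy hxy
    rw [Finset.mem_coe, Finset.mem_map] at hx hy
    obtain ⟨a, -, rfl⟩ := hx
    obtain ⟨b, -, rfl⟩ := hy
    rw [hf, hf] at hxy
    rw [ρ.injective (E.injective hxy)]) (by rw [Finset.card_map, Finset.card_univ, hcard]; exact hsum)
  rw [Finset.card_map, Finset.card_univ, hcard] at hl
  refine ⟨g, hl, ?_⟩
  intro i
  have hgE : ∀ y, (g : Perm α) (E y) = E (ρ y) := by
    intro y
    rw [hg (E y) (Finset.mem_map_of_mem _ (Finset.mem_univ _)), hf]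
  have hpow : ∀ m : ℕ, ∀ y, ((g : Perm α) ^ m) (E y) = E ((ρ ^ m) y) := by
    intro m
    induction m with
    | zero => intro y; simp
    | succ m ih =>
      intro y
      rw [pow_succ', pow_succ', Perm.mul_apply, ih, hgE, Perm.mul_apply]
  have hρpow : ∀ m : ℕ, ∀ a : Fin (p i), (ρ ^ m) ⟨i, a⟩ = ⟨i, (finRotate (p i) ^ m) a⟩ := by
    intro m
    induction m with
    | zero => intro a; simp
    | succ m ih =>
      intro a
      rw [pow_succ', pow_succ', Perm.mul_apply, ih, Perm.mul_apply]
      simp [ρ]
  apply dvd_of_finRotate_pow (hp i)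
  ext a
  have h1 := hpow (orderOf (g : Perm α)) ⟨i, a⟩
  rw [pow_orderOf_eq_one, Perm.one_apply, hρpow] at h1
  have h2 := E.injective h1
  simp only [Sigma.mk.injEq, heq_eq_eq, true_and] at h2
  rw [← h2, Perm.one_apply]

/-- producing a short three-cycle from a short element of small support -/
lemma exists_short_tc (l : LengthFn (alternatingGroup α))
    (hgen : Subgroup.closure {g : alternatingGroup α | l.toFun g ≤ 2} = ⊤)
    (σ : alternatingGroup α) (hσ : (σ : Perm α) ≠ 1)
    (hs : 2 * (σ : Perm α).support.card + 2 ≤ Fintype.card α) :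
    ∃ i j k, ∃ (hij : i ≠ j) (hik : i ≠ k), j ≠ k ∧ l.toFun (tcA i j k hij hik) ≤
      4 * l.toFun σ + 8 * Fintype.card α ^ (σ : Perm α).support.card := by
  classical
  set D := (σ : Perm α).support with hD
  have hne : D.Nonempty := by
    rw [Finset.nonempty_iff_ne_empty]
    intro h
    exact hσ (support_eq_empty_iff.1 h)
  obtain ⟨b, hb⟩ := hne
  -- an injection of D into the complement
  obtain ⟨e⟩ : Nonempty (D ↪ (Dᶜ : Finset α)) := by
    apply Function.Embedding.nonempty_of_card_le
    rw [Fintype.card_coe, Fintype.card_coe, Finset.card_compl]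
    omega
  obtain ⟨h, hh, hl⟩ := exists_alt_map_short l hgen (s := D)
    (fun x => if x = b then b else if hx : x ∈ D then (e ⟨x, hx⟩ : α) else x) (by
      have hnot : ∀ x : D, (e x : α) ≠ b := by
        intro x hx
        have h1 := (e x).2
        rw [Finset.mem_compl] at h1
        exact h1 (hx ▸ hb)
      intro x hx y hy hxy
      rw [Finset.mem_coe] at hx hy
      simp only [dif_pos hx, dif_pos hy] at hxy
      split_ifs at hxy with h1 h2 h2
      · rw [h1, h2]
      · exact absurd hxy.symm (hnot _)
      · exact absurd hxy (hnot _)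
      · have := e.injective (Subtype.ext hxy)
        exact congrArg Subtype.val this) (by omega)
  have hhb : (h : Perm α) b = b := by rw [hh b hb]; simp
  have hhD : ∀ x ∈ D, x ≠ b → (h : Perm α) x ∉ D := by
    intro x hx hxb
    rw [hh x hx]
    simp only [hxb, if_false, dif_pos hx]
    exact Finset.mem_compl.1 (Subtype.coe_prop _)
  let τ : alternatingGroup α := h * σ * h⁻¹
  have hτ : ∀ x, (τ : Perm α) ((h : Perm α) x) = (h : Perm α) ((σ : Perm α) x) := by
    intro x
    simp [τ]
  have hσb : (σ : Perm α) b ≠ b := mem_support.1 hb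
  have hτb : (τ : Perm α) b ≠ b := by
    have h1 := hτ b
    rw [hhb] at h1
    rw [h1]
    intro h2
    rw [← hhb] at h2
    have h3 := (h : Perm α).injective h2
    rw [hhb] at h3
    exact hσb h3
  have hcomm := comm_eq_tc (g := (σ : Perm α)) (h := (τ : Perm α)) (b := b) hσb hτb (by
    intro x hx
    by_contra hcon
    push Not at hcon
    have h1 : x ∈ D := mem_support.2 hcon.1
    -- x = h y with y ∈ D
    obtain ⟨y, rfl⟩ := (h : Perm α).surjective x
    have h2 : y ∈ D := by
      rw [hD, mem_support]
      intro h3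
      apply hcon.2
      rw [hτ, h3]
    have h3 : y ≠ b := by
      rintro rfl
      exact hx hhb
    exact hhD y h2 h3 h1)
  have hbc : (σ : Perm α) b ≠ (τ : Perm α) b := by
    intro hcon
    have h1 : (σ : Perm α) b ∈ D := apply_mem_support.2 hb
    have h2 : (τ : Perm α) b = (h : Perm α) ((σ : Perm α) b) := by
      have := hτ b
      rwa [hhb] at this
    rw [hcon, h2] at h1
    exact hhD _ (apply_mem_support.2 hb) hσb h1
  refine ⟨b, (σ : Perm α) b, (τ : Perm α) b, hσb.symm, hτb.symm, hbc, ?_⟩
  have heq : tcA b ((σ : Perm α) b) ((τ : Perm α) b) hσb.symm hτb.symm = σ * τ * σ⁻¹ * τ⁻¹ := by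
    apply Subtype.ext
    simp only [tcA, Subgroup.coe_mul, Subgroup.coe_inv]
    exact hcomm.symm
  rw [heq]
  have e1 := l.mul (σ * τ * σ⁻¹) τ⁻¹
  have e2 := l.mul (σ * τ) σ⁻¹
  have e3 := l.mul σ τ
  have e4 := l.conj_le σ h
  rw [l.inv] at e1 e2
  have e5 : l.toFun τ ≤ l.toFun σ + 2 * l.toFun h := e4
  omega

end Pool.Helper24.MinHadwiger
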