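import Pool.Agent.Helper24.MinHadwiger.Core

/-!
# Reduction to connected graphs with one edge orbit
-/

namespace Pool.Helper24.MinHadwiger

open Equiv Equiv.Perm Finset

section Comp

variable {G V : Type*} [Group G] [MulAction G V]

/-- the translation as a graph homomorphism -/
def smulHom {Y : SimpleGraph V} (hY : Inv G Y) (g : G) : Y →g Y :=
  ⟨fun v => g • v, fun {a b} h => hY g a b h⟩

/-- the action on connected components -/
@[reducible] def compAction {Y : SimpleGraph V} (hY : Inv G Y) :
    MulAction G Y.ConnectedComponent where
  smul g c := c.map (smulHom hY g)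
  one_smul c := by
    induction c using SimpleGraph.ConnectedComponent.ind with
    | _ v =>
      change Y.connectedComponentMk ((1 : G) • v) = _
      rw [one_smul]
  mul_smul g h c := by
    induction c using SimpleGraph.ConnectedComponent.ind with
    | _ v =>
      change Y.connectedComponentMk ((g * h) • v) = Y.connectedComponentMk (g • h • v)
      rw [mul_smul]

lemma reachable_iff_joinedIn {Y : SimpleGraph V} {a b : V} :
    Y.Reachable a b ↔ JoinedIn Y Set.univ a b := by
  rw [SimpleGraph.reachable_iff_reflTransGen]
  constructor
  · intro h
    induction h with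
    | refl => exact JoinedIn.refl _
    | tail _ h2 ih => exact ih.trans (JoinedIn.of_adj h2 trivial trivial)
  · intro h
    induction h with
    | refl => exact Relation.ReflTransGen.refl
    | tail _ h2 ih => exact Relation.ReflTransGen.tail ih h2.1

/-- a path in `Y` stays in the component -/
lemma joinedIn_component {Y X : SimpleGraph V} (hYX : Y ≤ X) {a b : V}
    (h : Y.Reachable a b) :
    JoinedIn X {v | Y.connectedComponentMk v = Y.connectedComponentMk a} a b := by
  rw [reachable_iff_joinedIn] at h
  have key : Y.connectedComponentMk b = Y.connectedComponentMk a ∧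
      JoinedIn X {v | Y.connectedComponentMk v = Y.connectedComponentMk a} a b := by
    refine h.induct (P := fun w => Y.connectedComponentMk w = Y.connectedComponentMk a ∧
      JoinedIn X {v | Y.connectedComponentMk v = Y.connectedComponentMk a} a w) ?_
      ⟨rfl, JoinedIn.refl _⟩
    rintro u - w - huw ⟨h1, h2⟩
    have h3 : Y.connectedComponentMk w = Y.connectedComponentMk a := by
      rw [← h1]
      exact SimpleGraph.ConnectedComponent.sound huw.symm.reachable
    exact ⟨h3, h2.trans (JoinedIn.of_adj (hYX huw) h1 h3)⟩
  exact key.2

/-- A subset closed under `G`, as a `G`-set, carrying the component of `v₀`. -/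
def compSub {Y : SimpleGraph V} (hY : Inv G Y) (v₀ : V)
    (h : ∀ g : G, Y.connectedComponentMk (g • v₀) = Y.connectedComponentMk v₀) :
    SubMulAction G V where
  carrier := {v | Y.connectedComponentMk v = Y.connectedComponentMk v₀}
  smul_mem' g v hv := by
    simp only [Set.mem_ofPred_eq] at hv ⊢
    rw [← h g]
    have h1 : Y.Reachable v v₀ := SimpleGraph.ConnectedComponent.exact hv
    exact SimpleGraph.ConnectedComponent.sound (h1.map (smulHom hY g))

end Comp

variable {α : Type*} [DecidableEq α] [Fintype α]

/-- **Connected graphs without fixed vertex.** -/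
theorem hasCliqueMinor_of_connected (hn : 2 ^ 101 ≤ Fintype.card α) (m : ℕ) (hm4 : 4 ≤ m)
    (hm : m + 66 ≤ Fintype.card α) :
    ∀ (N : ℕ) (V : Type) [Finite V] [MulAction (alternatingGroup α) V] (X : SimpleGraph V),
      Nat.card V ≤ N → Inv (alternatingGroup α) X → X.Connected →
      (∀ v : V, ∃ g : alternatingGroup α, g • v ≠ v) → HasCliqueMinor X m := by
  classical
  intro N
  induction N with
  | zero =>
    intro V _ _ X hcard _ hc _
    have : 0 < Nat.card V := by
      have := hc.nonempty
      exact Nat.card_pos
    omega
  | succ N ih =>
    intro V _ _ X hcard hX hc hnofix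
    -- an edge
    have hedge : ∃ x y, X.Adj x y := by
      obtain ⟨v⟩ := hc.nonempty
      obtain ⟨g, hg⟩ := hnofix v
      by_contra hcon
      push Not at hcon
      have h1 : ∀ w, w = v := fun w => connected_induct hc (P := fun w => w = v) (x := v) rfl
        (fun a b hab _ => absurd hab (hcon a b)) w
      exact hg (h1 _)
    obtain ⟨x, y, hxy⟩ := hedge
    -- the orbit of the edge
    let Y : SimpleGraph V :=
      { Adj := fun a b => ∃ g : alternatingGroup α,
          (a = g • x ∧ b = g • y) ∨ (a = g • y ∧ b = g • x)
        symm := by
          constructor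
          rintro a b ⟨g, hg⟩
          exact ⟨g, hg.symm.imp And.symm And.symm⟩
        loopless := by
          constructor
          rintro a ⟨g, ⟨h1, h2⟩ | ⟨h1, h2⟩⟩
          · have h3 := (MulAction.injective g) (h1.symm.trans h2)
            exact hxy.ne h3
          · have h3 := (MulAction.injective g) (h1.symm.trans h2)
            exact hxy.ne h3.symm }
    have hYX : Y ≤ X := by
      rintro a b ⟨g, ⟨rfl, rfl⟩ | ⟨rfl, rfl⟩⟩
      · exact hX g _ _ hxy
      · exact hX g _ _ hxy.symm
    have hY : Inv (alternatingGroup α) Y := by
      rintro g a b ⟨h, ⟨rfl, rfl⟩ | ⟨rfl, rfl⟩⟩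
      · exact ⟨g * h, Or.inl ⟨(mul_smul _ _ _).symm, (mul_smul _ _ _).symm⟩⟩
      · exact ⟨g * h, Or.inr ⟨(mul_smul _ _ _).symm, (mul_smul _ _ _).symm⟩⟩
    have hYxy : Y.Adj x y := ⟨1, Or.inl ⟨(one_smul _ _).symm, (one_smul _ _).symm⟩⟩
    let _ : MulAction (alternatingGroup α) Y.ConnectedComponent := compAction hY
    have hsmul : ∀ (g : alternatingGroup α) (v : V),
        g • Y.connectedComponentMk v = Y.connectedComponentMk (g • v) := fun _ _ => rfl
    by_cases hfix : ∃ c : Y.ConnectedComponent, ∀ g : alternatingGroup α, g • c = c
    · -- an invariant component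
      obtain ⟨c, hc'⟩ := hfix
      induction c using SimpleGraph.ConnectedComponent.ind with
      | _ v =>
        have hcx : ∀ g : alternatingGroup α,
            Y.connectedComponentMk (g • x) = Y.connectedComponentMk x := by
          -- v has a Y-neighbour
          obtain ⟨g, hg⟩ := hnofix v
          have h1 : Y.Reachable (g • v) v := SimpleGraph.ConnectedComponent.exact (hc' g)
          have h2 : ∃ w, Y.Adj w v := by
            rw [reachable_iff_joinedIn] at h1
            rcases Relation.ReflTransGen.cases_tail h1 with h3 | ⟨w, -, h3⟩
            · exact absurd h3.symm hg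
            · exact ⟨w, h3.1⟩
          obtain ⟨w, h, hh⟩ := h2
          -- h • x in the component of v
          have h3 : Y.connectedComponentMk (h • x) = Y.connectedComponentMk v := by
            rcases hh with ⟨rfl, rfl⟩ | ⟨rfl, rfl⟩
            · exact SimpleGraph.ConnectedComponent.sound (hY h _ _ hYxy).reachable
            · rfl
          have h4 : Y.connectedComponentMk x = Y.connectedComponentMk v := by
            have h5 := hc' h⁻¹
            rw [← h3, hsmul, inv_smul_smul] at h5
            rw [h5, h3]
          intro g
          rw [← hsmul, h4, hc']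
        let D := compSub hY x hcx
        have hxD : x ∈ D := rfl
        have hyD : y ∈ D := SimpleGraph.ConnectedComponent.sound hYxy.symm.reachable
        have hone : OneEdge (alternatingGroup α) (Y.induce (D : Set V))
            (⟨x, hxD⟩ : D) (⟨y, hyD⟩ : D) := by
          refine ⟨?_, ?_, hYxy, ?_, ?_⟩
          · intro g a b hab
            exact hY g _ _ hab
          · rw [connected_iff_joinedIn]
            refine ⟨⟨x, hxD⟩, ?_⟩
            have key : ∀ a ∈ (D : Set V), JoinedIn Y (D : Set V) x a := by
              intro a ha
              have h1 : Y.Reachable x a := (SimpleGraph.ConnectedComponent.exact ha).symm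
              exact joinedIn_component (le_refl Y) h1
            intro a ha b hb
            exact (key a ha).symm.trans (key b hb)
          · rintro ⟨a, ha⟩ ⟨b, hb⟩ ⟨g, hg⟩
            refine ⟨g, ?_⟩
            rcases hg with ⟨h1, h2⟩ | ⟨h1, h2⟩
            · exact Or.inl ⟨Subtype.ext h1, Subtype.ext h2⟩
            · exact Or.inr ⟨Subtype.ext h1, Subtype.ext h2⟩
          · rintro ⟨v, hv⟩
            obtain ⟨g, hg⟩ := hnofix v
            exact ⟨g, fun h => hg (congrArg Subtype.val h)⟩
        have h1 := hone.hasCliqueMinor hn m hm4 hm
        let f : Y.induce (D : Set V) →g X :=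
          ⟨fun v => v.val, fun {a b} hab => hYX (by exact hab)⟩
        exact h1.of_hom f (fun a b h => Subtype.ext h)
    · -- contract
      push Not at hfix
      let X' : SimpleGraph Y.ConnectedComponent :=
        { Adj := fun c c' => c ≠ c' ∧ ∃ a b, Y.connectedComponentMk a = c ∧
            Y.connectedComponentMk b = c' ∧ X.Adj a b
          symm := by
            constructor
            rintro c c' ⟨hne, a, b, ha, hb, hab⟩
            exact ⟨hne.symm, b, a, hb, ha, hab.symm⟩
          loopless := by
            constructor
            rintro c ⟨hne, _⟩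
            exact hne rfl }
      have hX' : Inv (alternatingGroup α) X' := by
        rintro g c c' ⟨hne, a, b, rfl, rfl, hab⟩
        refine ⟨fun h => hne (MulAction.injective g h), g • a, g • b, rfl, rfl, hX g _ _ hab⟩
      have hc' : X'.Connected := by
        have hne : Nonempty Y.ConnectedComponent := ⟨Y.connectedComponentMk x⟩
        have key : ∀ v, X'.Reachable (Y.connectedComponentMk x) (Y.connectedComponentMk v) := by
          intro v
          refine connected_induct hc
            (P := fun v => X'.Reachable (Y.connectedComponentMk x) (Y.connectedComponentMk v))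
            (x := x) (SimpleGraph.Reachable.refl _) ?_ v
          intro a b hab ha
          by_cases h : Y.connectedComponentMk a = Y.connectedComponentMk b
          · rw [← h]; exact ha
          · have h1 : X'.Adj (Y.connectedComponentMk a) (Y.connectedComponentMk b) :=
              ⟨h, a, b, rfl, rfl, hab⟩
            exact ha.trans h1.reachable
        refine SimpleGraph.Connected.mk ?_
        intro c c'
        induction c using SimpleGraph.ConnectedComponent.ind with
        | _ v =>
          induction c' using SimpleGraph.ConnectedComponent.ind with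
          | _ w => exact (key v).symm.trans (key w)
      have hcard' : Nat.card Y.ConnectedComponent ≤ N := by
        have hfin : Finite Y.ConnectedComponent :=
          Finite.of_surjective Y.connectedComponentMk (fun c => by
            induction c using SimpleGraph.ConnectedComponent.ind with
            | _ v => exact ⟨v, rfl⟩)
        have hfv := Fintype.ofFinite V
        have hfc := Fintype.ofFinite Y.ConnectedComponent
        have hlt : Fintype.card Y.ConnectedComponent < Fintype.card V := by
          refine Fintype.card_lt_of_surjective_not_injective Y.connectedComponentMk ?_ ?_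
          · intro c
            induction c using SimpleGraph.ConnectedComponent.ind with
            | _ v => exact ⟨v, rfl⟩
          · intro hinj
            exact hxy.ne (hinj (SimpleGraph.ConnectedComponent.sound hYxy.reachable))
        rw [Nat.card_eq_fintype_card] at hcard ⊢
        omega
      have hfin : Finite Y.ConnectedComponent :=
          Finite.of_surjective Y.connectedComponentMk (fun c => by
            induction c using SimpleGraph.ConnectedComponent.ind with
            | _ v => exact ⟨v, rfl⟩)
      have hmin := ih Y.ConnectedComponent X' hcard' hX' hc' hfix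
      refine hmin.of_map Set.univ Y.connectedComponentMk ?_ ?_ ?_
      · intro c
        induction c using SimpleGraph.ConnectedComponent.ind with
        | _ v => exact ⟨v, trivial, rfl⟩
      · intro a _ b _ hab
        have h1 : Y.Reachable a b := SimpleGraph.ConnectedComponent.exact hab
        refine (joinedIn_component hYX h1).mono ?_
        intro v hv
        exact ⟨trivial, hv⟩
      · rintro c c' ⟨-, a, b, ha, hb, hab⟩
        exact ⟨a, trivial, b, trivial, ha, hb, hab⟩

/-- homomorphisms from the alternating group to `±1` are trivial -/
lemma alt_hom_trivial (φ : alternatingGroup α →* ℤˣ) (g : alternatingGroup α) : φ g = 1 := by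
  have h1 : g ∈ Subgroup.closure {g : alternatingGroup α | IsThreeCycle (g : Perm α)} := by
    rw [alternatingGroup.closure_isThreeCycles_eq_top]; trivial
  induction h1 using Subgroup.closure_induction with
  | mem t ht =>
    have h3 : orderOf (t : Perm α) = 3 := IsThreeCycle.orderOf ht
    have h4 : t ^ 3 = 1 := by
      apply Subtype.ext
      have := pow_orderOf_eq_one (t : Perm α)
      rw [h3] at this
      simpa using this
    have h5 : φ t ^ 3 = 1 := by rw [← map_pow, h4, map_one]
    have h6 : φ t ^ 2 = 1 := Int.units_sq _
    rw [pow_succ, h6, one_mul] at h5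
    exact h5
  | one => exact map_one φ
  | mul a b _ _ ha hb => rw [map_mul, ha, hb, one_mul]
  | inv a _ ha => rw [map_inv, ha, inv_one]

/-- **Lower bound.** A finite graph whose automorphism group is the alternating group of
degree `n ≥ 2^101` has a clique minor of order `m` whenever `m + 66 ≤ n`. -/
theorem hasCliqueMinor_of_aut {N : ℕ} (X : SimpleGraph (Fin N))
    (e : (X ≃g X) ≃* alternatingGroup α) (hn : 2 ^ 101 ≤ Fintype.card α) (m : ℕ) (hm4 : 4 ≤ m)
    (hm : m + 66 ≤ Fintype.card α) : HasCliqueMinor X m := by
  classical
  let V := Fin N
  let _ : MulAction (alternatingGroup α) V :=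
    { smul := fun g v => (e.symm g) v
      one_smul := fun v => by
        change (e.symm 1) v = v
        rw [map_one]; rfl
      mul_smul := fun g h v => by
        change (e.symm (g * h)) v = (e.symm g) ((e.symm h) v)
        rw [map_mul]; rfl }
  have hdef : ∀ (g : alternatingGroup α) (v : V), g • v = (e.symm g) v := fun _ _ => rfl
  have hX : Inv (alternatingGroup α) X := by
    intro g a b hab
    exact (e.symm g).map_rel_iff.2 hab
  let F : Set V := {v | ∀ g : alternatingGroup α, g • v = v}
  have hFsmul : ∀ (g : alternatingGroup α) (v : V), v ∉ F → g • v ∉ F := by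
    intro g v hv h
    apply hv
    intro h'
    have h1 := h (g * h' * g⁻¹)
    simp only [mul_smul, inv_smul_smul] at h1
    exact MulAction.injective g h1
  -- edges outside F
  let Y : SimpleGraph V :=
    { Adj := fun a b => X.Adj a b ∧ a ∉ F ∧ b ∉ F
      symm := by
        constructor
        rintro a b ⟨h1, h2, h3⟩
        exact ⟨h1.symm, h3, h2⟩
      loopless := by
        constructor
        rintro a ⟨h1, _⟩
        exact h1.ne rfl }
  have hYX : Y ≤ X := fun a b h => h.1
  have hY : Inv (alternatingGroup α) Y := fun g a b h =>
    ⟨hX g _ _ h.1, hFsmul g _ h.2.1, hFsmul g _ h.2.2⟩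
  let _ : MulAction (alternatingGroup α) Y.ConnectedComponent := compAction hY
  have hsmul : ∀ (g : alternatingGroup α) (v : V),
      g • Y.connectedComponentMk v = Y.connectedComponentMk (g • v) := fun _ _ => rfl
  -- vertices of F are isolated in Y
  have hFiso : ∀ a ∈ F, ∀ b, Y.connectedComponentMk a = Y.connectedComponentMk b → a = b := by
    intro a ha b hab
    have h1 : Y.Reachable b a := (SimpleGraph.ConnectedComponent.exact hab).symm
    rw [reachable_iff_joinedIn] at h1
    rcases Relation.ReflTransGen.cases_tail h1 with h3 | ⟨w, -, h3⟩
    · exact h3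
    · exact absurd ha h3.1.2.2
  -- a vertex outside F
  have hv₀ : ∃ v₀ : V, v₀ ∉ F := by
    by_contra hcon
    push Not at hcon
    have h1 : ∀ f : X ≃g X, f = 1 := by
      intro f
      ext v
      have h2 := hcon v (e f)
      rw [hdef, MulEquiv.symm_apply_apply] at h2
      rw [h2]; rfl
    have h2 : Nontrivial (alternatingGroup α) :=
      alternatingGroup.nontrivial_of_three_le_card (by
        rw [Nat.card_eq_fintype_card]; omega)
    obtain ⟨g, hg⟩ := exists_ne (1 : alternatingGroup α)
    apply hg
    have h3 := h1 (e.symm g)
    rw [← e.apply_symm_apply g, h3, map_one]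
  obtain ⟨v₀, hv₀⟩ := hv₀
  have hfinC : Finite Y.ConnectedComponent :=
    Finite.of_surjective Y.connectedComponentMk (fun c => by
      induction c using SimpleGraph.ConnectedComponent.ind with
      | _ v => exact ⟨v, rfl⟩)
  -- the component of v₀ is invariant
  have hinv : ∀ g : alternatingGroup α,
      Y.connectedComponentMk (g • v₀) = Y.connectedComponentMk v₀ := by
    intro g
    by_contra hne
    set c := Y.connectedComponentMk v₀ with hcdef
    rw [← hsmul, ← hcdef] at hne
    let σf : V → V := fun v => if Y.connectedComponentMk v = c then g • v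
      else if Y.connectedComponentMk v = g • c then g⁻¹ • v else v
    have hσ1 : ∀ v, Y.connectedComponentMk v = c → σf v = g • v := by
      intro v hv
      simp only [σf, if_pos hv]
    have hσ2 : ∀ v, Y.connectedComponentMk v = g • c → σf v = g⁻¹ • v := by
      intro v hv
      have h1 : Y.connectedComponentMk v ≠ c := by rw [hv]; exact hne
      simp only [σf, if_neg h1, if_pos hv]
    have hσ3 : ∀ v, Y.connectedComponentMk v ≠ c → Y.connectedComponentMk v ≠ g • c →
        σf v = v := by
      intro v h1 h2
      simp only [σf, if_neg h1, if_neg h2]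
    have hinvol : Function.Involutive σf := by
      intro v
      by_cases h1 : Y.connectedComponentMk v = c
      · rw [hσ1 v h1, hσ2 _ (by rw [← hsmul, h1]), inv_smul_smul]
      · by_cases h2 : Y.connectedComponentMk v = g • c
        · rw [hσ2 v h2, hσ1 _ (by rw [← hsmul, h2, inv_smul_smul]), smul_inv_smul]
        · rw [hσ3 v h1 h2, hσ3 v h1 h2]
    have hstep : ∀ a b, X.Adj a b → ∃ h : alternatingGroup α, σf a = h • a ∧ σf b = h • b := by
      have hform : ∀ v, ∃ h : alternatingGroup α, σf v = h • v := by
        intro v
        by_cases h1 : Y.connectedComponentMk v = c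
        · exact ⟨g, hσ1 v h1⟩
        · by_cases h2 : Y.connectedComponentMk v = g • c
          · exact ⟨g⁻¹, hσ2 v h2⟩
          · exact ⟨1, by rw [hσ3 v h1 h2, one_smul]⟩
      have hF : ∀ a ∈ F, ∀ h : alternatingGroup α, σf a = h • a := by
        intro a ha h
        rw [ha h]
        apply hσ3
        · intro h1
          exact hv₀ ((hFiso a ha v₀ h1) ▸ ha)
        · intro h1
          have h2 := hFiso a ha (g • v₀) h1
          exact hFsmul g v₀ hv₀ (h2 ▸ ha)
      intro a b hab
      by_cases ha : a ∈ F
      · obtain ⟨h, hh⟩ := hform b
        exact ⟨h, hF a ha h, hh⟩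
      by_cases hb : b ∈ F
      · obtain ⟨h, hh⟩ := hform a
        exact ⟨h, hh, hF b hb h⟩
      have hYab : Y.Adj a b := ⟨hab, ha, hb⟩
      have hcomp : Y.connectedComponentMk b = Y.connectedComponentMk a :=
        SimpleGraph.ConnectedComponent.sound hYab.symm.reachable
      by_cases h1 : Y.connectedComponentMk a = c
      · exact ⟨g, hσ1 a h1, hσ1 b (hcomp.trans h1)⟩
      · by_cases h2 : Y.connectedComponentMk a = g • c
        · exact ⟨g⁻¹, hσ2 a h2, hσ2 b (hcomp.trans h2)⟩
        · refine ⟨1, by rw [hσ3 a h1 h2, one_smul], ?_⟩
          rw [hσ3 b (by rw [hcomp]; exact h1) (by rw [hcomp]; exact h2), one_smul]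
    have hadj : ∀ a b, X.Adj a b → X.Adj (σf a) (σf b) := by
      intro a b hab
      obtain ⟨h, h1, h2⟩ := hstep a b hab
      rw [h1, h2]
      exact hX h _ _ hab
    let σ : X ≃g X :=
      { toEquiv := hinvol.toPerm
        map_rel_iff' := by
          intro a b
          change X.Adj (σf a) (σf b) ↔ X.Adj a b
          constructor
          · intro h
            have := hadj _ _ h
            rwa [hinvol, hinvol] at this
          · exact hadj a b }
    have hσapp : ∀ v, (e σ) • v = σf v := by
      intro v
      rw [hdef, MulEquiv.symm_apply_apply]
      rfl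
    have hfc := Fintype.ofFinite Y.ConnectedComponent
    let φ : alternatingGroup α →* ℤˣ :=
      (Equiv.Perm.sign (α := Y.ConnectedComponent)).comp
        (MulAction.toPermHom (alternatingGroup α) Y.ConnectedComponent)
    have hφ : φ (e σ) = -1 := by
      have h1 : MulAction.toPermHom (alternatingGroup α) Y.ConnectedComponent (e σ) =
          Equiv.swap c (g • c) := by
        refine Equiv.ext (fun d => ?_)
        induction d using SimpleGraph.ConnectedComponent.ind with
        | _ v =>
          change (e σ) • Y.connectedComponentMk v = _
          rw [hsmul, hσapp]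
          by_cases h1 : Y.connectedComponentMk v = c
          · rw [hσ1 v h1, ← hsmul, h1, Equiv.swap_apply_left]
          · by_cases h2 : Y.connectedComponentMk v = g • c
            · rw [hσ2 v h2, ← hsmul, h2, inv_smul_smul, Equiv.swap_apply_right]
            · rw [hσ3 v h1 h2, Equiv.swap_apply_of_ne_of_ne h1 h2]
      change Equiv.Perm.sign (MulAction.toPermHom (alternatingGroup α) Y.ConnectedComponent (e σ))
        = -1
      rw [h1, Equiv.Perm.sign_swap (Ne.symm hne)]
    rw [alt_hom_trivial] at hφ
    exact absurd hφ (by decide)
  -- restrict to the component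
  let D := compSub hY v₀ hinv
  have hvD : v₀ ∈ D := rfl
  have h1 : HasCliqueMinor (X.induce (D : Set V)) m := by
    refine hasCliqueMinor_of_connected hn m hm4 hm (Nat.card D) D (X.induce (D : Set V)) le_rfl
      ?_ ?_ ?_
    · intro g a b hab
      exact hX g _ _ hab
    · rw [connected_iff_joinedIn]
      refine ⟨⟨v₀, hvD⟩, ?_⟩
      have key : ∀ a ∈ (D : Set V), JoinedIn X (D : Set V) v₀ a := by
        intro a ha
        have h1 : Y.Reachable v₀ a := (SimpleGraph.ConnectedComponent.exact ha).symm
        exact joinedIn_component hYX h1
      intro a ha b hb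
      exact (key a ha).symm.trans (key b hb)
    · rintro ⟨v, hv⟩
      have hvF : v ∉ F := by
        intro hvF
        have h2 := hFiso v hvF v₀ hv
        exact hv₀ (h2 ▸ hvF)
      simp only [F, Set.mem_ofPred_eq] at hvF
      push Not at hvF
      obtain ⟨g, hg⟩ := hvF
      exact ⟨g, fun h => hg (congrArg Subtype.val h)⟩
  let f : X.induce (D : Set V) →g X := ⟨fun v => v.val, fun {a b} hab => by exact hab⟩
  exact h1.of_hom f (fun a b h => Subtype.ext h)

end Pool.Helper24.MinHadwiger
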