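import Pool.Agent.Helper24.MinHadwiger.Upper
import Pool.Agent.Helper24.MinHadwiger.Reduce

/-!
# `n - 66 ≤ m(A_n) ≤ n + 2`
-/

namespace Pool.Helper24.MinHadwiger

open Asymptotics Filter

lemma four_le_card_alternating {n : ℕ} (hn : 4 ≤ n) :
    4 ≤ Nat.card (alternatingGroup (Fin n)) := by
  have h1 : Nontrivial (Fin n) := Fin.nontrivial_iff_two_le.2 (by omega)
  have h2 := two_mul_nat_card_alternatingGroup (α := Fin n)
  rw [Nat.card_perm, Nat.card_eq_fintype_card (α := Fin n), Fintype.card_fin] at h2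
  have h3 : Nat.factorial 4 ≤ Nat.factorial n := Nat.factorial_le hn
  have h4 : Nat.factorial 4 = 24 := rfl
  omega

lemma minHadwiger_alternating_le {n : ℕ} (hn : 4 ≤ n) :
    minHadwiger (alternatingGroup (Fin n)) ≤ n + 2 := by
  have := (minHadwiger_le_card_add_two (alternatingGroup (Fin n)) (Fin n)
    (four_le_card_alternating hn)).2
  simpa using this

lemma le_minHadwiger_alternating {n : ℕ} (hn : 2 ^ 101 ≤ n) :
    n ≤ minHadwiger (alternatingGroup (Fin n)) + 66 := by
  have h101 : (1000 : ℕ) ≤ 2 ^ 101 := by norm_num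
  have hne : {k : ℕ | ∃ (N : ℕ) (X : SimpleGraph (Fin N)),
      Nonempty ((X ≃g X) ≃* alternatingGroup (Fin n)) ∧ hadwigerNumber X = k}.Nonempty := by
    obtain ⟨N, X, hX⟩ := (minHadwiger_le_card_add_two (alternatingGroup (Fin n)) (Fin n)
      (four_le_card_alternating (by omega))).1
    exact ⟨_, N, X, hX, rfl⟩
  obtain ⟨N, X, ⟨e⟩, hX⟩ := Nat.sInf_mem hne
  have h1 := hasCliqueMinor_of_aut X e (by rw [Fintype.card_fin]; exact hn) (n - 66) (by omega)
    (by rw [Fintype.card_fin]; omega)
  have h2 := le_hadwigerNumber h1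
  have h3 : minHadwiger (alternatingGroup (Fin n)) = hadwigerNumber X := hX.symm
  omega

lemma isTheta_minHadwiger :
    (fun n : ℕ => (minHadwiger (alternatingGroup (Fin n)) : ℝ)) =Θ[atTop]
      (fun n : ℕ => (n : ℝ)) := by
  constructor
  · refine IsBigO.of_bound 2 ?_
    filter_upwards [eventually_ge_atTop 4] with n hn
    have h1 := minHadwiger_alternating_le hn
    rw [Real.norm_natCast, Real.norm_natCast]
    have h2 : minHadwiger (alternatingGroup (Fin n)) ≤ 2 * n := by omega
    exact_mod_cast h2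
  · refine IsBigO.of_bound 2 ?_
    filter_upwards [eventually_ge_atTop (2 ^ 101)] with n hn
    have h1 := le_minHadwiger_alternating hn
    have h101 : (1000 : ℕ) ≤ 2 ^ 101 := by norm_num
    rw [Real.norm_natCast, Real.norm_natCast]
    have h2 : n ≤ 2 * minHadwiger (alternatingGroup (Fin n)) := by omega
    exact_mod_cast h2

lemma isLittleO_log_minHadwiger :
    (fun n : ℕ => Real.log (minHadwiger (alternatingGroup (Fin n)))) =o[atTop]
      (fun n : ℕ => (n : ℝ) * Real.log n) := by
  rw [isLittleO_iff]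
  intro c hc
  have hev : ∀ᶠ n : ℕ in atTop, 2 / c ≤ (n : ℝ) := by
    exact tendsto_natCast_atTop_atTop.eventually_ge_atTop (2 / c)
  filter_upwards [hev, eventually_ge_atTop 4] with n hn hn4
  have hn4' : (4 : ℝ) ≤ n := by exact_mod_cast hn4
  have hlogn : 0 ≤ Real.log n := Real.log_nonneg (by linarith)
  rw [Real.norm_eq_abs, Real.norm_eq_abs, abs_of_nonneg (by positivity : (0 : ℝ) ≤ n * Real.log n)]
  rw [abs_of_nonneg (Real.log_natCast_nonneg _)]
  have h2 : Real.log (minHadwiger (alternatingGroup (Fin n))) ≤ 2 * Real.log n := by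
    rcases Nat.eq_zero_or_pos (minHadwiger (alternatingGroup (Fin n))) with h0 | h0
    · rw [h0]
      simp only [Nat.cast_zero, Real.log_zero]
      positivity
    · have h3 : ((minHadwiger (alternatingGroup (Fin n)) : ℕ) : ℝ) ≤ (n : ℝ) ^ 2 := by
        have h4 := minHadwiger_alternating_le hn4
        have h5 : minHadwiger (alternatingGroup (Fin n)) ≤ n ^ 2 := by nlinarith
        exact_mod_cast h5
      have h6 := Real.log_le_log (by exact_mod_cast h0) h3
      rw [Real.log_pow] at h6
      exact_mod_cast h6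
  have h7 : 2 ≤ c * n := by
    rw [div_le_iff₀ hc] at hn
    linarith
  calc Real.log (minHadwiger (alternatingGroup (Fin n))) ≤ 2 * Real.log n := h2
    _ ≤ (c * n) * Real.log n := by gcongr
    _ = c * (n * Real.log n) := by ring

end Pool.Helper24.MinHadwiger
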