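import Pool.Agent.Helper24.MinHadwiger.ThreeCycles

/-!
# Lower bounds for orbit lengths of the alternating group
-/

namespace Pool.Helper24.MinHadwiger

open Equiv Equiv.Perm Finset

variable {α : Type*} [DecidableEq α] [Fintype α]

/-- extending an injective partial map to an even permutation -/
lemma exists_alt_map {s : Finset α} (f : α → α) (hf : Set.InjOn f s)
    (hs : s.card + 2 ≤ Fintype.card α) :
    ∃ g : alternatingGroup α, ∀ i ∈ s, (g : Perm α) i = f i := by
  have h1 := alternatingGroup.isMultiplyPretransitive α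
  have h2 : MulAction.IsMultiplyPretransitive (alternatingGroup α) α s.card := by
    refine MulAction.isMultiplyPretransitive_of_le (n := Nat.card α - 2) ?_ (Nat.sub_le _ _)
    rw [Nat.card_eq_fintype_card]
    omega
  let e : Fin s.card ≃ s := s.equivFin.symm
  let x : Fin s.card ↪ α := e.toEmbedding.trans (Function.Embedding.subtype _)
  let y : Fin s.card ↪ α := ⟨fun i => f (e i), by
    intro i j hij
    have := hf (e i).2 (e j).2 hij
    exact e.injective (Subtype.ext this)⟩
  obtain ⟨g, hg⟩ := h2.exists_smul_eq x y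
  refine ⟨g, ?_⟩
  intro i hi
  have h3 := DFunLike.congr_fun hg (e.symm ⟨i, hi⟩)
  have h4 : (g • x) (e.symm ⟨i, hi⟩) = (g : Perm α) i := by
    rw [Function.Embedding.smul_apply]
    simp only [x, Function.Embedding.trans_apply, Equiv.coe_toEmbedding,
      Equiv.apply_symm_apply, Function.Embedding.subtype_apply]
    rfl
  rw [h4] at h3
  rw [h3]
  simp [y]

section Stab

variable {V : Type*} [MulAction (alternatingGroup α) V]

/-- the stabiliser of `x`, as a subgroup of the symmetric group -/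
def stab (x : V) : Subgroup (Perm α) :=
  (MulAction.stabilizer (alternatingGroup α) x).map (alternatingGroup α).subtype

lemma mem_stab {x : V} {σ : Perm α} :
    σ ∈ stab x ↔ ∃ h : σ ∈ alternatingGroup α, (⟨σ, h⟩ : alternatingGroup α) • x = x := by
  unfold stab
  rw [Subgroup.mem_map]
  constructor
  · rintro ⟨g, hg, rfl⟩
    exact ⟨g.2, MulAction.mem_stabilizer_iff.1 hg⟩
  · rintro ⟨h, hx⟩
    exact ⟨⟨σ, h⟩, MulAction.mem_stabilizer_iff.2 hx, rfl⟩

lemma coe_mem_stab {x : V} {g : alternatingGroup α} : (g : Perm α) ∈ stab x ↔ g • x = x := by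
  rw [mem_stab]
  exact ⟨fun ⟨_, h⟩ => h, fun h => ⟨g.2, h⟩⟩

lemma mem_stab_smul {x : V} {g : alternatingGroup α} {σ : Perm α} :
    (g : Perm α) * σ * (g : Perm α)⁻¹ ∈ stab (g • x) ↔ σ ∈ stab x := by
  have key : ∀ (y : V) (h : alternatingGroup α) (τ : Perm α), τ ∈ stab y →
      (h : Perm α) * τ * (h : Perm α)⁻¹ ∈ stab (h • y) := by
    intro y h τ hτ
    obtain ⟨h1, h2⟩ := mem_stab.1 hτ
    have h3 : (h : Perm α) * τ * (h : Perm α)⁻¹ =
        ((h * ⟨τ, h1⟩ * h⁻¹ : alternatingGroup α) : Perm α) := by simp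
    rw [h3, coe_mem_stab, ← mul_smul, inv_mul_cancel_right, mul_smul, h2]
  constructor
  · intro h
    have h1 := key (g • x) g⁻¹ _ h
    rw [inv_smul_smul] at h1
    have h2 : ((g⁻¹ : alternatingGroup α) : Perm α) * ((g : Perm α) * σ * (g : Perm α)⁻¹) *
        (((g⁻¹ : alternatingGroup α)) : Perm α)⁻¹ = σ := by
      simp only [Subgroup.coe_inv]
      group
    rwa [h2] at h1
  · exact key x g σ

end Stab

/-- `H` meets `Sym Γ` trivially -/
def TrivOn (H : Subgroup (Perm α)) (Γ : Finset α) : Prop :=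
  ∀ h ∈ H, h.support ⊆ Γ → h = 1

/-- an orbit is at least as long as the order of an alternating group meeting the stabiliser
trivially -/
lemma TrivOn.le_orbit {V : Type*} [MulAction (alternatingGroup α) V] {x : V}
    {Γ : Finset α} (h : TrivOn (stab (α := α) x) Γ) (h2 : 2 ≤ Γ.card) :
    Γ.card.factorial / 2 ≤ Nat.card (MulAction.orbit (alternatingGroup α) x) := by
  have hnt : Nontrivial Γ := by
    rw [← Fintype.one_lt_card_iff_nontrivial, Fintype.card_coe]
    omega
  have h1 := nat_card_alternatingGroup (α := Γ)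
  rw [Nat.card_eq_fintype_card (α := Γ), Fintype.card_coe] at h1
  rw [← h1]
  have hfin : Finite (MulAction.orbit (alternatingGroup α) x) :=
    Set.finite_range _ |>.to_subtype
  refine Nat.card_le_card_of_injective
    (fun σ : alternatingGroup Γ => (⟨alternatingGroup.ofSubtype Γ σ • x,
      MulAction.mem_orbit _ _⟩ : MulAction.orbit (alternatingGroup α) x)) ?_
  intro σ τ hστ
  simp only [Subtype.mk.injEq] at hστ
  have h3 : (alternatingGroup.ofSubtype Γ (τ⁻¹ * σ)) • x = x := by
    rw [map_mul, mul_smul, hστ, map_inv, inv_smul_smul]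
  have h4 : ((alternatingGroup.ofSubtype Γ (τ⁻¹ * σ) : alternatingGroup α) : Perm α) = 1 := by
    refine h _ (coe_mem_stab.2 h3) ?_
    rw [← alternatingGroup.mem_range_ofSubtype_iff]
    exact ⟨_, rfl⟩
  have h5 : alternatingGroup.ofSubtype Γ (τ⁻¹ * σ) = 1 := Subtype.ext h4
  have h6 : τ⁻¹ * σ = 1 := by
    apply alternatingGroup.ofSubtype_injective
    rw [h5, map_one]
  exact (inv_mul_eq_one.1 h6).symm

/-- a largest set on which `H` is trivial -/
lemma exists_max_trivOn (H : Subgroup (Perm α)) :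
    ∃ Γ : Finset α, TrivOn H Γ ∧ ∀ Γ', TrivOn H Γ' → Γ'.card ≤ Γ.card := by
  classical
  obtain ⟨Γ, hΓ, hmax⟩ := Finset.exists_max_image
    ((univ : Finset (Finset α)).filter (fun Γ => TrivOn H Γ)) (fun Γ => Γ.card) ⟨∅, by
      rw [Finset.mem_filter]
      refine ⟨Finset.mem_univ _, ?_⟩
      intro h _ hs
      rw [Finset.subset_empty, support_eq_empty_iff] at hs
      exact hs⟩
  rw [Finset.mem_filter] at hΓ
  exact ⟨Γ, hΓ.2, fun Γ' h => hmax Γ' (Finset.mem_filter.2 ⟨Finset.mem_univ _, h⟩)⟩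

/-- Bochert's argument -/
lemma bochert (H : Subgroup (Perm α)) (Γ : Finset α)
    (hΓ : TrivOn H Γ) (hmax : ∀ Γ', TrivOn H Γ' → Γ'.card ≤ Γ.card) :
    ∃ Δ₀ : Finset α, Δ₀.card ≤ Γ.card ∧ ∀ b, b ∉ Γ → b ∉ Δ₀ →
      ∃ γ ∈ Γ, ∃ k, b ≠ γ ∧ b ≠ k ∧ γ ≠ k ∧ tc b γ k ∈ H := by
  classical
  refine ⟨univ.filter (fun b => b ∉ Γ ∧ ∀ h ∈ H, h.support ⊆ Γᶜ → h b = b), ?_, ?_⟩
  · apply hmax
    intro h hH hs
    ext x
    rw [Perm.one_apply]
    by_contra hx
    have h1 := hs (mem_support.2 hx)
    rw [Finset.mem_filter] at h1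
    refine hx (h1.2.2 h hH ?_)
    intro y hy
    have h2 := hs hy
    rw [Finset.mem_filter] at h2
    exact Finset.mem_compl.2 h2.2.1
  · intro b hbΓ hb
    rw [Finset.mem_filter] at hb
    push Not at hb
    obtain ⟨h, hH, hs, hhb⟩ := hb (Finset.mem_univ _) hbΓ
    -- an element of H in Sym(Γ ∪ {b}) moving b
    have h1 : ¬ TrivOn H (insert b Γ) := by
      intro hcon
      have := hmax _ hcon
      rw [Finset.card_insert_of_notMem hbΓ] at this
      omega
    unfold TrivOn at h1
    push Not at h1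
    obtain ⟨g, hgH, hgs, hg1⟩ := h1
    have hgb : g b ≠ b := by
      intro hcon
      apply hg1
      apply hΓ g hgH
      intro y hy
      have := hgs hy
      rw [Finset.mem_insert] at this
      rcases this with rfl | h2
      · exact absurd hcon (mem_support.1 hy)
      · exact h2
    have hcomm := comm_eq_tc hgb hhb (by
      intro x hx
      by_contra hcon
      push Not at hcon
      have e1 := hgs (mem_support.2 hcon.1)
      have e2 := hs (mem_support.2 hcon.2)
      rw [Finset.mem_insert] at e1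
      rw [Finset.mem_compl] at e2
      rcases e1 with e1 | e1
      · exact hx e1
      · exact e2 e1)
    have hgbΓ : g b ∈ Γ := by
      have e1 := hgs (apply_mem_support.2 (mem_support.2 hgb))
      rw [Finset.mem_insert] at e1
      exact e1.resolve_left hgb
    refine ⟨g b, hgbΓ, h b, hgb.symm, hhb.symm, ?_, ?_⟩
    · intro hcon
      have e2 := hs (apply_mem_support.2 (mem_support.2 hhb))
      rw [Finset.mem_compl, ← hcon] at e2
      exact e2 hgbΓ
    · rw [← hcomm]
      exact H.mul_mem (H.mul_mem (H.mul_mem hgH hH) (H.inv_mem hgH)) (H.inv_mem hH)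

/-- **No three-cycles in the stabiliser**: the orbit has length at least `⌈n/2⌉!/2`. -/
lemma orbit_ge_of_no_tc {V : Type*} [MulAction (alternatingGroup α) V] (x : V)
    (hn : 3 ≤ Fintype.card α)
    (h : ∀ i j k : α, i ≠ j → i ≠ k → j ≠ k → tc i j k ∉ stab (α := α) x) :
    ((Fintype.card α + 1) / 2).factorial / 2 ≤
      Nat.card (MulAction.orbit (alternatingGroup α) x) := by
  obtain ⟨Γ, hΓ, hmax⟩ := exists_max_trivOn (stab (α := α) x)
  obtain ⟨Δ₀, hΔ, hkey⟩ := bochert _ Γ hΓ hmax
  have h1 : (univ : Finset α) ⊆ Γ ∪ Δ₀ := by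
    intro b _
    by_contra hb
    rw [Finset.mem_union] at hb
    push Not at hb
    obtain ⟨γ, _, k, h1, h2, h3, h4⟩ := hkey b hb.1 hb.2
    exact h b γ k h1 h2 h3 h4
  have h2 := (Finset.card_le_card h1).trans (Finset.card_union_le _ _)
  rw [Finset.card_univ] at h2
  have h3 : (Fintype.card α + 1) / 2 ≤ Γ.card := by omega
  have h4 := hΓ.le_orbit (by omega)
  exact (Nat.div_le_div_right (Nat.factorial_le h3)).trans h4

/-- a maximal good set -/
def MaxGood (H : Subgroup (Perm α)) (B : Finset α) : Prop :=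
  Good H B ∧ 3 ≤ B.card ∧ ∀ B', Good H B' → 3 ≤ B'.card → (B ∩ B').Nonempty → B' ⊆ B

lemma exists_maxGood {H : Subgroup (Perm α)} {B₀ : Finset α} (h : Good H B₀)
    (h3 : 3 ≤ B₀.card) : ∃ B, MaxGood H B ∧ B₀ ⊆ B := by
  classical
  obtain ⟨B, hB, hmax⟩ := Finset.exists_max_image
    ((univ : Finset (Finset α)).filter (fun B => Good H B ∧ B₀ ⊆ B)) (fun B => B.card)
    ⟨B₀, Finset.mem_filter.2 ⟨Finset.mem_univ _, h, Finset.Subset.refl _⟩⟩
  rw [Finset.mem_filter] at hB
  obtain ⟨-, hB1, hB2⟩ := hB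
  have hB3 : 3 ≤ B.card := h3.trans (Finset.card_le_card hB2)
  refine ⟨B, ⟨hB1, hB3, ?_⟩, hB2⟩
  rintro B' hB' h3' ⟨p, hp⟩
  rw [Finset.mem_inter] at hp
  have h4 := hB1.union hB' hB3 h3' hp.1 hp.2
  have h5 := hmax (B ∪ B') (Finset.mem_filter.2 ⟨Finset.mem_univ _, h4,
    hB2.trans Finset.subset_union_left⟩)
  have h6 : B = B ∪ B' := Finset.eq_of_subset_of_card_le Finset.subset_union_left h5
  rw [h6]
  exact Finset.subset_union_right

omit [Fintype α] in
lemma MaxGood.eq {H : Subgroup (Perm α)} {B B' : Finset α} (hB : MaxGood H B)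
    (hB' : MaxGood H B') {p : α} (hp : p ∈ B) (hp' : p ∈ B') : B = B' := by
  apply Finset.Subset.antisymm
  · exact hB'.2.2 B hB.1 hB.2.1 ⟨p, Finset.mem_inter.2 ⟨hp', hp⟩⟩
  · exact hB.2.2 B' hB'.1 hB'.2.1 ⟨p, Finset.mem_inter.2 ⟨hp, hp'⟩⟩

section Translate

variable {V : Type*} [MulAction (alternatingGroup α) V]

lemma good_smul {x : V} {B : Finset α} (g : alternatingGroup α) :
    Good (stab (α := α) (g • x)) (B.image (g : Perm α)) ↔ Good (stab (α := α) x) B := by
  constructor
  · intro h i hi j hj k hk hij hik hjk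
    have := h _ (Finset.mem_image_of_mem _ hi) _ (Finset.mem_image_of_mem _ hj) _
      (Finset.mem_image_of_mem _ hk) (fun e => hij ((g : Perm α).injective e))
      (fun e => hik ((g : Perm α).injective e)) (fun e => hjk ((g : Perm α).injective e))
    rw [← tc_conj, mem_stab_smul] at this
    exact this
  · intro h i hi j hj k hk hij hik hjk
    rw [Finset.mem_image] at hi hj hk
    obtain ⟨i, hi, rfl⟩ := hi
    obtain ⟨j, hj, rfl⟩ := hj
    obtain ⟨k, hk, rfl⟩ := hk
    rw [← tc_conj, mem_stab_smul]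
    exact h i hi j hj k hk (fun e => hij (by rw [e])) (fun e => hik (by rw [e]))
      (fun e => hjk (by rw [e]))

lemma maxGood_smul {x : V} {B : Finset α} (g : alternatingGroup α)
    (h : MaxGood (stab (α := α) x) B) :
    MaxGood (stab (α := α) (g • x)) (B.image (g : Perm α)) := by
  obtain ⟨h1, h2, h3⟩ := h
  refine ⟨(good_smul g).2 h1, ?_, ?_⟩
  · rwa [Finset.card_image_of_injective _ (g : Perm α).injective]
  · rintro B' hB' h3' ⟨p, hp⟩
    rw [Finset.mem_inter, Finset.mem_image] at hp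
    obtain ⟨⟨q, hq, rfl⟩, hp⟩ := hp
    have e1 : (B'.image ((g⁻¹ : alternatingGroup α) : Perm α)).image (g : Perm α) = B' := by
      rw [Finset.image_image]
      have : ((g : Perm α) : α → α) ∘ (((g⁻¹ : alternatingGroup α) : Perm α) : α → α) = id := by
        ext y
        simp
      rw [this, Finset.image_id]
    have e2 : Good (stab (α := α) x) (B'.image ((g⁻¹ : alternatingGroup α) : Perm α)) := by
      rw [← good_smul g, e1]
      exact hB'
    have e3 := h3 _ e2 (by rwa [Finset.card_image_of_injective _ (Equiv.injective _)])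
      ⟨q, Finset.mem_inter.2 ⟨hq, Finset.mem_image.2 ⟨_, hp, by simp⟩⟩⟩
    rw [← e1]
    exact Finset.image_subset_image e3

/-- counting the translates of a maximal good set -/
lemma MaxGood.choose_le {x : V} {B : Finset α} (h : MaxGood (stab (α := α) x) B)
    (hB : B.card + 2 ≤ Fintype.card α) :
    (Fintype.card α).choose B.card ≤
      Nat.card (MulAction.orbit (alternatingGroup α) x) * Fintype.card α := by
  classical
  -- translating elements
  have h1 : ∀ T : Finset α, T.card = B.card → ∃ g : alternatingGroup α,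
      B.image (g : Perm α) = T := by
    intro T hT
    obtain ⟨e⟩ : Nonempty (B ≃ T) := Fintype.card_eq.1 (by simp [hT])
    obtain ⟨g, hg⟩ := exists_alt_map (s := B)
      (fun i => if hi : i ∈ B then (e ⟨i, hi⟩ : α) else i) (by
        intro i hi j hj hij
        rw [Finset.mem_coe] at hi hj
        simp only [dif_pos hi, dif_pos hj] at hij
        have := e.injective (Subtype.ext hij)
        exact congrArg Subtype.val this) hB
    refine ⟨g, ?_⟩
    apply Finset.eq_of_subset_of_card_le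
    · intro y hy
      rw [Finset.mem_image] at hy
      obtain ⟨i, hi, rfl⟩ := hy
      rw [hg i hi]
      simp only [dif_pos hi]
      exact Subtype.coe_prop _
    · rw [Finset.card_image_of_injective _ (g : Perm α).injective, hT]
  let P := {T : Finset α // T.card = B.card}
  choose g hg using fun T : P => h1 T.1 T.2
  have h2 : ∀ T : P, T.1.Nonempty := by
    intro T
    rw [← Finset.card_pos, T.2]
    have := h.2.1
    omega
  choose t ht using h2
  have hfin : Finite (MulAction.orbit (alternatingGroup α) x) :=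
    Set.finite_range _ |>.to_subtype
  have hinj : Function.Injective (fun T : P =>
      ((⟨g T • x, MulAction.mem_orbit _ _⟩ : MulAction.orbit (alternatingGroup α) x), t T)) := by
    intro T T' hTT'
    simp only [Prod.mk.injEq, Subtype.mk.injEq] at hTT'
    have e1 := maxGood_smul (g T) h
    have e2 := maxGood_smul (g T') h
    rw [hg] at e1 e2
    rw [← hTT'.1] at e2
    have e3 := e1.eq e2 (ht T) (by rw [hTT'.2]; exact ht T')
    exact Subtype.ext e3
  have h3 := Nat.card_le_card_of_injective _ hinj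
  rw [Nat.card_prod, Nat.card_eq_fintype_card (α := α)] at h3
  have h4 : Nat.card P = (Fintype.card α).choose B.card := by
    rw [Nat.card_eq_fintype_card]
    rw [Fintype.card_subtype]
    have : (univ.filter (fun T : Finset α => T.card = B.card)) = powersetCard B.card univ := by
      ext T
      simp [Finset.mem_powersetCard]
    rw [this, Finset.card_powersetCard, Finset.card_univ]
  rwa [h4] at h3

/-- The largest good set: if `Γ` is a largest set with trivial intersection, then either `Γ` is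
everything up to the `2|Γ|` points, or there is a large maximal good set. -/
lemma exists_maxGood_large (H : Subgroup (Perm α)) (Γ : Finset α)
    (hΓ : TrivOn H Γ) (hmax : ∀ Γ', TrivOn H Γ' → Γ'.card ≤ Γ.card)
    (hc : 2 * Γ.card < Fintype.card α) :
    ∃ B, MaxGood H B ∧ Fintype.card α ≤ (B.card + 2) * Γ.card := by
  classical
  obtain ⟨Δ₀, hΔ, hkey⟩ := bochert _ Γ hΓ hmax
  let F : α → Finset α := fun γ => if h : ∃ B, MaxGood H B ∧ γ ∈ B then h.choose else ∅
  have hF : ∀ γ B, MaxGood H B → γ ∈ B → F γ = B := by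
    intro γ B hB hγ
    have h : ∃ B, MaxGood H B ∧ γ ∈ B := ⟨B, hB, hγ⟩
    simp only [F, dif_pos h]
    exact h.choose_spec.1.eq hB h.choose_spec.2 hγ
  have h1 : (univ : Finset α) \ (Γ ∪ Δ₀) ⊆ Γ.biUnion F := by
    intro b hb
    rw [Finset.mem_sdiff, Finset.mem_union] at hb
    push Not at hb
    obtain ⟨γ, hγ, k, h1, h2, h3, h4⟩ := hkey b hb.2.1 hb.2.2
    have h5 := good_triple h1 h2 h3 h4
    have h6 : ({b, γ, k} : Finset α).card = 3 := Finset.card_eq_three.2 ⟨b, γ, k, h1, h2, h3, rfl⟩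
    obtain ⟨B, hB, hsub⟩ := exists_maxGood h5 (by rw [h6])
    rw [Finset.mem_biUnion]
    refine ⟨γ, hγ, ?_⟩
    rw [hF γ B hB (hsub (by simp))]
    exact hsub (by simp)
  have h2 : (univ \ (Γ ∪ Δ₀)).card + 2 * Γ.card ≥ Fintype.card α := by
    have h3 := Finset.card_sdiff_add_card (univ : Finset α) (Γ ∪ Δ₀)
    have h4 := Finset.card_union_le Γ Δ₀
    have h5 := Finset.card_le_card (Finset.subset_union_left (s₁ := (univ : Finset α))
      (s₂ := Γ ∪ Δ₀))
    rw [Finset.card_univ] at h5
    omega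
  have hne : (univ \ (Γ ∪ Δ₀)).Nonempty := by
    rw [← Finset.card_pos]; omega
  obtain ⟨b, hb⟩ := hne
  have hb' := h1 hb
  rw [Finset.mem_biUnion] at hb'
  obtain ⟨γ₀, hγ₀, hbγ₀⟩ := hb'
  obtain ⟨γ, hγ, hγmax⟩ := Finset.exists_max_image Γ (fun γ => (F γ).card) ⟨γ₀, hγ₀⟩
  have h3 : (univ \ (Γ ∪ Δ₀)).card ≤ Γ.card * (F γ).card := by
    refine (Finset.card_le_card h1).trans (Finset.card_biUnion_le.trans ?_)
    refine (Finset.sum_le_sum (fun i hi => hγmax i hi)).trans ?_
    rw [Finset.sum_const, smul_eq_mul]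
  have h4 : 0 < (F γ).card := by
    have : 0 < (F γ₀).card := Finset.card_pos.2 ⟨b, hbγ₀⟩
    exact this.trans_le (hγmax γ₀ hγ₀)
  have h5 : ∃ B, MaxGood H B ∧ γ ∈ B := by
    by_contra hcon
    simp only [F, dif_neg hcon] at h4
    simp at h4
  obtain ⟨B, hB, hγB⟩ := h5
  refine ⟨B, hB, ?_⟩
  rw [hF γ B hB hγB] at h3
  nlinarith

omit [DecidableEq α] [Fintype α] in
lemma num_factorial (n c : ℕ) (hn : 2 ^ 100 ≤ n) (hc : n ≤ 4 * c ^ 2) :
    n ^ 14 ≤ c.factorial / 2 := by
  have h1 : 2 ^ 49 ≤ c := by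
    by_contra h
    push Not at h
    have : c ^ 2 < (2 ^ 49) ^ 2 := Nat.pow_lt_pow_left h (by norm_num)
    have h2 : 4 * (2 ^ 49) ^ 2 = (2 : ℕ) ^ 100 := by norm_num
    omega
  have h2 : c ^ 56 ≤ 2 ^ 56 * c.factorial := by
    have e1 := Nat.pow_sub_le_descFactorial c 56
    have e2 : c.descFactorial 56 ≤ c.factorial := by
      rw [← Nat.factorial_mul_descFactorial (show 56 ≤ c by omega)]
      exact Nat.le_mul_of_pos_left _ (Nat.factorial_pos _)
    have e3 : c ≤ 2 * (c + 1 - 56) := by omega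
    calc c ^ 56 ≤ (2 * (c + 1 - 56)) ^ 56 := Nat.pow_le_pow_left e3 _
      _ = 2 ^ 56 * (c + 1 - 56) ^ 56 := by rw [mul_pow]
      _ ≤ 2 ^ 56 * c.factorial := Nat.mul_le_mul_left _ (e1.trans e2)
  have h3 : 2 ^ 56 * (2 * n ^ 14) ≤ 2 ^ 56 * c.factorial := by
    calc 2 ^ 56 * (2 * n ^ 14) ≤ 2 ^ 56 * (2 * (4 * c ^ 2) ^ 14) := by gcongr
      _ = 2 ^ 85 * c ^ 28 := by ring
      _ ≤ (2 ^ 49) ^ 28 * c ^ 28 := by
          apply Nat.mul_le_mul_right
          norm_num
      _ ≤ c ^ 28 * c ^ 28 := by gcongr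
      _ = c ^ 56 := by ring
      _ ≤ 2 ^ 56 * c.factorial := h2
  have h4 : 2 * n ^ 14 ≤ c.factorial := Nat.le_of_mul_le_mul_left h3 (by positivity)
  omega

omit [DecidableEq α] [Fintype α] in
lemma num_choose (n k : ℕ) (hn : 2 ^ 100 ≤ n) (hk : 16 ≤ k) (hk' : k + 16 ≤ n) :
    n ^ 15 ≤ n.choose k := by
  have key : ∀ m, n ≤ 2 * m → n ^ 15 ≤ m.choose 16 := by
    intro m hm
    have e1 := Nat.pow_sub_le_descFactorial m 16
    rw [Nat.descFactorial_eq_factorial_mul_choose] at e1
    have e2 : n ≤ 4 * (m + 1 - 16) := by omega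
    have e3 : n ^ 16 ≤ 2 ^ 32 * (Nat.factorial 16 * m.choose 16) := by
      calc n ^ 16 ≤ (4 * (m + 1 - 16)) ^ 16 := Nat.pow_le_pow_left e2 _
        _ = 2 ^ 32 * (m + 1 - 16) ^ 16 := by rw [mul_pow]; norm_num
        _ ≤ 2 ^ 32 * (Nat.factorial 16 * m.choose 16) := Nat.mul_le_mul_left _ e1
    have e4 : 2 ^ 100 * n ^ 15 ≤ 2 ^ 100 * m.choose 16 := by
      calc 2 ^ 100 * n ^ 15 ≤ n * n ^ 15 := Nat.mul_le_mul_right _ hn
        _ = n ^ 16 := by ring
        _ ≤ 2 ^ 32 * (Nat.factorial 16 * m.choose 16) := e3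
        _ = (2 ^ 32 * Nat.factorial 16) * m.choose 16 := by ring
        _ ≤ 2 ^ 100 * m.choose 16 := by
            apply Nat.mul_le_mul_right
            decide
    exact Nat.le_of_mul_le_mul_left e4 (by positivity)
  -- Vandermonde
  obtain ⟨l, rfl⟩ : ∃ l, n = k + l := ⟨n - k, by omega⟩
  have h1 : k.choose 16 * l.choose 16 ≤ (k + l).choose k := by
    rw [Nat.add_choose_eq]
    have hmem : (k - 16, 16) ∈ Finset.HasAntidiagonal.antidiagonal k := by
      rw [Finset.HasAntidiagonal.mem_antidiagonal]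
      simp only
      omega
    have h2 := Finset.single_le_sum (f := fun ij : ℕ × ℕ => k.choose ij.1 * l.choose ij.2)
      (fun _ _ => Nat.zero_le _) hmem
    simp only at h2
    rwa [Nat.choose_symm hk] at h2
  have hl : 16 ≤ l := by omega
  rcases Nat.lt_or_ge k l with h | h
  · have h2 := key l (by omega)
    have h3 : 0 < k.choose 16 := Nat.choose_pos hk
    calc (k + l) ^ 15 ≤ l.choose 16 := h2
      _ ≤ k.choose 16 * l.choose 16 := Nat.le_mul_of_pos_left _ h3
      _ ≤ _ := h1
  · have h2 := key k (by omega)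
    have h3 : 0 < l.choose 16 := Nat.choose_pos hl
    calc (k + l) ^ 15 ≤ k.choose 16 := h2
      _ ≤ k.choose 16 * l.choose 16 := Nat.le_mul_of_pos_right _ h3
      _ ≤ _ := h1

/-- **Index bound.** Either the orbit of `x` under the alternating group of degree `n` has length
at least `n^14`, or `x` is fixed by all even permutations fixing a certain set of at most
16 points. -/
theorem orbit_large_or_small_support (x : V) (hn : 2 ^ 100 ≤ Fintype.card α) :
    Fintype.card α ^ 14 ≤ Nat.card (MulAction.orbit (alternatingGroup α) x) ∨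
    ∃ s : Finset α, s.card ≤ 16 ∧
      ∀ g : alternatingGroup α, (∀ i ∈ s, (g : Perm α) i = i) → g • x = x := by
  obtain ⟨Γ, hΓ, hmax⟩ := exists_max_trivOn (stab (α := α) x)
  set n := Fintype.card α with hndef
  rcases Nat.lt_or_ge (4 * Γ.card ^ 2) n with hc | hc
  swap
  · left
    have h2 : 2 ≤ Γ.card := by
      by_contra h
      push Not at h
      have : Γ.card ^ 2 < 2 ^ 2 := Nat.pow_lt_pow_left h (by norm_num)
      omega
    exact (num_factorial n Γ.card hn hc).trans (hΓ.le_orbit h2)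
  have hc1 : 18 * Γ.card ≤ n := by
    by_contra h
    push Not at h
    nlinarith
  obtain ⟨B, hB, hBcard⟩ := exists_maxGood_large _ Γ hΓ hmax (by omega)
  have hcpos : 0 < Γ.card := by
    rcases Nat.eq_zero_or_pos Γ.card with h | h
    · rw [h] at hBcard
      omega
    · exact h
  have hk : 16 ≤ B.card := by
    have h1 : 18 * Γ.card ≤ (B.card + 2) * Γ.card := hc1.trans hBcard
    have := Nat.le_of_mul_le_mul_right h1 hcpos
    omega
  rcases Nat.lt_or_ge n (B.card + 17) with hs | hs
  · right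
    refine ⟨Bᶜ, ?_, ?_⟩
    · rw [Finset.card_compl]; omega
    · intro g hg
      rw [← coe_mem_stab]
      refine hB.1.mem _ (mem_alternatingGroup.1 g.2) ?_
      intro y hy
      by_contra hyB
      exact mem_support.1 hy (hg y (Finset.mem_compl.2 hyB))
  · left
    have h1 := hB.choose_le (by omega)
    have h2 := num_choose n B.card hn hk (by omega)
    have h3 : n ^ 14 * n ≤ Nat.card (MulAction.orbit (alternatingGroup α) x) * n := by
      calc n ^ 14 * n = n ^ 15 := by ring
        _ ≤ _ := h2.trans h1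
    exact Nat.le_of_mul_le_mul_right h3 (by omega)

end Translate

end Pool.Helper24.MinHadwiger
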