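import Pool.Agent.Helper24.MinHadwiger.RandomPaths
import Pool.Agent.Helper24.MinHadwiger.Diam

/-!
# The case in which all orbits are long
-/

namespace Pool.Helper24.MinHadwiger

open Equiv Equiv.Perm Finset

section Graph

variable {G V : Type*} [Group G] [MulAction G V]

/-- `G` acts on `X` by automorphisms -/
def Inv (G : Type*) {V : Type*} [Group G] [MulAction G V] (X : SimpleGraph V) : Prop :=
  ∀ (g : G) (a b : V), X.Adj a b → X.Adj (g • a) (g • b)

lemma Inv.adj_iff {X : SimpleGraph V} (hX : Inv G X) (g : G) (a b : V) :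
    X.Adj (g • a) (g • b) ↔ X.Adj a b := by
  constructor
  · intro h
    have := hX g⁻¹ _ _ h
    simpa using this
  · exact hX g a b

lemma Inv.dist_smul {X : SimpleGraph V} (hX : Inv G X) (hc : X.Connected) (g : G) (a b : V) :
    X.dist (g • a) (g • b) = X.dist a b := by
  have key : ∀ (g : G) (a b : V), X.dist (g • a) (g • b) ≤ X.dist a b := by
    intro g a b
    obtain ⟨p, hp⟩ := hc.exists_walk_length_eq_dist a b
    let φ : X →g X := ⟨fun v => g • v, fun {a b} h => hX g a b h⟩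
    have h1 := SimpleGraph.dist_le (p.map φ)
    rw [SimpleGraph.Walk.length_map, hp] at h1
    exact h1
  apply le_antisymm (key g a b)
  have := key g⁻¹ (g • a) (g • b)
  simpa using this

/-- the length function `g ↦ dist u (g u)` -/
noncomputable def distLength {X : SimpleGraph V} (hX : Inv G X) (hc : X.Connected) (u : V) :
    LengthFn G where
  toFun g := X.dist u (g • u)
  one := by simp
  mul g h := by
    have h1 := hc.dist_triangle (u := u) (v := g • u) (w := (g * h) • u)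
    rw [mul_smul, hX.dist_smul hc] at h1
    rw [mul_smul]
    exact h1
  inv g := by
    have h1 := hX.dist_smul hc g u (g⁻¹ • u)
    rw [smul_inv_smul, SimpleGraph.dist_comm] at h1
    exact h1.symm

/-- the random path theorem in terms of distances -/
lemma hasCliqueMinor_of_dist [Finite G] [Finite V] {X : SimpleGraph V} (hX : Inv G X)
    (hc : X.Connected) (u : V) (d M k : ℕ) (hd : ∀ g : G, X.dist u (g • u) ≤ d)
    (hM : ∀ v : V, M ≤ Nat.card (MulAction.orbit G v))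
    (hk : 2 * k ^ 4 * (d + 1) ^ 2 < M) : HasCliqueMinor X k := by
  classical
  choose p hp using fun g : G => hc.exists_walk_length_eq_dist u (g • u)
  refine hasCliqueMinor_of_paths X hX u (d + 1) M k (fun g => (p g).support.toFinset)
    ?_ ?_ ?_ ?_ (fun v _ => hM v) hk
  · intro g
    refine (List.toFinset_card_le _).trans ?_
    rw [SimpleGraph.Walk.length_support, hp]
    exact Nat.add_le_add_right (hd g) 1
  · intro g; simp
  · intro g; simp
  · intro g v hv
    have h1 := (p g).connected_induce_support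
    rw [connected_iff_joinedIn] at h1
    rw [List.mem_toFinset] at hv
    refine (h1.2 u (by simp) v hv).mono ?_
    intro w hw
    rw [Finset.mem_coe, List.mem_toFinset]
    exact hw

end Graph

/-- eight large primes -/
lemma exists_primes (q : ℕ) (hq : 0 < q) : ∃ p : Fin 8 → ℕ, (∀ i, (p i).Prime) ∧ (∀ i, q < p i) ∧
    (∀ i j, i ≠ j → p i ≠ p j) ∧ ∑ i, p i ≤ 512 * q := by
  have h : ∀ i : Fin 8, ∃ p, p.Prime ∧ 2 ^ (i : ℕ) * q < p ∧ p ≤ 2 * (2 ^ (i : ℕ) * q) :=
    fun i => Nat.exists_prime_lt_and_le_two_mul _ (by positivity)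
  choose p hp h1 h2 using h
  refine ⟨p, hp, ?_, ?_, ?_⟩
  · intro i
    refine lt_of_le_of_lt ?_ (h1 i)
    exact Nat.le_mul_of_pos_left _ (by positivity)
  · have key : ∀ i j : Fin 8, i < j → p i < p j := by
      intro i j hij
      refine lt_of_le_of_lt ((h2 i).trans ?_) (h1 j)
      have h3 : 2 ^ ((i : ℕ) + 1) ≤ 2 ^ (j : ℕ) := Nat.pow_le_pow_right (by norm_num) hij
      calc 2 * (2 ^ (i : ℕ) * q) = 2 ^ ((i : ℕ) + 1) * q := by ring
        _ ≤ 2 ^ (j : ℕ) * q := Nat.mul_le_mul_right _ h3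
    intro i j hij
    rcases lt_or_gt_of_ne hij with h | h
    · exact (key i j h).ne
    · exact (key j i h).ne'
  · refine (Finset.sum_le_sum (fun i _ => h2 i)).trans ?_
    rw [← Finset.mul_sum, ← Finset.sum_mul]
    have : ∑ i : Fin 8, 2 ^ (i : ℕ) = 255 := by decide
    rw [this]
    omega

/-- numerical comparison in the large case -/
lemma num_big (n s t l : ℕ) (hn : 2 ^ 100 ≤ n) (ht : t ≤ 512 * (Nat.sqrt n + 1)) (hs : 8 * s ≤ n)
    (hl : l ≤ 2 ^ n * (2 * n ^ t)) :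
    2 * n ^ 4 * (n * ((4 * l + 8 * n ^ s) + 4 * n ^ 3) + 1) ^ 2 <
      ((n + 1) / 2).factorial / 2 := by
  obtain ⟨e, he⟩ : ∃ e, e = n / 64 := ⟨_, rfl⟩
  have he1 : 2 ^ 94 ≤ e := by
    rw [he]
    have : (2 : ℕ) ^ 94 = 2 ^ 100 / 64 := by norm_num
    rw [this]
    exact Nat.div_le_div_right hn
  have he2 : n ≤ 64 * e + 63 := by omega
  have he3 : 64 * e ≤ n := by omega
  have hn0 : 0 < n := by omega
  have hn1 : 1 ≤ n := hn0
  -- t ≤ e
  have hr1 : Nat.sqrt n * Nat.sqrt n ≤ n := Nat.sqrt_le n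
  have hr2 : 2 ^ 50 ≤ Nat.sqrt n := by
    rw [Nat.le_sqrt]
    calc 2 ^ 50 * 2 ^ 50 = 2 ^ 100 := by norm_num
      _ ≤ n := hn
  have hte : t ≤ e := by
    have h1 : 2 ^ 50 * Nat.sqrt n ≤ n := (Nat.mul_le_mul_right _ hr2).trans hr1
    have h2 : (2 : ℕ) ^ 50 = 1125899906842624 := by norm_num
    rw [h2] at h1 hr2
    omega
  -- powers
  have h2n : 2 ^ n ≤ n ^ e := by
    calc 2 ^ n ≤ 2 ^ (100 * e) := Nat.pow_le_pow_right (by norm_num) (by omega)
      _ = (2 ^ 100) ^ e := by rw [pow_mul]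
      _ ≤ n ^ e := Nat.pow_le_pow_left hn _
  have hl2 : l ≤ 2 * n ^ (2 * e) := by
    calc l ≤ 2 ^ n * (2 * n ^ t) := hl
      _ ≤ n ^ e * (2 * n ^ e) := by gcongr
      _ = 2 * n ^ (2 * e) := by ring
  have hs2 : n ^ s ≤ n ^ (8 * e + 8) := Nat.pow_le_pow_right hn0 (by omega)
  have h3 : n ^ (2 * e) ≤ n ^ (8 * e + 8) := Nat.pow_le_pow_right hn0 (by omega)
  have h4 : n ^ 3 ≤ n ^ (8 * e + 8) := Nat.pow_le_pow_right hn0 (by omega)
  have h5 : n * ((4 * l + 8 * n ^ s) + 4 * n ^ 3) + 1 ≤ n ^ (8 * e + 10) := by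
    have h6 : (4 * l + 8 * n ^ s) + 4 * n ^ 3 ≤ 20 * n ^ (8 * e + 8) := by omega
    have h7 : 1 ≤ n ^ (8 * e + 9) := Nat.one_le_pow _ _ hn0
    calc n * ((4 * l + 8 * n ^ s) + 4 * n ^ 3) + 1
        ≤ n * (20 * n ^ (8 * e + 8)) + n ^ (8 * e + 9) := by gcongr
      _ = 21 * n ^ (8 * e + 9) := by ring
      _ ≤ n * n ^ (8 * e + 9) := Nat.mul_le_mul_right _ (by omega)
      _ = n ^ (8 * e + 10) := by ring
  have h8 : 2 * n ^ 4 * (n * ((4 * l + 8 * n ^ s) + 4 * n ^ 3) + 1) ^ 2 ≤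
      2 * n ^ (16 * e + 24) := by
    calc 2 * n ^ 4 * (n * ((4 * l + 8 * n ^ s) + 4 * n ^ 3) + 1) ^ 2
        ≤ 2 * n ^ 4 * (n ^ (8 * e + 10)) ^ 2 := by gcongr
      _ = 2 * n ^ (16 * e + 24) := by ring
  -- the factorial
  have h9 : (8 * e) ^ (24 * e) ≤ ((n + 1) / 2).factorial := by
    have e1 : 32 * e ≤ (n + 1) / 2 := by omega
    have e2 : (32 * e).factorial ≤ ((n + 1) / 2).factorial := Nat.factorial_le e1
    have e3 := Nat.pow_sub_le_descFactorial (32 * e) (24 * e)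
    have e4 : (32 * e).descFactorial (24 * e) ≤ (32 * e).factorial := by
      rw [← Nat.factorial_mul_descFactorial (show 24 * e ≤ 32 * e by omega)]
      exact Nat.le_mul_of_pos_left _ (Nat.factorial_pos _)
    have e5 : 8 * e ≤ 32 * e + 1 - 24 * e := by omega
    exact (Nat.pow_le_pow_left e5 _).trans (e3.trans (e4.trans e2))
  have h10 : n ^ (23 * e) ≤ (8 * e) ^ (24 * e) := by
    have e1 : n ^ e * n ^ (23 * e) ≤ n ^ e * (8 * e) ^ (24 * e) := by
      calc n ^ e * n ^ (23 * e) = n ^ (24 * e) := by ring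
        _ ≤ (16 * (8 * e)) ^ (24 * e) := Nat.pow_le_pow_left (by omega) _
        _ = 2 ^ (96 * e) * (8 * e) ^ (24 * e) := by
            rw [mul_pow]
            congr 1
            rw [show 96 * e = 4 * (24 * e) by ring, pow_mul 2 4]
            norm_num
        _ ≤ n ^ e * (8 * e) ^ (24 * e) := by
            apply Nat.mul_le_mul_right
            calc 2 ^ (96 * e) ≤ 2 ^ (100 * e) := Nat.pow_le_pow_right (by norm_num) (by omega)
              _ = (2 ^ 100) ^ e := by rw [pow_mul]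
              _ ≤ n ^ e := Nat.pow_le_pow_left hn _
    exact Nat.le_of_mul_le_mul_left e1 (Nat.pow_pos hn0)
  have h11 : n ^ (16 * e + 25) ≤ n ^ (23 * e) := Nat.pow_le_pow_right hn0 (by omega)
  have h12 : n * n ^ (16 * e + 24) ≤ ((n + 1) / 2).factorial := by
    calc n * n ^ (16 * e + 24) = n ^ (16 * e + 25) := by ring
      _ ≤ _ := h11.trans (h10.trans h9)
  have h13 : 2 ^ 100 * n ^ (16 * e + 24) ≤ ((n + 1) / 2).factorial :=
    (Nat.mul_le_mul_right _ hn).trans h12
  have h14 : 1 ≤ n ^ (16 * e + 24) := Nat.one_le_pow _ _ hn0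
  have h15 : (2 : ℕ) ^ 100 = 1267650600228229401496703205376 := by norm_num
  rw [h15] at h13
  omega

variable {α : Type*} [DecidableEq α] [Fintype α]

/-- a length function on the alternating group whose balls of radius 2 generate is bounded by the
quantity in `num_big` -/
lemma length_bound (l : LengthFn (alternatingGroup α))
    (hgen : Subgroup.closure {g : alternatingGroup α | l.toFun g ≤ 2} = ⊤)
    (hn : 2 ^ 100 ≤ Fintype.card α) :
    ∃ d, (∀ g, l.toFun g ≤ d) ∧ 2 * Fintype.card α ^ 4 * (d + 1) ^ 2 <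
      ((Fintype.card α + 1) / 2).factorial / 2 := by
  classical
  obtain ⟨n, hndef⟩ : ∃ n, n = Fintype.card α := ⟨_, rfl⟩
  rw [← hndef] at hn ⊢
  obtain ⟨p, hp, hpq, hne, hsum⟩ := exists_primes (Nat.sqrt n + 1) (by omega)
  have hr1 : Nat.sqrt n * Nat.sqrt n ≤ n := Nat.sqrt_le n
  have hr3 : n < (Nat.sqrt n + 1) * (Nat.sqrt n + 1) := Nat.lt_succ_sqrt n
  have hr2 : 2 ^ 50 ≤ Nat.sqrt n := by
    rw [Nat.le_sqrt]
    calc 2 ^ 50 * 2 ^ 50 = 2 ^ 100 := by norm_num
      _ ≤ n := hn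
  have hsum2 : (∑ i, p i) + 2 ≤ n := by
    have h1 : 2 ^ 50 * Nat.sqrt n ≤ n := (Nat.mul_le_mul_right _ hr2).trans hr1
    have h2 : (2 : ℕ) ^ 50 = 1125899906842624 := by norm_num
    rw [h2] at h1 hr2
    omega
  obtain ⟨g, hg, hdvd⟩ := exists_prescribed_order l hgen p (fun i => (hp i).two_le)
    (by rw [← hndef]; exact hsum2)
  obtain ⟨m, hm, hne1, hsup⟩ := exists_pow_small_support (g : Perm α) (r := 8) (by norm_num) p hp
    (by
      intro i j _
      rw [← hndef]
      exact hr3.trans_le (Nat.mul_le_mul (hpq i).le (hpq j).le)) hne hdvd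
  have hσ : ((g ^ m : alternatingGroup α) : Perm α) = (g : Perm α) ^ m := by simp
  obtain ⟨i, j, k, hij, hik, hjk, hL⟩ := exists_short_tc l hgen (g ^ m) (by rw [hσ]; exact hne1)
    (by rw [hσ, ← hndef]; omega)
  have hlen := length_le_of_tc l hgen (by rw [← hndef]; omega) _ hij hik hjk hL
  refine ⟨_, hlen, ?_⟩
  rw [← hndef]
  refine num_big n ((g ^ m : alternatingGroup α) : Perm α).support.card (∑ i, p i)
    (l.toFun (g ^ m)) hn hsum ?_ ?_
  · rw [hσ, hndef]
    exact hsup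
  · calc l.toFun (g ^ m) ≤ m * l.toFun g := l.pow_le g m
      _ ≤ 2 ^ n * (2 * n ^ (∑ i, p i)) := by
          rw [← hndef] at hm hg
          exact Nat.mul_le_mul hm hg

/-- **All orbits long.** -/
theorem hasCliqueMinor_of_long_orbits {V : Type*} [Finite V] [MulAction (alternatingGroup α) V]
    {X : SimpleGraph V} (hX : Inv (alternatingGroup α) X) (hc : X.Connected) (x y : V)
    (hcov : ∀ v, v ∈ MulAction.orbit (alternatingGroup α) x ∨
      v ∈ MulAction.orbit (alternatingGroup α) y)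
    (hgenx : Subgroup.closure {g : alternatingGroup α | X.dist x (g • x) ≤ 2} = ⊤)
    (hgeny : Subgroup.closure {g : alternatingGroup α | X.dist y (g • y) ≤ 2} = ⊤)
    (hn : 2 ^ 100 ≤ Fintype.card α)
    (hM : ∀ v : V, Fintype.card α ^ 14 ≤ Nat.card (MulAction.orbit (alternatingGroup α) v)) :
    HasCliqueMinor X (Fintype.card α) := by
  classical
  obtain ⟨n, hndef⟩ : ∃ n, n = Fintype.card α := ⟨_, rfl⟩
  -- a stabiliser contains a three-cycle
  have hcase : ∀ u : V,
      Subgroup.closure {g : alternatingGroup α | X.dist u (g • u) ≤ 2} = ⊤ →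
      (∃ i j k : α, i ≠ j ∧ i ≠ k ∧ j ≠ k ∧ tc i j k ∈ stab (α := α) u) →
      HasCliqueMinor X (Fintype.card α) := by
    rintro u hgen ⟨i, j, k, hij, hik, hjk, hmem⟩
    have h0 : (distLength hX hc u).toFun (tcA i j k hij hik) ≤ 0 := by
      obtain ⟨h1, h2⟩ := mem_stab.1 hmem
      have h3 : tcA i j k hij hik • u = u := h2
      change X.dist u (tcA i j k hij hik • u) ≤ 0
      rw [h3, SimpleGraph.dist_self]
    have h1 := length_le_of_tc (distLength hX hc u) hgen (by omega) 0 hij hik hjk h0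
    refine hasCliqueMinor_of_dist hX hc u _ _ _ h1 hM ?_
    rw [← hndef] at hn ⊢
    have e0 : 0 < n := by omega
    have e1 : n * (0 + 4 * n ^ 3) + 1 ≤ 5 * n ^ 4 := by
      have : 1 ≤ n ^ 4 := Nat.one_le_pow _ _ e0
      have e2 : n * (0 + 4 * n ^ 3) = 4 * n ^ 4 := by ring
      omega
    calc 2 * n ^ 4 * (n * (0 + 4 * n ^ 3) + 1) ^ 2 ≤ 2 * n ^ 4 * (5 * n ^ 4) ^ 2 := by gcongr
      _ = 50 * n ^ 12 := by ring
      _ < n ^ 2 * n ^ 12 := by
          apply Nat.mul_lt_mul_of_pos_right _ (Nat.pow_pos e0)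
          nlinarith
      _ = n ^ 14 := by ring
  by_cases h3x : ∃ i j k : α, i ≠ j ∧ i ≠ k ∧ j ≠ k ∧ tc i j k ∈ stab (α := α) x
  · exact hcase x hgenx h3x
  by_cases h3y : ∃ i j k : α, i ≠ j ∧ i ≠ k ∧ j ≠ k ∧ tc i j k ∈ stab (α := α) y
  · exact hcase y hgeny h3y
  have hox := orbit_ge_of_no_tc (α := α) x (by omega)
    (fun i j k h1 h2 h3 h4 => h3x ⟨i, j, k, h1, h2, h3, h4⟩)
  have hoy := orbit_ge_of_no_tc (α := α) y (by omega)
    (fun i j k h1 h2 h3 h4 => h3y ⟨i, j, k, h1, h2, h3, h4⟩)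
  obtain ⟨d, hd, hnum⟩ := length_bound (distLength hX hc x) hgenx hn
  refine hasCliqueMinor_of_dist hX hc x d (((Fintype.card α + 1) / 2).factorial / 2) _ hd ?_ hnum
  intro v
  rcases hcov v with h | h
  · rw [MulAction.orbit_eq_iff.2 h]
    exact hox
  · rw [MulAction.orbit_eq_iff.2 h]
    exact hoy

end Pool.Helper24.MinHadwiger
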