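import Pool.Agent.Helper24.MinHadwiger.Basic

/-!
# Large clique minors from large orbits and small diameter

If a finite group `G` acts on a graph `X` so that all orbits have size at least `M`, and the
vertices in the orbit of `u` are pairwise at distance at most `d`, then `X` has a `K_k` minor as
soon as `2 k^4 (d+1)^2 < M`.  The branch sets are unions of random paths.
-/

namespace Pool.Helper24.MinHadwiger

open SimpleGraph Finset

section Averaging

/-- averaging over a family of bijections -/
lemma averaging {Ω G : Type*} [Fintype Ω] [Fintype G] [Nonempty G] (T : G → Ω → Ω)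
    (hT : ∀ γ, Function.Bijective (T γ)) (bad : Ω → Prop) [DecidablePred bad] (M C : ℕ)
    (h : ∀ ω, M * (univ.filter (fun γ => bad (T γ ω))).card ≤ C * Fintype.card G) :
    M * (univ.filter bad).card ≤ C * Fintype.card Ω := by
  classical
  have h1 : ∀ γ, (univ.filter (fun ω => bad (T γ ω))).card = (univ.filter bad).card := by
    intro γ
    let e : Ω ≃ Ω := Equiv.ofBijective _ (hT γ)
    refine Finset.card_bij (fun ω _ => T γ ω) ?_ ?_ ?_
    · intro ω hω
      simpa using hω
    · intro a _ b _ hab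
      exact (hT γ).1 hab
    · intro b hb
      obtain ⟨a, rfl⟩ := (hT γ).2 b
      exact ⟨a, by simpa using hb, rfl⟩
  have h2 : ∑ γ : G, (univ.filter (fun ω => bad (T γ ω))).card =
      ∑ ω : Ω, (univ.filter (fun γ => bad (T γ ω))).card := by
    simp only [Finset.card_filter]
    exact Finset.sum_comm
  have h3 : Fintype.card G * (M * (univ.filter bad).card) ≤
      Fintype.card G * (C * Fintype.card Ω) := by
    calc Fintype.card G * (M * (univ.filter bad).card)
        = M * ∑ γ : G, (univ.filter (fun ω => bad (T γ ω))).card := by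
          simp only [h1, Finset.sum_const, Finset.card_univ, smul_eq_mul]
          ring
      _ = ∑ ω : Ω, M * (univ.filter (fun γ => bad (T γ ω))).card := by
          rw [h2, Finset.mul_sum]
      _ ≤ ∑ ω : Ω, C * Fintype.card G := Finset.sum_le_sum (fun ω _ => h ω)
      _ = Fintype.card G * (C * Fintype.card Ω) := by
          simp only [Finset.sum_const, Finset.card_univ, smul_eq_mul]
          ring
  exact Nat.le_of_mul_le_mul_left h3 Fintype.card_pos

end Averaging

section

variable {G V : Type*} [Group G] [Fintype G] [MulAction G V]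

lemma card_smul_eq_mul_le [Finite V] (y v : V) (M : ℕ) (hM : M ≤ Nat.card (MulAction.orbit G y))
    [DecidableEq V] :
    M * (univ.filter (fun γ : G => γ • y = v)).card ≤ Fintype.card G := by
  classical
  have h1 : (univ.filter (fun γ : G => γ • y = v)).card ≤
      Nat.card (MulAction.stabilizer G y) := by
    rcases (univ.filter (fun γ : G => γ • y = v)).eq_empty_or_nonempty with he | ⟨γ₀, hγ₀⟩
    · rw [he]; simp
    · have hγ₀' : γ₀ • y = v := by simpa using hγ₀
      rw [Nat.card_eq_fintype_card, ← Finset.card_univ (α := MulAction.stabilizer G y)]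
      refine Finset.card_le_card_of_injOn (fun γ =>
        if h : γ • y = v then ⟨γ₀⁻¹ * γ, ?_⟩ else 1) (fun _ _ => Finset.mem_coe.2 (mem_univ _)) ?_
      · rw [MulAction.mem_stabilizer_iff, mul_smul, h, ← hγ₀', inv_smul_smul]
      · intro a ha b hb hab
        have ha' : a • y = v := by simpa using ha
        have hb' : b • y = v := by simpa using hb
        simp only [dif_pos ha', dif_pos hb', Subtype.mk.injEq] at hab
        exact mul_left_cancel hab
  have h2 : Nat.card (MulAction.orbit G y) * Nat.card (MulAction.stabilizer G y) =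
      Fintype.card G := by
    have := Fintype.ofFinite (MulAction.orbit G y)
    have := MulAction.card_orbit_mul_card_stabilizer_eq_card_group G y
    rw [Nat.card_eq_fintype_card, Nat.card_eq_fintype_card]
    exact this
  calc M * (univ.filter (fun γ : G => γ • y = v)).card
      ≤ Nat.card (MulAction.orbit G y) * Nat.card (MulAction.stabilizer G y) :=
        Nat.mul_le_mul hM h1
    _ = Fintype.card G := h2

/-- the number of translates of `Q'` meeting `Q` -/
lemma card_translates_meet [Finite V] [DecidableEq V] (Q Q' : Finset V) (M d : ℕ)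
    (hM : ∀ y ∈ Q', M ≤ Nat.card (MulAction.orbit G y)) (hQ : Q.card ≤ d) (hQ' : Q'.card ≤ d)
    (s : Finset G) (hs : ∀ γ ∈ s, ∃ y ∈ Q', γ • y ∈ Q) :
    M * s.card ≤ d ^ 2 * Fintype.card G := by
  classical
  have h1 : s ⊆ (Q ×ˢ Q').biUnion (fun p => univ.filter (fun γ : G => γ • p.2 = p.1)) := by
    intro γ hγ
    obtain ⟨y, hy, hyQ⟩ := hs γ hγ
    rw [Finset.mem_biUnion]
    exact ⟨(γ • y, y), Finset.mem_product.2 ⟨hyQ, hy⟩, by simp⟩
  calc M * s.card
      ≤ M * ∑ p ∈ Q ×ˢ Q', (univ.filter (fun γ : G => γ • p.2 = p.1)).card :=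
        Nat.mul_le_mul_left _ ((Finset.card_le_card h1).trans Finset.card_biUnion_le)
    _ = ∑ p ∈ Q ×ˢ Q', M * (univ.filter (fun γ : G => γ • p.2 = p.1)).card := by
        rw [Finset.mul_sum]
    _ ≤ ∑ p ∈ Q ×ˢ Q', Fintype.card G := by
        refine Finset.sum_le_sum (fun p hp => ?_)
        exact card_smul_eq_mul_le p.2 p.1 M (hM _ (Finset.mem_product.1 hp).2)
    _ = (Q.card * Q'.card) * Fintype.card G := by
        rw [Finset.sum_const, Finset.card_product, smul_eq_mul]
    _ ≤ d ^ 2 * Fintype.card G := by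
        apply Nat.mul_le_mul_right
        rw [pow_two]
        exact Nat.mul_le_mul hQ hQ'

end

section Main

variable {G V : Type*} [Group G] [MulAction G V]

/-- configurations -/
abbrev Conf (G : Type*) (k : ℕ) := (Fin k → G) × (Sym2 (Fin k) → G)

/-- the path of the configuration from vertex `i` towards the midpoint of `s(i,j)` -/
def pathSet [DecidableEq V] {k : ℕ} (P : G → Finset V) (ω : Conf G k) (i j : Fin k) : Finset V :=
  (P ((ω.1 i)⁻¹ * ω.2 s(i, j))).image (fun v => ω.1 i • v)

/-- translation of a configuration -/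
def confT {k : ℕ} (i j : Fin k) (γ : G) (ω : Conf G k) : Conf G k :=
  (Function.update ω.1 i (γ * ω.1 i), Function.update ω.2 s(i, j) (γ * ω.2 s(i, j)))

/-- translation of one vertex -/
def confT' {k : ℕ} (i : Fin k) (γ : G) (ω : Conf G k) : Conf G k :=
  (Function.update ω.1 i (γ * ω.1 i), ω.2)

lemma confT_bijective {k : ℕ} (i j : Fin k) (γ : G) : Function.Bijective (confT i j γ) := by
  refine Function.bijective_iff_has_inverse.2 ⟨confT i j γ⁻¹, ?_, ?_⟩ <;>
  · intro ω
    simp [confT]

lemma confT'_bijective {k : ℕ} (i : Fin k) (γ : G) : Function.Bijective (confT' i γ) := by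
  refine Function.bijective_iff_has_inverse.2 ⟨confT' i γ⁻¹, ?_, ?_⟩ <;>
  · intro ω
    simp [confT']

lemma pathSet_confT_self [DecidableEq V] {k : ℕ} (P : G → Finset V) (ω : Conf G k) (i j : Fin k)
    (γ : G) : pathSet P (confT i j γ ω) i j = (pathSet P ω i j).image (fun v => γ • v) := by
  simp only [pathSet, confT, Function.update_self, mul_inv_rev, Finset.image_image]
  congr 1
  · ext v
    simp [mul_smul]
  · congr 1
    group

lemma pathSet_confT_ne [DecidableEq V] {k : ℕ} (P : G → Finset V) (ω : Conf G k)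
    (i j i' j' : Fin k) (γ : G) (h1 : i' ≠ i) (h2 : s(i', j') ≠ s(i, j)) :
    pathSet P (confT i j γ ω) i' j' = pathSet P ω i' j' := by
  simp only [pathSet, confT, Function.update_of_ne h1, Function.update_of_ne h2]

lemma pathSet_confT'_ne [DecidableEq V] {k : ℕ} (P : G → Finset V) (ω : Conf G k)
    (i i' j' : Fin k) (γ : G) (h1 : i' ≠ i) :
    pathSet P (confT' i γ ω) i' j' = pathSet P ω i' j' := by
  simp only [pathSet, confT', Function.update_of_ne h1]

/-- **Random paths.** -/
theorem hasCliqueMinor_of_paths [Finite G] [Finite V] (X : SimpleGraph V)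
    (hX : ∀ (g : G) (a b : V), X.Adj a b → X.Adj (g • a) (g • b)) (u : V) (d M k : ℕ)
    (P : G → Finset V) (hPcard : ∀ g, (P g).card ≤ d)
    (hPu : ∀ g, u ∈ P g) (hPg : ∀ g, g • u ∈ P g)
    (hPc : ∀ g, ∀ v ∈ P g, JoinedIn X (P g : Set V) u v)
    (hM : ∀ v ∈ ⋃ g, (P g : Set V), M ≤ Nat.card (MulAction.orbit G v))
    (hk : 2 * k ^ 4 * d ^ 2 < M) : HasCliqueMinor X k := by
  classical
  have := Fintype.ofFinite G
  have := Fintype.ofFinite V
  -- bad events
  let A : (Fin k × Fin k) × (Fin k × Fin k) → Conf G k → Prop := fun q ω =>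
    q.1.1 ≠ q.2.1 ∧ s(q.1.1, q.1.2) ≠ s(q.2.1, q.2.2) ∧
      ∃ v ∈ pathSet P ω q.1.1 q.1.2, v ∈ pathSet P ω q.2.1 q.2.2
  let B : Fin k × Fin k → Conf G k → Prop := fun q ω =>
    q.1 ≠ q.2 ∧ ω.1 q.1 • u ∈ pathSet P ω q.2 q.1
  have hcardP : ∀ ω : Conf G k, ∀ i j, (pathSet P ω i j).card ≤ d := fun ω i j =>
    Finset.card_image_le.trans (hPcard _)
  have hMP : ∀ ω : Conf G k, ∀ i j, ∀ v ∈ pathSet P ω i j,
      M ≤ Nat.card (MulAction.orbit G v) := by
    intro ω i j v hv
    simp only [pathSet, Finset.mem_image] at hv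
    obtain ⟨w, hw, rfl⟩ := hv
    have h1 := hM w (Set.mem_iUnion.2 ⟨_, hw⟩)
    rwa [MulAction.orbit_smul]
  have hA : ∀ q, M * (univ.filter (A q)).card ≤ d ^ 2 * Fintype.card (Conf G k) := by
    rintro ⟨⟨i, j⟩, ⟨i', j'⟩⟩
    by_cases hne : i ≠ i' ∧ s(i, j) ≠ s(i', j')
    swap
    · have : univ.filter (A ((i, j), (i', j'))) = ∅ := by
        rw [Finset.filter_eq_empty_iff]
        intro ω _ hω
        exact hne ⟨hω.1, hω.2.1⟩
      rw [this]; simp
    obtain ⟨hne1, hne2⟩ := hne
    refine averaging (fun γ => confT i' j' γ) (fun γ => confT_bijective i' j' γ) _ M (d ^ 2) ?_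
    intro ω
    refine card_translates_meet (pathSet P ω i j) (pathSet P ω i' j') M d (hMP ω _ _)
      (hcardP _ _ _) (hcardP _ _ _) _ ?_
    intro γ hγ
    simp only [Finset.mem_filter, Finset.mem_univ, true_and, A] at hγ
    obtain ⟨_, _, v, hv, hv'⟩ := hγ
    rw [pathSet_confT_ne P ω i' j' i j γ hne1 hne2] at hv
    rw [pathSet_confT_self, Finset.mem_image] at hv'
    obtain ⟨y, hy, rfl⟩ := hv'
    exact ⟨y, hy, hv⟩
  have hB : ∀ q, M * (univ.filter (B q)).card ≤ d ^ 2 * Fintype.card (Conf G k) := by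
    rintro ⟨i, j⟩
    by_cases hne : i ≠ j
    swap
    · have : univ.filter (B (i, j)) = ∅ := by
        rw [Finset.filter_eq_empty_iff]
        intro ω _ hω
        exact hne hω.1
      rw [this]; simp
    refine averaging (fun γ => confT' i γ) (fun γ => confT'_bijective i γ) _ M (d ^ 2) ?_
    intro ω
    have hd1 : 1 ≤ d := by
      have h1 := hPcard 1
      have h2 : 0 < (P 1).card := Finset.card_pos.2 ⟨u, hPu 1⟩
      omega
    refine card_translates_meet (pathSet P ω j i) {ω.1 i • u} M d ?_
      (hcardP _ _ _) (by simpa using hd1) _ ?_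
    · intro y hy
      rw [Finset.mem_singleton] at hy
      subst hy
      rw [MulAction.orbit_smul]
      exact hM u (Set.mem_iUnion.2 ⟨1, hPu 1⟩)
    intro γ hγ
    simp only [Finset.mem_filter, Finset.mem_univ, true_and, B] at hγ
    obtain ⟨_, hv⟩ := hγ
    rw [pathSet_confT'_ne P ω i j i γ (Ne.symm hne)] at hv
    simp only [confT', Function.update_self] at hv
    exact ⟨ω.1 i • u, by simp, by rwa [← mul_smul]⟩
  -- union bound
  have hgood : ∃ ω : Conf G k, (∀ q, ¬ A q ω) ∧ ∀ q, ¬ B q ω := by
    by_contra hcon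
    push Not at hcon
    have h1 : (univ : Finset (Conf G k)) ⊆
        (univ.biUnion (fun q => univ.filter (A q))) ∪ (univ.biUnion (fun q => univ.filter (B q))) := by
      intro ω _
      rw [Finset.mem_union, Finset.mem_biUnion, Finset.mem_biUnion]
      by_cases h : ∀ q, ¬ A q ω
      · obtain ⟨q, hq⟩ := hcon ω h
        exact Or.inr ⟨q, Finset.mem_univ _, by simpa using hq⟩
      · push Not at h
        obtain ⟨q, hq⟩ := h
        exact Or.inl ⟨q, Finset.mem_univ _, by simpa using hq⟩
    have h2 : M * Fintype.card (Conf G k) ≤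
        (2 * k ^ 4 * d ^ 2) * Fintype.card (Conf G k) := by
      have e1 : M * (univ.biUnion (fun q => univ.filter (A q))).card ≤
          (k ^ 4 * d ^ 2) * Fintype.card (Conf G k) := by
        calc M * (univ.biUnion (fun q => univ.filter (A q))).card
            ≤ M * ∑ q, (univ.filter (A q)).card :=
              Nat.mul_le_mul_left _ Finset.card_biUnion_le
          _ = ∑ q, M * (univ.filter (A q)).card := by rw [Finset.mul_sum]
          _ ≤ ∑ q : (Fin k × Fin k) × (Fin k × Fin k), d ^ 2 * Fintype.card (Conf G k) :=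
              Finset.sum_le_sum (fun q _ => hA q)
          _ = (k ^ 4 * d ^ 2) * Fintype.card (Conf G k) := by
              rw [Finset.sum_const, Finset.card_univ, Fintype.card_prod, Fintype.card_prod,
                Fintype.card_fin, smul_eq_mul]
              ring
      have e2 : M * (univ.biUnion (fun q => univ.filter (B q))).card ≤
          (k ^ 2 * d ^ 2) * Fintype.card (Conf G k) := by
        calc M * (univ.biUnion (fun q => univ.filter (B q))).card
            ≤ M * ∑ q, (univ.filter (B q)).card :=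
              Nat.mul_le_mul_left _ Finset.card_biUnion_le
          _ = ∑ q, M * (univ.filter (B q)).card := by rw [Finset.mul_sum]
          _ ≤ ∑ q : (Fin k × Fin k), d ^ 2 * Fintype.card (Conf G k) :=
              Finset.sum_le_sum (fun q _ => hB q)
          _ = (k ^ 2 * d ^ 2) * Fintype.card (Conf G k) := by
              rw [Finset.sum_const, Finset.card_univ, Fintype.card_prod,
                Fintype.card_fin, smul_eq_mul]
              ring
      have e3 : k ^ 2 ≤ k ^ 4 := by
        rcases Nat.eq_zero_or_pos k with rfl | hk0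
        · simp
        · exact Nat.pow_le_pow_right hk0 (by norm_num)
      calc M * Fintype.card (Conf G k)
          ≤ M * ((univ.biUnion (fun q => univ.filter (A q))).card +
              (univ.biUnion (fun q => univ.filter (B q))).card) := by
            apply Nat.mul_le_mul_left
            rw [← Finset.card_univ]
            exact (Finset.card_le_card h1).trans (Finset.card_union_le _ _)
        _ ≤ (k ^ 4 * d ^ 2) * Fintype.card (Conf G k) +
            (k ^ 2 * d ^ 2) * Fintype.card (Conf G k) := by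
            rw [Nat.mul_add]; exact Nat.add_le_add e1 e2
        _ ≤ (k ^ 4 * d ^ 2) * Fintype.card (Conf G k) +
            (k ^ 4 * d ^ 2) * Fintype.card (Conf G k) := by gcongr
        _ = (2 * k ^ 4 * d ^ 2) * Fintype.card (Conf G k) := by ring
    have h3 : 0 < Fintype.card (Conf G k) := Fintype.card_pos
    have := Nat.le_of_mul_le_mul_right h2 h3
    omega
  obtain ⟨ω, hAω, hBω⟩ := hgood
  -- unpack
  let Q : Fin k → Fin k → Set V := fun i j => (pathSet P ω i j : Set V)
  let x : Fin k → V := fun i => ω.1 i • u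
  have hdisj : ∀ i j i' j', i ≠ i' → s(i, j) ≠ s(i', j') → ∀ v, v ∈ Q i j → v ∉ Q i' j' := by
    intro i j i' j' h1 h2 v hv hv'
    exact hAω ((i, j), (i', j')) ⟨h1, h2, v, hv, hv'⟩
  have hstart : ∀ i j, x i ∈ Q i j := by
    intro i j
    simp only [Q, x, pathSet, Finset.coe_image, Set.mem_image]
    exact ⟨u, hPu _, rfl⟩
  have hend : ∀ i j, ω.2 s(i, j) • u ∈ Q i j := by
    intro i j
    simp only [Q, pathSet, Finset.coe_image, Set.mem_image]
    refine ⟨((ω.1 i)⁻¹ * ω.2 s(i, j)) • u, hPg _, ?_⟩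
    rw [← mul_smul, mul_inv_cancel_left]
  have hnotin : ∀ i j, i ≠ j → x i ∉ Q j i := by
    intro i j h1 h2
    exact hBω (i, j) ⟨h1, h2⟩
  have hconn : ∀ i j, ∀ v ∈ Q i j, JoinedIn X (Q i j) (x i) v := by
    intro i j v hv
    simp only [Q, pathSet, Finset.coe_image, Set.mem_image] at hv
    obtain ⟨w, hw, rfl⟩ := hv
    refine (hPc _ w hw).map (fun v => ω.1 i • v) ?_
    intro a ha b hb hab
    refine JoinedIn.of_adj (hX _ _ _ hab) ?_ ?_
    · simp only [Q, pathSet, Finset.coe_image, Set.mem_image]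
      exact ⟨a, ha, rfl⟩
    · simp only [Q, pathSet, Finset.coe_image, Set.mem_image]
      exact ⟨b, hb, rfl⟩
  -- initial segments
  let C : Fin k → Fin k → Set V := fun i j =>
    {v | JoinedIn X (Q i j \ Q j i) (x i) v}
  have hCx : ∀ i j, x i ∈ C i j := fun i j => JoinedIn.refl _
  have hCsub : ∀ i j, i ≠ j → C i j ⊆ Q i j \ Q j i := by
    intro i j hij v hv
    exact JoinedIn.mem_right hv ⟨hstart i j, hnotin i j hij⟩
  have hCclosed : ∀ i j, i ≠ j → ∀ a ∈ C i j, ∀ b, X.Adj a b → b ∈ Q i j \ Q j i → b ∈ C i j := by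
    intro i j hij a ha b hab hb
    have h1 : JoinedIn X (Q i j \ Q j i) (x i) a := ha
    exact h1.trans (JoinedIn.of_adj hab (hCsub i j hij ha) hb)
  have hCconn : ∀ i j, i ≠ j → ∀ v ∈ C i j, JoinedIn X (C i j) (x i) v := by
    intro i j hij v hv
    have hv' : JoinedIn X (Q i j \ Q j i) (x i) v := hv
    have key : v ∈ C i j ∧ JoinedIn X (C i j) (x i) v := by
      refine hv'.induct (P := fun w => w ∈ C i j ∧ JoinedIn X (C i j) (x i) w) ?_
        ⟨hCx i j, JoinedIn.refl _⟩
      rintro a _ b hbB hab ⟨haC, haJ⟩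
      have hbC := hCclosed i j hij a haC b hab hbB
      exact ⟨hbC, haJ.trans (JoinedIn.of_adj hab haC hbC)⟩
    exact key.2
  let Z : Fin k → Set V := fun i =>
    {v | v = x i ∨ (∃ j, j < i ∧ v ∈ Q i j) ∨ (∃ j, i < j ∧ v ∈ C i j)}
  have hQZ : ∀ i j, j < i → Q i j ⊆ Z i := fun i j hj v hv => Or.inr (Or.inl ⟨j, hj, hv⟩)
  have hCZ : ∀ i j, i < j → C i j ⊆ Z i := fun i j hj v hv => Or.inr (Or.inr ⟨j, hj, hv⟩)
  have hZconn : ∀ i, ∀ v ∈ Z i, JoinedIn X (Z i) (x i) v := by
    intro i v hv
    rcases hv with rfl | ⟨j, hj, hv⟩ | ⟨j, hj, hv⟩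
    · exact JoinedIn.refl _
    · exact (hconn i j v hv).mono (hQZ i j hj)
    · exact (hCconn i j hj.ne v hv).mono (hCZ i j hj)
  rw [hasCliqueMinor_iff]
  refine ⟨Z, ?_, ?_, ?_⟩
  · intro i
    refine ⟨⟨x i, Or.inl rfl⟩, ?_⟩
    intro a ha b hb
    exact (hZconn i a ha).symm.trans (hZconn i b hb)
  · -- disjointness
    have key : ∀ i i', i < i' → Disjoint (Z i) (Z i') := by
      intro i i' hlt
      rw [Set.disjoint_left]
      intro v hv hv'
      have h1 : ∃ j, j ≠ i ∧ v ∈ Q i j ∧ (j = i' → v ∉ Q i' i) := by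
        rcases hv with rfl | ⟨j, hj, hv⟩ | ⟨j, hj, hv⟩
        · exact ⟨i', hlt.ne', hstart i i', fun _ => hnotin i i' hlt.ne⟩
        · refine ⟨j, hj.ne, hv, fun h => ?_⟩
          exact absurd (h ▸ hj) (not_lt.2 hlt.le)
        · refine ⟨j, hj.ne', (hCsub i j hj.ne hv).1, fun h => ?_⟩
          subst h
          exact (hCsub i j hj.ne hv).2
      have h2 : ∃ j, j ≠ i' ∧ v ∈ Q i' j := by
        rcases hv' with rfl | ⟨j, hj, hv⟩ | ⟨j, hj, hv⟩
        · exact ⟨i, hlt.ne, hstart i' i⟩
        · exact ⟨j, hj.ne, hv⟩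
        · exact ⟨j, hj.ne', (hCsub i' j hj.ne hv).1⟩
      obtain ⟨j, hji, hvj, himp⟩ := h1
      obtain ⟨j', hj'i, hvj'⟩ := h2
      by_cases hs : s(i, j) = s(i', j')
      · rw [Sym2.eq_iff] at hs
        rcases hs with ⟨h, _⟩ | ⟨h3, h4⟩
        · exact hlt.ne h
        · subst h4
          rw [← h3] at hvj'
          exact himp rfl hvj'
      · exact hdisj i j i' j' hlt.ne hs v hvj hvj'
    intro i j hij
    rcases lt_or_gt_of_ne hij with h | h
    · exact key i j h
    · exact (key j i h).symm
  · -- adjacency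
    have key : ∀ i j, i < j → ∃ a ∈ Z i, ∃ b ∈ Z j, X.Adj a b := by
      intro i j hlt
      by_contra hcon
      push Not at hcon
      have hm : ω.2 s(i, j) • u ∈ Q j i := by
        have := hend j i
        rwa [Sym2.eq_swap] at this
      have h1 := hconn i j (ω.2 s(i, j) • u) (hend i j)
      have h2 : ω.2 s(i, j) • u ∈ C i j := by
        refine h1.induct (P := fun w => w ∈ C i j) ?_ (hCx i j)
        intro a _ b hb hab haC
        by_cases hbQ : b ∈ Q j i
        · exact absurd hab (hcon a (hCZ i j hlt haC) b (hQZ j i hlt hbQ))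
        · exact hCclosed i j hlt.ne a haC b hab ⟨hb, hbQ⟩
      exact (hCsub i j hlt.ne h2).2 hm
    intro i j hij
    rcases lt_or_gt_of_ne hij with h | h
    · exact key i j h
    · obtain ⟨a, ha, b, hb, hab⟩ := key j i h
      exact ⟨b, hb, a, ha, hab.symm⟩

end Main

end Pool.Helper24.MinHadwiger
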