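import Pool.Agent.Helper24.MinHadwiger.Large

/-!
# The case of small supports
-/

namespace Pool.Helper24.MinHadwiger

open Equiv Equiv.Perm Finset

section Abstract

variable {V : Type*}

/-- a cyclic shift -/
lemma exists_shift (m : ℕ) (hm : 3 ≤ m) : ∃ s : Fin m → Fin m, Function.Injective s ∧
    (∀ i, s i ≠ i) ∧ ∀ i, s (s i) ≠ i := by
  let s : Fin m → Fin m := fun i => if h : (i : ℕ) + 1 < m then ⟨i + 1, h⟩ else ⟨0, by omega⟩
  have hs : ∀ i : Fin m, ((s i : Fin m) : ℕ) = if (i : ℕ) + 1 < m then (i : ℕ) + 1 else 0 := by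
    intro i
    simp only [s]
    split_ifs <;> rfl
  refine ⟨s, ?_, ?_, ?_⟩
  · intro i j hij
    have h1 := congrArg Fin.val hij
    rw [hs, hs] at h1
    have hi := i.2
    have hj := j.2
    apply Fin.ext
    split_ifs at h1 <;> omega
  · intro i h
    have h1 := congrArg Fin.val h
    rw [hs] at h1
    split_ifs at h1 <;> omega
  · intro i h
    have h1 := congrArg Fin.val h
    rw [hs, hs] at h1
    have hi := i.2
    split_ifs at h1 <;> omega

/-- a complete bipartite graph minus a perfect matching gives a clique minor -/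
lemma hasCliqueMinor_of_bipartite {X : SimpleGraph V} {m : ℕ} (hm : 3 ≤ m) (U U' : Fin m → V)
    (hU : Function.Injective U) (hU' : Function.Injective U') (hne : ∀ i j, i ≠ j → U i ≠ U' j)
    (hdich : (∀ i, U i = U' i) ∨ ∀ i, U i ≠ U' i)
    (hadj : ∀ i j, i ≠ j → X.Adj (U i) (U' j)) : HasCliqueMinor X m := by
  rw [hasCliqueMinor_iff]
  rcases hdich with hd | hd
  · refine ⟨fun i => {U i}, ?_, ?_, ?_⟩
    · intro i
      refine ⟨⟨U i, rfl⟩, ?_⟩
      rintro a rfl b rfl
      exact JoinedIn.refl _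
    · intro i j hij
      rw [Set.disjoint_left]
      rintro a rfl hb
      exact hij (hU hb)
    · intro i j hij
      refine ⟨U i, rfl, U j, rfl, ?_⟩
      rw [hd j]
      exact hadj i j hij
  · have hne' : ∀ i j, U i ≠ U' j := by
      intro i j
      by_cases h : i = j
      · subst h; exact hd i
      · exact hne i j h
    obtain ⟨s, hs1, hs2, hs3⟩ := exists_shift m hm
    refine ⟨fun i => {U i, U' (s i)}, ?_, ?_, ?_⟩
    · intro i
      refine ⟨⟨U i, by simp⟩, ?_⟩
      have h1 : JoinedIn X {U i, U' (s i)} (U i) (U' (s i)) :=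
        JoinedIn.of_adj (hadj i (s i) (hs2 i).symm) (by simp) (by simp)
      intro a ha b hb
      simp only [Set.mem_insert_iff, Set.mem_singleton_iff] at ha hb
      rcases ha with rfl | rfl <;> rcases hb with rfl | rfl
      · exact JoinedIn.refl _
      · exact h1
      · exact h1.symm
      · exact JoinedIn.refl _
    · intro i j hij
      rw [Set.disjoint_left]
      intro a ha hb
      simp only [Set.mem_insert_iff, Set.mem_singleton_iff] at ha hb
      rcases ha with rfl | rfl <;> rcases hb with hb | hb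
      · exact hij (hU hb)
      · exact hne' _ _ hb
      · exact hne' _ _ hb.symm
      · exact hij (hs1 (hU' hb))
    · intro i j hij
      by_cases h : i = s j
      · have h2 : j ≠ s i := by
          intro h3
          rw [h3] at h
          exact hs3 i h.symm
        exact ⟨U' (s i), by simp, U j, by simp, (hadj j (s i) h2).symm⟩
      · exact ⟨U i, by simp, U' (s j), by simp, hadj i (s j) h⟩

/-- a subdivided version -/
lemma hasCliqueMinor_of_subdivided {X : SimpleGraph V} {m : ℕ} (hm : 3 ≤ m) (U U' : Fin m → V)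
    (W : Fin m → Fin m → V)
    (hU : Function.Injective U) (hU' : Function.Injective U') (hne : ∀ i j, i ≠ j → U i ≠ U' j)
    (hdich : (∀ i, U i = U' i) ∨ ∀ i, U i ≠ U' i)
    (hW : ∀ i j i' j', i ≠ j → i' ≠ j' → W i j = W i' j' → i = i' ∧ j = j')
    (hWU : ∀ i j k, i ≠ j → W i j ≠ U k) (hWU' : ∀ i j k, i ≠ j → W i j ≠ U' k)
    (hadj : ∀ i j, i ≠ j → X.Adj (W i j) (U i)) (hadj' : ∀ i j, i ≠ j → X.Adj (W i j) (U' j)) :
    HasCliqueMinor X m := by
  rw [hasCliqueMinor_iff]
  rcases hdich with hd | hd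
  · refine ⟨fun i => {v | v = U i ∨ ∃ j, i ≠ j ∧ v = W i j}, ?_, ?_, ?_⟩
    · intro i
      refine ⟨⟨U i, Or.inl rfl⟩, ?_⟩
      set S : Set V := {v | v = U i ∨ ∃ j, i ≠ j ∧ v = W i j} with hS
      have h3 : ∀ v ∈ S, JoinedIn X S (U i) v := by
        rintro v (rfl | ⟨j, hj, rfl⟩)
        · exact JoinedIn.refl _
        · exact JoinedIn.of_adj (hadj i j hj).symm (Or.inl rfl) (Or.inr ⟨j, hj, rfl⟩)
      intro a ha b hb
      exact (h3 a ha).symm.trans (h3 b hb)
    · intro i j hij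
      rw [Set.disjoint_left]
      rintro a (rfl | ⟨k, hk, rfl⟩) (hb | ⟨k', hk', hb⟩)
      · exact hij (hU hb)
      · exact hWU _ _ _ hk' hb.symm
      · exact hWU _ _ _ hk hb
      · exact hij (hW _ _ _ _ hk hk' hb).1
    · intro i j hij
      refine ⟨W i j, Or.inr ⟨j, hij, rfl⟩, U j, Or.inl rfl, ?_⟩
      rw [hd j]
      exact hadj' i j hij
  · have hne' : ∀ i j, U i ≠ U' j := by
      intro i j
      by_cases h : i = j
      · subst h; exact hd i
      · exact hne i j h
    obtain ⟨s, hs1, hs2, hs3⟩ := exists_shift m hm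
    refine ⟨fun i => {v | v = U i ∨ v = U' (s i) ∨ ∃ j, i ≠ j ∧ v = W i j}, ?_, ?_, ?_⟩
    · intro i
      refine ⟨⟨U i, Or.inl rfl⟩, ?_⟩
      set S : Set V := {v | v = U i ∨ v = U' (s i) ∨ ∃ j, i ≠ j ∧ v = W i j} with hS
      have hUS : U i ∈ S := Or.inl rfl
      have hU'S : U' (s i) ∈ S := Or.inr (Or.inl rfl)
      have hWS : ∀ j, i ≠ j → W i j ∈ S := fun j hj => Or.inr (Or.inr ⟨j, hj, rfl⟩)
      have h1 : ∀ j, i ≠ j → JoinedIn X S (U i) (W i j) := fun j hj =>
        JoinedIn.of_adj (hadj i j hj).symm hUS (hWS j hj)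
      have h2 : JoinedIn X S (U i) (U' (s i)) :=
        (h1 (s i) (hs2 i).symm).trans
          (JoinedIn.of_adj (hadj' i (s i) (hs2 i).symm) (hWS _ (hs2 i).symm) hU'S)
      have h3 : ∀ v ∈ S, JoinedIn X S (U i) v := by
        rintro v (rfl | rfl | ⟨j, hj, rfl⟩)
        · exact JoinedIn.refl _
        · exact h2
        · exact h1 j hj
      intro a ha b hb
      exact (h3 a ha).symm.trans (h3 b hb)
    · intro i j hij
      rw [Set.disjoint_left]
      rintro a (rfl | rfl | ⟨k, hk, rfl⟩) (hb | hb | ⟨k', hk', hb⟩)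
      · exact hij (hU hb)
      · exact hne' _ _ hb
      · exact hWU _ _ _ hk' hb.symm
      · exact hne' _ _ hb.symm
      · exact hij (hs1 (hU' hb))
      · exact hWU' _ _ _ hk' hb.symm
      · exact hWU _ _ _ hk hb
      · exact hWU' _ _ _ hk hb
      · exact hij (hW _ _ _ _ hk hk' hb).1
    · intro i j hij
      by_cases h : i = s j
      · have h2 : j ≠ s i := by
          intro h3
          rw [h3] at h
          exact hs3 i h.symm
        exact ⟨U' (s i), Or.inr (Or.inl rfl), W j (s i), Or.inr (Or.inr ⟨s i, h2, rfl⟩),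
          (hadj' j (s i) h2).symm⟩
      · exact ⟨W i (s j), Or.inr (Or.inr ⟨s j, h, rfl⟩), U' (s j), Or.inr (Or.inl rfl),
          hadj' i (s j) h⟩

/-- a subdivided clique -/
lemma hasCliqueMinor_of_subdivided_symm {X : SimpleGraph V} {m : ℕ} (U : Fin m → V)
    (W : Fin m → Fin m → V)
    (hU : Function.Injective U)
    (hW : ∀ i j i' j', i < j → i' < j' → W i j = W i' j' → i = i')
    (hWU : ∀ i j k, i ≠ j → W i j ≠ U k)
    (hsymm : ∀ i j, i ≠ j → W i j = W j i)
    (hadj : ∀ i j, i ≠ j → X.Adj (W i j) (U i)) :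
    HasCliqueMinor X m := by
  rw [hasCliqueMinor_iff]
  refine ⟨fun i => {v | v = U i ∨ ∃ j, i < j ∧ v = W i j}, ?_, ?_, ?_⟩
  · intro i
    refine ⟨⟨U i, Or.inl rfl⟩, ?_⟩
    set S : Set V := {v | v = U i ∨ ∃ j, i < j ∧ v = W i j} with hS
    have h3 : ∀ v ∈ S, JoinedIn X S (U i) v := by
      rintro v (rfl | ⟨j, hj, rfl⟩)
      · exact JoinedIn.refl _
      · exact JoinedIn.of_adj (hadj i j hj.ne).symm (Or.inl rfl) (Or.inr ⟨j, hj, rfl⟩)
    intro a ha b hb
    exact (h3 a ha).symm.trans (h3 b hb)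
  · intro i j hij
    rw [Set.disjoint_left]
    rintro a (rfl | ⟨k, hk, rfl⟩) (hb | ⟨k', hk', hb⟩)
    · exact hij (hU hb)
    · exact hWU _ _ _ hk'.ne hb.symm
    · exact hWU _ _ _ hk.ne hb
    · exact hij (hW _ _ _ _ hk hk' hb)
  · have key : ∀ i j, i < j → ∃ x ∈ {v | v = U i ∨ ∃ j, i < j ∧ v = W i j},
        ∃ y ∈ {v | v = U j ∨ ∃ k, j < k ∧ v = W j k}, X.Adj x y := by
      intro i j hij
      refine ⟨W i j, Or.inr ⟨j, hij, rfl⟩, U j, Or.inl rfl, ?_⟩
      rw [hsymm i j hij.ne]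
      exact hadj j i hij.ne'
    intro i j hij
    rcases lt_or_gt_of_ne hij with h | h
    · exact key i j h
    · obtain ⟨x, hx, y, hy, hxy⟩ := key j i h
      exact ⟨y, hy, x, hx, hxy.symm⟩

end Abstract

variable {α : Type*} [DecidableEq α] [Fintype α]

omit [Fintype α] in
lemma tc_disjoint {a b c a' b' c' : α} (hab : a ≠ b) (hac : a ≠ c) (hbc : b ≠ c)
    (hab' : a' ≠ b') (hac' : a' ≠ c') (hbc' : b' ≠ c')
    (h : ∀ x, (x = a ∨ x = b ∨ x = c) → (x = a' ∨ x = b' ∨ x = c') → False) :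
    Perm.Disjoint (tc a b c) (tc a' b' c') := by
  intro x
  rw [tc_apply hab hac hbc, tc_apply hab' hac' hbc']
  by_cases hx : x = a ∨ x = b ∨ x = c
  · right
    have h2 : ¬ (x = a' ∨ x = b' ∨ x = c') := h x hx
    push Not at h2
    simp [h2]
  · left
    push Not at hx
    simp [hx]

omit [Fintype α] [DecidableEq α] in
/-- choosing distinct points -/
lemma exists_points {R : Finset α} {m : ℕ} (h : m + 2 ≤ R.card) :
    ∃ (r : Fin m → α) (z z' : α), Function.Injective r ∧
      (∀ i, r i ≠ z) ∧ (∀ i, r i ≠ z') ∧ z ≠ z' ∧ (∀ i, r i ∈ R) ∧ z ∈ R ∧ z' ∈ R := by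
  obtain ⟨ρ⟩ : Nonempty ((Fin m ⊕ Fin 2) ↪ R) := by
    apply Function.Embedding.nonempty_of_card_le
    simp only [Fintype.card_sum, Fintype.card_fin, Fintype.card_coe]
    omega
  have hne : ∀ a b, a ≠ b → (ρ a : α) ≠ ρ b := fun a b hab h =>
    hab (ρ.injective (Subtype.ext h))
  refine ⟨fun i => ρ (Sum.inl i), ρ (Sum.inr 0), ρ (Sum.inr 1), ?_, ?_, ?_, ?_, ?_, ?_, ?_⟩
  · intro i j hij
    have := ρ.injective (Subtype.ext hij)
    simpa using this
  · intro i; exact hne _ _ (by simp)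
  · intro i; exact hne _ _ (by simp)
  · exact hne _ _ (by simp)
  · intro i; exact (ρ _).2
  · exact (ρ _).2
  · exact (ρ _).2

lemma MaxGood.eq_of_big {H : Subgroup (Perm α)} {B B' : Finset α} (hB : MaxGood H B)
    (hB' : MaxGood H B') (h : Fintype.card α < B.card + B'.card) : B = B' := by
  have h1 : (B ∩ B').Nonempty := by
    rw [← Finset.card_pos]
    have h2 := Finset.card_union_add_card_inter B B'
    have h3 := Finset.card_le_univ (B ∪ B')
    omega
  obtain ⟨p, hp⟩ := h1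
  rw [Finset.mem_inter] at hp
  exact hB.eq hB' hp.1 hp.2

section Config

variable {V : Type*} [MulAction (alternatingGroup α) V]

/-- the data used in all the small-support cases -/
structure Config (u u' : V) (B B' R : Finset α) (m : ℕ) where
  a : α
  a' : α
  z : α
  z' : α
  r : Fin m → α
  hB : MaxGood (stab (α := α) u) B
  hB' : MaxGood (stab (α := α) u') B'
  haB : a ∈ B
  haB' : a ∉ B'
  ha'B' : a' ∈ B'
  ha'B : a' ∉ B
  hR : R ⊆ B ∩ B'
  hr : Function.Injective r
  hrz : ∀ i, r i ≠ z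
  hrz' : ∀ i, r i ≠ z'
  hzz' : z ≠ z'
  hrR : ∀ i, r i ∈ R
  hzR : z ∈ R
  hz'R : z' ∈ R

lemma exists_config {u u' : V} {B B' R : Finset α} {m : ℕ}
    (hB : MaxGood (stab (α := α) u) B) (hB' : MaxGood (stab (α := α) u') B')
    {a a' : α} (haB : a ∈ B) (haB' : a ∉ B') (ha'B' : a' ∈ B') (ha'B : a' ∉ B)
    (hR : R ⊆ B ∩ B') (hm : m + 2 ≤ R.card) : Nonempty (Config u u' B B' R m) := by
  obtain ⟨r, z, z', h1, h2, h3, h4, h5, h6, h7⟩ := exists_points hm
  exact ⟨⟨a, a', z, z', r, hB, hB', haB, haB', ha'B', ha'B, hR, h1, h2, h3, h4, h5, h6, h7⟩⟩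

namespace Config

variable {u u' : V} {B B' R : Finset α} {m : ℕ} (c : Config u u' B B' R m)

include c

lemma rB (i) : c.r i ∈ B := (Finset.mem_inter.1 (c.hR (c.hrR i))).1
lemma rB' (i) : c.r i ∈ B' := (Finset.mem_inter.1 (c.hR (c.hrR i))).2
lemma zB : c.z ∈ B := (Finset.mem_inter.1 (c.hR c.hzR)).1
lemma zB' : c.z ∈ B' := (Finset.mem_inter.1 (c.hR c.hzR)).2
lemma z'B : c.z' ∈ B := (Finset.mem_inter.1 (c.hR c.hz'R)).1
lemma z'B' : c.z' ∈ B' := (Finset.mem_inter.1 (c.hR c.hz'R)).2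

lemma ne_aa' : c.a ≠ c.a' := fun h => c.ha'B (h ▸ c.haB)
lemma ne_ar (i) : c.a ≠ c.r i := fun h => c.haB' (h ▸ c.rB' i)
lemma ne_az : c.a ≠ c.z := fun h => c.haB' (h ▸ c.zB')
lemma ne_az' : c.a ≠ c.z' := fun h => c.haB' (h ▸ c.z'B')
lemma ne_a'r (i) : c.a' ≠ c.r i := fun h => c.ha'B (h ▸ c.rB i)
lemma ne_a'z : c.a' ≠ c.z := fun h => c.ha'B (h ▸ c.zB)
lemma ne_a'z' : c.a' ≠ c.z' := fun h => c.ha'B (h ▸ c.z'B)
lemma ne_rr {i j} (h : i ≠ j) : c.r i ≠ c.r j := fun h' => h (c.hr h')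

/-- moves `a` to `r j`, fixes `u` -/
def g (j : Fin m) : alternatingGroup α := tcA c.a (c.r j) c.z (c.ne_ar j) c.ne_az

/-- moves `a'` to `r i`, fixes `u'` -/
def g' (i : Fin m) : alternatingGroup α := tcA c.a' (c.r i) c.z' (c.ne_a'r i) c.ne_a'z'

lemma g_apply (j : Fin m) (x : α) : (c.g j : Perm α) x =
    if x = c.a then c.r j else if x = c.r j then c.z else if x = c.z then c.a else x :=
  tc_apply (c.ne_ar j) c.ne_az (c.hrz j) x

lemma g'_apply (i : Fin m) (x : α) : (c.g' i : Perm α) x =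
    if x = c.a' then c.r i else if x = c.r i then c.z' else if x = c.z' then c.a' else x :=
  tc_apply (c.ne_a'r i) c.ne_a'z' (c.hrz' i) x

lemma comm {i j : Fin m} (hij : i ≠ j) : c.g j * c.g' i = c.g' i * c.g j := by
  apply Subtype.ext
  simp only [Subgroup.coe_mul]
  have h : Perm.Disjoint (c.g j : Perm α) (c.g' i : Perm α) := by
    refine tc_disjoint (c.ne_ar j) c.ne_az (c.hrz j) (c.ne_a'r i) c.ne_a'z' (c.hrz' i) ?_
    rintro x (rfl | rfl | rfl) (h | h | h)
    · exact c.ne_aa' h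
    · exact c.ne_ar i h
    · exact c.ne_az' h
    · exact c.ne_a'r j h.symm
    · exact c.ne_rr hij.symm h
    · exact c.hrz' j h
    · exact c.ne_a'z h.symm
    · exact c.hrz i h.symm
    · exact c.hzz' h
  exact h.commute

lemma g_u (j : Fin m) : c.g j • u = u := by
  rw [← coe_mem_stab]
  exact c.hB.1 _ c.haB _ (c.rB j) _ c.zB (c.ne_ar j) c.ne_az (c.hrz j)

lemma g'_u' (i : Fin m) : c.g' i • u' = u' := by
  rw [← coe_mem_stab]
  exact c.hB'.1 _ c.ha'B' _ (c.rB' i) _ c.z'B' (c.ne_a'r i) c.ne_a'z' (c.hrz' i)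

lemma gg'_u {i j : Fin m} (hij : i ≠ j) : (c.g j * c.g' i) • u = c.g' i • u := by
  rw [c.comm hij, mul_smul, c.g_u]

lemma gg'_u' (i j : Fin m) : (c.g j * c.g' i) • u' = c.g j • u' := by
  rw [mul_smul, c.g'_u']

/-- the 3-cycle `r p → r q → r t` -/
def rot (p q t : Fin m) (hpq : p ≠ q) (hpt : p ≠ t) : alternatingGroup α :=
  tcA (c.r p) (c.r q) (c.r t) (c.ne_rr hpq) (c.ne_rr hpt)

lemma rot_apply (p q t : Fin m) (hpq : p ≠ q) (hpt : p ≠ t) (hqt : q ≠ t) (x : α) :
    (c.rot p q t hpq hpt : Perm α) x =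
    if x = c.r p then c.r q else if x = c.r q then c.r t else if x = c.r t then c.r p else x :=
  tc_apply (c.ne_rr hpq) (c.ne_rr hpt) (c.ne_rr hqt) x

lemma rot_u (p q t : Fin m) (hpq : p ≠ q) (hpt : p ≠ t) (hqt : q ≠ t) :
    c.rot p q t hpq hpt • u = u := by
  rw [← coe_mem_stab]
  exact c.hB.1 _ (c.rB p) _ (c.rB q) _ (c.rB t) (c.ne_rr hpq) (c.ne_rr hpt) (c.ne_rr hqt)

lemma rot_u' (p q t : Fin m) (hpq : p ≠ q) (hpt : p ≠ t) (hqt : q ≠ t) :
    c.rot p q t hpq hpt • u' = u' := by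
  rw [← coe_mem_stab]
  exact c.hB'.1 _ (c.rB' p) _ (c.rB' q) _ (c.rB' t) (c.ne_rr hpq) (c.ne_rr hpt) (c.ne_rr hqt)

lemma rot_g {p q t : Fin m} (hpq : p ≠ q) (hpt : p ≠ t) (hqt : q ≠ t) {j j' : Fin m}
    (hj : (c.rot p q t hpq hpt : Perm α) (c.r j) = c.r j') :
    c.rot p q t hpq hpt * c.g j * (c.rot p q t hpq hpt)⁻¹ = c.g j' := by
  apply Subtype.ext
  simp only [Subgroup.coe_mul, Subgroup.coe_inv, g, tcA]
  rw [tc_conj, hj]
  have h1 := c.rot_apply p q t hpq hpt hqt c.a
  have h2 := c.rot_apply p q t hpq hpt hqt c.z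
  rw [if_neg (c.ne_ar p), if_neg (c.ne_ar q), if_neg (c.ne_ar t)] at h1
  rw [if_neg (c.hrz p).symm, if_neg (c.hrz q).symm, if_neg (c.hrz t).symm] at h2
  rw [h1, h2]

lemma rot_g' {p q t : Fin m} (hpq : p ≠ q) (hpt : p ≠ t) (hqt : q ≠ t) {j j' : Fin m}
    (hj : (c.rot p q t hpq hpt : Perm α) (c.r j) = c.r j') :
    c.rot p q t hpq hpt * c.g' j * (c.rot p q t hpq hpt)⁻¹ = c.g' j' := by
  apply Subtype.ext
  simp only [Subgroup.coe_mul, Subgroup.coe_inv, g', tcA]
  rw [tc_conj, hj]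
  have h1 := c.rot_apply p q t hpq hpt hqt c.a'
  have h2 := c.rot_apply p q t hpq hpt hqt c.z'
  rw [if_neg (c.ne_a'r p), if_neg (c.ne_a'r q), if_neg (c.ne_a'r t)] at h1
  rw [if_neg (c.hrz' p).symm, if_neg (c.hrz' q).symm, if_neg (c.hrz' t).symm] at h2
  rw [h1, h2]

/-- `U i` -/
def U (i : Fin m) : V := c.g' i • u
/-- `U' j` -/
def U' (j : Fin m) : V := c.g j • u'

lemma rot_U {p q t : Fin m} (hpq : p ≠ q) (hpt : p ≠ t) (hqt : q ≠ t) {j j' : Fin m}
    (hj : (c.rot p q t hpq hpt : Perm α) (c.r j) = c.r j') :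
    c.rot p q t hpq hpt • c.U j = c.U j' := by
  unfold U
  rw [← c.rot_g' hpq hpt hqt hj, mul_smul, mul_smul]
  congr 2
  rw [eq_inv_smul_iff]
  exact c.rot_u p q t hpq hpt hqt

lemma rot_U' {p q t : Fin m} (hpq : p ≠ q) (hpt : p ≠ t) (hqt : q ≠ t) {j j' : Fin m}
    (hj : (c.rot p q t hpq hpt : Perm α) (c.r j) = c.r j') :
    c.rot p q t hpq hpt • c.U' j = c.U' j' := by
  unfold U'
  rw [← c.rot_g hpq hpt hqt hj, mul_smul, mul_smul]
  congr 2
  rw [eq_inv_smul_iff]
  exact c.rot_u' p q t hpq hpt hqt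

omit c [Fintype α] [DecidableEq α] [MulAction (alternatingGroup α) V] in
lemma exists_third {m : ℕ} (hm : 4 ≤ m) (p q l : Fin m) : ∃ t : Fin m, t ≠ p ∧ t ≠ q ∧ t ≠ l := by
  have h1 : (({p, q, l} : Finset (Fin m))ᶜ).Nonempty := by
    rw [← Finset.card_pos, Finset.card_compl, Fintype.card_fin]
    have := Finset.card_le_three (a := p) (b := q) (c := l)
    omega
  obtain ⟨t, ht⟩ := h1
  simp only [Finset.mem_compl, Finset.mem_insert, Finset.mem_singleton] at ht
  push Not at ht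
  exact ⟨t, ht⟩

lemma dich (hm : 4 ≤ m) : (∀ i, c.U i = c.U' i) ∨ ∀ i, c.U i ≠ c.U' i := by
  by_cases h : ∃ i, c.U i = c.U' i
  · left
    obtain ⟨p, hp⟩ := h
    intro q
    by_cases hpq : p = q
    · rw [← hpq]; exact hp
    obtain ⟨t, ht1, ht2, -⟩ := exists_third hm p q q
    have hr : (c.rot p q t hpq ht1.symm : Perm α) (c.r p) = c.r q := by
      rw [c.rot_apply p q t hpq ht1.symm ht2.symm]; simp
    rw [← c.rot_U hpq ht1.symm ht2.symm hr, ← c.rot_U' hpq ht1.symm ht2.symm hr, hp]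
  · right
    push Not at h
    exact h

lemma maxU (i : Fin m) : MaxGood (stab (α := α) (c.U i)) (B.image (c.g' i : Perm α)) :=
  maxGood_smul _ c.hB

lemma maxU' (j : Fin m) : MaxGood (stab (α := α) (c.U' j)) (B'.image (c.g j : Perm α)) :=
  maxGood_smul _ c.hB'

lemma U_inj (hbig : Fintype.card α < 2 * B.card) : Function.Injective c.U := by
  intro i k hik
  by_contra hne
  have h1 := c.maxU i
  have h2 := c.maxU k
  rw [hik] at h1
  have h3 := h1.eq_of_big h2 (by
    rw [Finset.card_image_of_injective _ (Equiv.injective _),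
      Finset.card_image_of_injective _ (Equiv.injective _)]; omega)
  have h4 : c.r i ∈ B.image (c.g' k : Perm α) := by
    rw [Finset.mem_image]
    refine ⟨c.r i, c.rB i, ?_⟩
    rw [g'_apply]
    simp [(c.ne_a'r i).symm, c.ne_rr hne, c.hrz' i]
  rw [← h3, Finset.mem_image] at h4
  obtain ⟨x, hx, hxi⟩ := h4
  have h5 : (c.g' i : Perm α) c.a' = c.r i := by rw [g'_apply]; simp
  rw [← h5] at hxi
  rw [(c.g' i : Perm α).injective hxi] at hx
  exact c.ha'B hx

lemma r_notMem_image' (j : Fin m) : c.r j ∉ B'.image (c.g j : Perm α) := by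
  intro h
  rw [Finset.mem_image] at h
  obtain ⟨x, hx, hxi⟩ := h
  have h5 : (c.g j : Perm α) c.a = c.r j := by rw [g_apply]; simp
  rw [← h5] at hxi
  rw [(c.g j : Perm α).injective hxi] at hx
  exact c.haB' hx

lemma U'_inj (hbig : Fintype.card α < 2 * B'.card) : Function.Injective c.U' := by
  intro i k hik
  by_contra hne
  have h1 := c.maxU' i
  have h2 := c.maxU' k
  rw [hik] at h1
  have h3 := h1.eq_of_big h2 (by
    rw [Finset.card_image_of_injective _ (Equiv.injective _),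
      Finset.card_image_of_injective _ (Equiv.injective _)]; omega)
  have h4 : c.r i ∈ B'.image (c.g k : Perm α) := by
    rw [Finset.mem_image]
    refine ⟨c.r i, c.rB' i, ?_⟩
    rw [g_apply]
    simp [(c.ne_ar i).symm, c.ne_rr hne, c.hrz i]
  rw [← h3] at h4
  exact c.r_notMem_image' i h4

lemma U_ne_U' (hbig : Fintype.card α < B.card + B'.card) {i j : Fin m} (hij : i ≠ j) :
    c.U i ≠ c.U' j := by
  intro h
  have h1 := c.maxU i
  have h2 := c.maxU' j
  rw [h] at h1
  have h3 := h1.eq_of_big h2 (by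
    rw [Finset.card_image_of_injective _ (Equiv.injective _),
      Finset.card_image_of_injective _ (Equiv.injective _)]; omega)
  apply c.r_notMem_image' j
  rw [← h3, Finset.mem_image]
  refine ⟨c.r j, c.rB j, ?_⟩
  rw [g'_apply]
  simp [(c.ne_a'r j).symm, c.ne_rr hij.symm, c.hrz' j]

/-- adjacent case -/
lemma adj_case (hm : 4 ≤ m) {X : SimpleGraph V} (hX : Inv (alternatingGroup α) X)
    (h : X.Adj u u')
    (hbig : Fintype.card α < 2 * B.card) (hbig' : Fintype.card α < 2 * B'.card) :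
    HasCliqueMinor X m := by
  refine hasCliqueMinor_of_bipartite (by omega) c.U c.U' (c.U_inj hbig) (c.U'_inj hbig')
    (fun i j hij => c.U_ne_U' (by omega) hij) (c.dich hm) ?_
  intro i j hij
  have h1 := hX (c.g j * c.g' i) _ _ h
  rwa [c.gg'_u hij, c.gg'_u'] at h1

/-- common neighbour with small support -/
lemma sub_case (hm : 4 ≤ m) {X : SimpleGraph V} (hX : Inv (alternatingGroup α) X) {w : V}
    (h : X.Adj w u)
    (h' : X.Adj w u') (hbig : Fintype.card α < 2 * B.card) (hbig' : Fintype.card α < 2 * B'.card)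
    {C : Finset α} (hC : MaxGood (stab (α := α) w) C) (hbigC : Fintype.card α < 2 * C.card)
    (hRC : R ⊆ C) (haC : c.a ∉ C) (ha'C : c.a' ∉ C)
    (hwu : w ∉ MulAction.orbit (alternatingGroup α) u)
    (hwu' : w ∉ MulAction.orbit (alternatingGroup α) u') :
    HasCliqueMinor X m := by
  have hor : ∀ (g h : alternatingGroup α) (v : V), g • w = h • v →
      w ∈ MulAction.orbit (alternatingGroup α) v := by
    intro g h v hgh
    exact ⟨g⁻¹ * h, by simp only [mul_smul]; rw [← hgh, inv_smul_smul]⟩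
  set W : Fin m → Fin m → V := fun i j => (c.g j * c.g' i) • w with hW
  have hmax : ∀ i j, MaxGood (stab (α := α) (W i j))
      (C.image ((c.g j * c.g' i : alternatingGroup α) : Perm α)) := fun i j => maxGood_smul _ hC
  have happ : ∀ i j x, ((c.g j * c.g' i : alternatingGroup α) : Perm α) x =
      (c.g j : Perm α) ((c.g' i : Perm α) x) := by
    intro i j x; rfl
  -- r j and r i are missing
  have hmiss : ∀ i j, i ≠ j →
      c.r j ∉ C.image ((c.g j * c.g' i : alternatingGroup α) : Perm α) := by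
    intro i j hij hmem
    rw [Finset.mem_image] at hmem
    obtain ⟨x, hx, hxi⟩ := hmem
    have h5 : ((c.g j * c.g' i : alternatingGroup α) : Perm α) c.a = c.r j := by
      rw [happ, g'_apply, g_apply]
      simp [c.ne_aa', c.ne_ar i, c.ne_az']
    rw [← h5] at hxi
    rw [Equiv.injective _ hxi] at hx
    exact haC hx
  have hmiss' : ∀ i j, i ≠ j →
      c.r i ∉ C.image ((c.g j * c.g' i : alternatingGroup α) : Perm α) := by
    intro i j hij hmem
    rw [Finset.mem_image] at hmem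
    obtain ⟨x, hx, hxi⟩ := hmem
    have h5 : ((c.g j * c.g' i : alternatingGroup α) : Perm α) c.a' = c.r i := by
      rw [happ, g'_apply, g_apply]
      simp [(c.ne_ar i).symm, c.ne_rr hij, c.hrz i]
    rw [← h5] at hxi
    rw [Equiv.injective _ hxi] at hx
    exact ha'C hx
  -- the others are present
  have hpres : ∀ i j k, k ≠ i → k ≠ j →
      c.r k ∈ C.image ((c.g j * c.g' i : alternatingGroup α) : Perm α) := by
    intro i j k hki hkj
    rw [Finset.mem_image]
    refine ⟨c.r k, hRC (c.hrR k), ?_⟩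
    rw [happ, g'_apply, g_apply]
    simp [(c.ne_a'r k).symm, c.ne_rr hki, c.hrz' k, (c.ne_ar k).symm, c.ne_rr hkj, c.hrz k]
  -- hence equality forces equality of index pairs up to order
  have hWpair : ∀ i j i' j', i ≠ j → i' ≠ j' → W i j = W i' j' →
      (i = i' ∧ j = j') ∨ (i = j' ∧ j = i') := by
    intro i j i' j' hij hij' heq
    have h1 := hmax i j
    have h2 := hmax i' j'
    rw [heq] at h1
    have h3 := h1.eq_of_big h2 (by
      rw [Finset.card_image_of_injective _ (Equiv.injective _),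
        Finset.card_image_of_injective _ (Equiv.injective _)]; omega)
    have h4 : i = i' ∨ i = j' := by
      by_contra hcon
      push Not at hcon
      have h5 := hpres i' j' i hcon.1 hcon.2
      rw [← h3] at h5
      exact hmiss' i j hij h5
    have h6 : j = i' ∨ j = j' := by
      by_contra hcon
      push Not at hcon
      have h5 := hpres i' j' j hcon.1 hcon.2
      rw [← h3] at h5
      exact hmiss i j hij h5
    rcases h4 with h4 | h4 <;> rcases h6 with h6 | h6
    · exact absurd (h4.trans h6.symm) hij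
    · exact Or.inl ⟨h4, h6⟩
    · exact Or.inr ⟨h4, h6⟩
    · exact absurd (h4.trans h6.symm) hij
  have hadjU : ∀ i j, i ≠ j → X.Adj (W i j) (c.U i) := by
    intro i j hij
    have h1 := hX (c.g j * c.g' i) _ _ h
    rwa [c.gg'_u hij] at h1
  have hadjU' : ∀ i j, i ≠ j → X.Adj (W i j) (c.U' j) := by
    intro i j hij
    have h1 := hX (c.g j * c.g' i) _ _ h'
    rwa [c.gg'_u'] at h1
  have hWU : ∀ i j k, i ≠ j → W i j ≠ c.U k := fun i j k _ heq => hwu (hor _ _ _ heq)
  have hWU' : ∀ i j k, i ≠ j → W i j ≠ c.U' k := fun i j k _ heq => hwu' (hor _ _ _ heq)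
  -- rotations fix w
  have hrotw : ∀ p q t (hpq : p ≠ q) (hpt : p ≠ t) (_ : q ≠ t), c.rot p q t hpq hpt • w = w := by
    intro p q t hpq hpt hqt
    rw [← coe_mem_stab]
    exact hC.1 _ (hRC (c.hrR p)) _ (hRC (c.hrR q)) _ (hRC (c.hrR t)) (c.ne_rr hpq) (c.ne_rr hpt)
      (c.ne_rr hqt)
  have hrotW : ∀ {p q t : Fin m} (hpq : p ≠ q) (hpt : p ≠ t) (hqt : q ≠ t) {i i' j j' : Fin m},
      (c.rot p q t hpq hpt : Perm α) (c.r i) = c.r i' →
      (c.rot p q t hpq hpt : Perm α) (c.r j) = c.r j' →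
      c.rot p q t hpq hpt • W i j = W i' j' := by
    intro p q t hpq hpt hqt i i' j j' hi hj
    simp only [hW]
    have h1 : c.g j' * c.g' i' = c.rot p q t hpq hpt * (c.g j * c.g' i) *
        (c.rot p q t hpq hpt)⁻¹ := by
      rw [← c.rot_g hpq hpt hqt hj, ← c.rot_g' hpq hpt hqt hi]
      group
    have h2 : (c.rot p q t hpq hpt)⁻¹ • w = w := by
      rw [inv_smul_eq_iff]
      exact (hrotw p q t hpq hpt hqt).symm
    rw [h1, mul_smul (c.rot p q t hpq hpt * (c.g j * c.g' i)) (c.rot p q t hpq hpt)⁻¹ w, h2,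
      mul_smul (c.rot p q t hpq hpt)]
  by_cases hsym : ∃ i j, i ≠ j ∧ W i j = W j i
  · -- all symmetric
    have hstep : ∀ i j k, i ≠ j → i ≠ k → j ≠ k → W i j = W j i → W i k = W k i := by
      intro i j k hij hik hjk heq
      obtain ⟨t, ht1, ht2, ht3⟩ := exists_third hm i j k
      -- rotate j → k → t, fixes i
      have e1 : (c.rot j k t hjk ht2.symm : Perm α) (c.r i) = c.r i := by
        rw [c.rot_apply j k t hjk ht2.symm ht3.symm]
        simp [c.ne_rr hij, c.ne_rr hik, c.ne_rr ht1.symm]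
      have e2 : (c.rot j k t hjk ht2.symm : Perm α) (c.r j) = c.r k := by
        rw [c.rot_apply j k t hjk ht2.symm ht3.symm]
        simp
      rw [← hrotW hjk ht2.symm ht3.symm e1 e2, ← hrotW hjk ht2.symm ht3.symm e2 e1, heq]
    obtain ⟨p, q, hpq, heq⟩ := hsym
    have h1 : ∀ k, p ≠ k → W p k = W k p := by
      intro k hk
      by_cases hqk : q = k
      · rw [← hqk]; exact heq
      · exact hstep p q k hpq hk hqk heq
    have hall : ∀ i j, i ≠ j → W i j = W j i := by
      intro i j hij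
      by_cases hpi : p = i
      · rw [← hpi]
        exact h1 j (by rw [hpi]; exact hij)
      by_cases hpj : p = j
      · rw [← hpj]
        exact (h1 i hpi).symm
      exact hstep i p j (Ne.symm hpi) hij hpj (h1 i hpi).symm
    refine hasCliqueMinor_of_subdivided_symm c.U W (c.U_inj hbig) ?_ hWU hall hadjU
    intro i j i' j' hij hij' heq
    rcases hWpair i j i' j' hij.ne hij'.ne heq with h | h
    · exact h.1
    · exfalso
      rw [h.1, h.2] at hij
      exact absurd hij (not_lt.2 hij'.le)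
  · push Not at hsym
    refine hasCliqueMinor_of_subdivided (by omega) c.U c.U' W
      (c.U_inj hbig) (c.U'_inj hbig') (fun i j hij => c.U_ne_U' (by omega) hij) (c.dich hm)
      ?_ hWU hWU' hadjU hadjU'
    intro i j i' j' hij hij' heq
    rcases hWpair i j i' j' hij hij' heq with h | h
    · exact h
    · exfalso
      rw [← h.1, ← h.2] at heq
      exact hsym i j hij heq

/-- common neighbour with a long orbit under the alternating group of `R` -/
lemma hall_case (hm : 4 ≤ m) {X : SimpleGraph V} (hX : Inv (alternatingGroup α) X) {w : V}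
    (h : X.Adj w u)
    (h' : X.Adj w u') (hbig : Fintype.card α < 2 * B.card) (hbig' : Fintype.card α < 2 * B'.card)
    (hlong : ∃ T : Finset V, m ^ 2 ≤ T.card ∧ ∀ v ∈ T, ∃ τ : alternatingGroup α,
      (τ : Perm α).support ⊆ R ∧ v = τ • w)
    (hwu : w ∉ MulAction.orbit (alternatingGroup α) u)
    (hwu' : w ∉ MulAction.orbit (alternatingGroup α) u') :
    HasCliqueMinor X m := by
  classical
  obtain ⟨T, hT, hTw⟩ := hlong
  have hor : ∀ (g h : alternatingGroup α) (v : V), g • w = h • v →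
      w ∈ MulAction.orbit (alternatingGroup α) v := by
    intro g h v hgh
    exact ⟨g⁻¹ * h, by simp only [mul_smul]; rw [← hgh, inv_smul_smul]⟩
  -- candidates
  let C : Fin m × Fin m → Finset V := fun p => T.image (fun v => (c.g p.2 * c.g' p.1) • v)
  have hCcard : ∀ p, m ^ 2 ≤ (C p).card := by
    intro p
    rw [Finset.card_image_of_injective _ (MulAction.injective _)]
    exact hT
  have hHall : ∀ s : Finset (Fin m × Fin m), s.card ≤ (s.biUnion C).card := by
    intro s
    rcases s.eq_empty_or_nonempty with rfl | ⟨p, hp⟩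
    · simp
    · have h1 : s.card ≤ m ^ 2 := by
        refine (Finset.card_le_univ s).trans ?_
        rw [Fintype.card_prod, Fintype.card_fin, pow_two]
      exact h1.trans ((hCcard p).trans (Finset.card_le_card (Finset.subset_biUnion_of_mem C hp)))
  obtain ⟨f, hfinj, hf⟩ := (Finset.all_card_le_biUnion_card_iff_exists_injective C).1 hHall
  have hfC : ∀ p, ∃ τ : alternatingGroup α, (τ : Perm α).support ⊆ R ∧
      f p = (c.g p.2 * c.g' p.1) • τ • w := by
    intro p
    have h1 := hf p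
    simp only [C, Finset.mem_image] at h1
    obtain ⟨v, hv, hvf⟩ := h1
    obtain ⟨τ, hτ, rfl⟩ := hTw v hv
    exact ⟨τ, hτ, hvf.symm⟩
  have hτu : ∀ τ : alternatingGroup α, (τ : Perm α).support ⊆ R → τ • u = u := by
    intro τ hτ
    rw [← coe_mem_stab]
    exact c.hB.1.mem _ (mem_alternatingGroup.1 τ.2)
      (hτ.trans (c.hR.trans Finset.inter_subset_left))
  have hτu' : ∀ τ : alternatingGroup α, (τ : Perm α).support ⊆ R → τ • u' = u' := by
    intro τ hτ
    rw [← coe_mem_stab]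
    exact c.hB'.1.mem _ (mem_alternatingGroup.1 τ.2)
      (hτ.trans (c.hR.trans Finset.inter_subset_right))
  refine hasCliqueMinor_of_subdivided (by omega) c.U c.U' (fun i j => f (i, j))
    (c.U_inj hbig) (c.U'_inj hbig') (fun i j hij => c.U_ne_U' (by omega) hij) (c.dich hm)
    ?_ ?_ ?_ ?_ ?_
  · intro i j i' j' _ _ heq
    have := hfinj heq
    simpa using this
  · intro i j k _ heq
    obtain ⟨τ, -, h1⟩ := hfC (i, j)
    rw [h1, ← mul_smul] at heq
    exact hwu (hor _ _ _ heq)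
  · intro i j k _ heq
    obtain ⟨τ, -, h1⟩ := hfC (i, j)
    rw [h1, ← mul_smul] at heq
    exact hwu' (hor _ _ _ heq)
  · intro i j hij
    obtain ⟨τ, hτ, h1⟩ := hfC (i, j)
    simp only at h1 ⊢
    rw [h1]
    have h2 := hX (c.g j * c.g' i) _ _ (hX τ _ _ h)
    rwa [hτu τ hτ, c.gg'_u hij] at h2
  · intro i j hij
    obtain ⟨τ, hτ, h1⟩ := hfC (i, j)
    simp only at h1 ⊢
    rw [h1]
    have h2 := hX (c.g j * c.g' i) _ _ (hX τ _ _ h')
    rwa [hτu' τ hτ, c.gg'_u'] at h2

end Config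

end Config

end Pool.Helper24.MinHadwiger
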