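import Pool.Agent.Helper24.MinHadwiger.Basic

/-!
# Three-cycles
-/

namespace Pool.Helper24.MinHadwiger

open Equiv Equiv.Perm Finset

variable {α : Type*} [DecidableEq α]

/-- the 3-cycle `i → j → k → i` -/
def tc (i j k : α) : Perm α := swap i k * swap i j

lemma tc_apply {i j k : α} (hij : i ≠ j) (hik : i ≠ k) (hjk : j ≠ k) (x : α) :
    tc i j k x = if x = i then j else if x = j then k else if x = k then i else x := by
  unfold tc
  rw [Perm.mul_apply]
  simp only [swap_apply_def]
  split_ifs <;> simp_all

lemma tc_rot {i j k : α} (hij : i ≠ j) (hik : i ≠ k) (hjk : j ≠ k) : tc i j k = tc j k i := by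
  ext x
  rw [tc_apply hij hik hjk, tc_apply hjk hij.symm hik.symm]
  split_ifs <;> simp_all

lemma tc_inv {i j k : α} (hij : i ≠ j) (hik : i ≠ k) (hjk : j ≠ k) : (tc i j k)⁻¹ = tc i k j := by
  rw [inv_eq_iff_mul_eq_one]
  ext x
  rw [Perm.mul_apply, tc_apply hik hij hjk.symm, tc_apply hij hik hjk]
  simp only [Perm.coe_one, id_eq]
  split_ifs <;> simp_all

lemma tc_mul {p i j k : α} (hpi : p ≠ i) (hpj : p ≠ j) (hpk : p ≠ k) (hij : i ≠ j) (hik : i ≠ k)
    (hjk : j ≠ k) : tc i j k = tc p i j * tc p j k := by
  ext x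
  rw [Perm.mul_apply, tc_apply hij hik hjk, tc_apply hpi hpj hij, tc_apply hpj hpk hjk]
  split_ifs <;> simp_all

lemma tc_conj (σ : Perm α) (i j k : α) : σ * tc i j k * σ⁻¹ = tc (σ i) (σ j) (σ k) := by
  unfold tc
  have h : ∀ a b, σ * swap a b * σ⁻¹ = swap (σ a) (σ b) := by
    intro a b
    rw [mul_inv_eq_iff_eq_mul, Equiv.mul_swap_eq_swap_mul] 
  rw [← h, ← h]
  group

lemma comm_eq_tc {g h : Perm α} {b : α} (hg : g b ≠ b) (hh : h b ≠ b)
    (hd : ∀ x, x ≠ b → g x = x ∨ h x = x) : g * h * g⁻¹ * h⁻¹ = tc b (g b) (h b) := by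
  have h1 : g b ≠ h b := by
    intro hcon
    rcases hd (g b) hg with h2 | h2
    · exact hg (g.injective h2)
    · rw [hcon] at h2
      exact hh (h.injective h2)
  have key : g * h = tc b (g b) (h b) * (h * g) := by
    ext x
    rw [Perm.mul_apply, Perm.mul_apply, Perm.mul_apply,
      tc_apply hg.symm hh.symm h1]
    have ig := g.injective
    have ih := h.injective
    by_cases hx : x = b
    · subst hx
      have e1 : g (h x) = h x := (hd (h x) hh).resolve_right (fun h2 => hh (ih h2))
      have e2 : h (g x) = g x := (hd (g x) hg).resolve_left (fun h2 => hg (ig h2))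
      rw [e1, e2]
      simp [hg]
    · rcases hd x hx with hgx | hhx
      · rw [hgx]
        by_cases hhx : h x = x
        · have e3 : x ≠ g b := fun h2 => hx (ig (hgx.trans h2))
          have e4 : x ≠ h b := fun h2 => hx (ih (hhx.trans h2))
          rw [hhx, hgx]
          simp [hx, e3, e4]
        · by_cases hxb : h x = b
          · rw [hxb]; simp
          · have e1 : g (h x) = h x := (hd (h x) hxb).resolve_right (fun h2 => hhx (ih h2))
            have e3 : h x ≠ g b := fun h2 => hxb (ig (e1.trans h2))
            have e4 : h x ≠ h b := fun h2 => hx (ih h2)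
            rw [e1]
            simp [hxb, e3, e4]
      · rw [hhx]
        by_cases hgx : g x = x
        · have e3 : x ≠ g b := fun h2 => hx (ig (hgx.trans h2))
          have e4 : x ≠ h b := fun h2 => hx (ih (hhx.trans h2))
          rw [hgx, hhx]
          simp [hx, e3, e4]
        · by_cases hxb : g x = b
          · rw [hxb]
            simp [hh, h1.symm]
          · have e1 : h (g x) = g x := (hd (g x) hxb).resolve_left (fun h2 => hgx (ig h2))
            have e3 : g x ≠ g b := fun h2 => hx (ig h2)
            have e4 : g x ≠ h b := fun h2 => hxb (ih (e1.trans h2))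
            rw [e1]
            simp [hxb, e3, e4]
  rw [key]
  group

section Fintype

variable [Fintype α]

lemma sign_tc {i j k : α} (hij : i ≠ j) (hik : i ≠ k) : sign (tc i j k) = 1 := by
  unfold tc
  rw [Perm.sign_mul, sign_swap hik, sign_swap hij]
  decide

lemma tc_mem_alternating {i j k : α} (hij : i ≠ j) (hik : i ≠ k) :
    tc i j k ∈ alternatingGroup α := by
  rw [mem_alternatingGroup]
  exact sign_tc hij hik

/-- one step of the decomposition of an even permutation into three-cycles -/
lemma exists_tc_reduce {g : Perm α} (hg : sign g = 1) (hne : g ≠ 1) :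
    ∃ i j k, i ≠ j ∧ i ≠ k ∧ j ≠ k ∧ i ∈ g.support ∧ j ∈ g.support ∧ k ∈ g.support ∧
      (tc i j k * g).support ⊂ g.support := by
  have h0 : g.support.Nonempty := by
    rw [Finset.nonempty_iff_ne_empty]
    intro h
    exact hne (support_eq_empty_iff.1 h)
  obtain ⟨i, hi⟩ := h0
  have hi' : g i ≠ i := mem_support.1 hi
  have hj : g i ∈ g.support := apply_mem_support.2 hi
  have hk : ∃ k ∈ g.support, k ≠ i ∧ k ≠ g i := by
    by_contra hcon
    push Not at hcon
    have h1 : g.support = {i, g i} := by
      ext x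
      rw [Finset.mem_insert, Finset.mem_singleton]
      constructor
      · intro hx
        by_cases hxi : x = i
        · exact Or.inl hxi
        · exact Or.inr (hcon x hx hxi)
      · rintro (rfl | rfl)
        · exact hi
        · exact hj
    have h2 : g.support.card = 2 := by
      rw [h1, Finset.card_pair hi'.symm]
    have h3 := (card_support_eq_two.1 h2).sign_eq
    rw [hg] at h3
    exact absurd h3 (by decide)
  obtain ⟨k, hk, hki, hkj⟩ := hk
  refine ⟨g i, i, k, hi', hkj.symm, hki.symm, hj, hi, hk, ?_⟩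
  rw [Finset.ssubset_iff_of_subset]
  · refine ⟨i, hi, ?_⟩
    rw [mem_support, Perm.mul_apply, tc_apply hi' hkj.symm hki.symm]
    simp
  · intro x hx
    rw [mem_support, Perm.mul_apply] at hx
    rw [mem_support]
    intro hcon
    rw [hcon, tc_apply hi' hkj.symm hki.symm] at hx
    have h1 : x ≠ g i := by rintro rfl; exact mem_support.1 hj hcon
    have h2 : x ≠ i := by rintro rfl; exact hi' hcon
    have h3 : x ≠ k := by rintro rfl; exact mem_support.1 hk hcon
    simp [h1, h2, h3] at hx

/-- All three-cycles on `B` lie in `H`. -/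
def Good (H : Subgroup (Perm α)) (B : Finset α) : Prop :=
  ∀ i ∈ B, ∀ j ∈ B, ∀ k ∈ B, i ≠ j → i ≠ k → j ≠ k → tc i j k ∈ H

lemma Good.mem {H : Subgroup (Perm α)} {B : Finset α} (h : Good H B) :
    ∀ g : Perm α, sign g = 1 → g.support ⊆ B → g ∈ H := by
  have key : ∀ m : ℕ, ∀ g : Perm α, g.support.card ≤ m → sign g = 1 → g.support ⊆ B → g ∈ H := by
    intro m
    induction m with
    | zero =>
      intro g hc _ _
      have : g = 1 := by
        rw [← support_eq_empty_iff, ← Finset.card_eq_zero]
        omega
      rw [this]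
      exact H.one_mem
    | succ m ih =>
      intro g hc hs hB
      by_cases hne : g = 1
      · rw [hne]; exact H.one_mem
      obtain ⟨i, j, k, hij, hik, hjk, hi, hj, hk, hsub⟩ := exists_tc_reduce hs hne
      have h1 : tc i j k * g ∈ H := by
        refine ih _ ?_ ?_ ?_
        · have := Finset.card_lt_card hsub
          omega
        · rw [Perm.sign_mul, sign_tc hij hik, hs, one_mul]
        · exact hsub.subset.trans hB
      have h2 : tc i j k ∈ H := h i (hB hi) j (hB hj) k (hB hk) hij hik hjk
      have h3 := H.mul_mem (H.inv_mem h2) h1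
      rwa [inv_mul_cancel_left] at h3
  intro g
  exact key _ g le_rfl

omit [Fintype α] in
lemma good_triple {H : Subgroup (Perm α)} {i j k : α} (hij : i ≠ j) (hik : i ≠ k) (hjk : j ≠ k)
    (h : tc i j k ∈ H) : Good H {i, j, k} := by
  have h1 : tc j k i ∈ H := by rwa [← tc_rot hij hik hjk]
  have h2 : tc k i j ∈ H := by rwa [← tc_rot hjk hij.symm hik.symm]
  have h3 : tc i k j ∈ H := by rw [← tc_inv hij hik hjk]; exact H.inv_mem h
  have h4 : tc j i k ∈ H := by rw [← tc_inv hjk hij.symm hik.symm]; exact H.inv_mem h1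
  have h5 : tc k j i ∈ H := by rw [← tc_inv hik.symm hjk.symm hij]; exact H.inv_mem h2
  intro a ha b hb c hc hab hac hbc
  simp only [Finset.mem_insert, Finset.mem_singleton] at ha hb hc
  rcases ha with rfl | rfl | rfl <;> rcases hb with rfl | rfl | rfl <;>
    rcases hc with rfl | rfl | rfl <;> first | assumption | (exact absurd rfl ‹_›)

omit [Fintype α] in
/-- If all the 3-cycles through `p` inside `S` are in `H`, then `S` is good. -/
lemma good_of_star {H : Subgroup (Perm α)} {S : Finset α} {p : α}
    (h : ∀ i ∈ S, ∀ j ∈ S, p ≠ i → p ≠ j → i ≠ j → tc p i j ∈ H) : Good H S := by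
  intro i hi j hj k hk hij hik hjk
  by_cases hpi : p = i
  · subst hpi; exact h j hj k hk hij hik hjk
  by_cases hpj : p = j
  · subst hpj
    rw [tc_rot hij hik hjk]
    exact h k hk i hi hjk hij.symm hik.symm
  by_cases hpk : p = k
  · subst hpk
    rw [tc_rot hij hik hjk, tc_rot hjk hij.symm hik.symm]
    exact h i hi j hj hik.symm hjk.symm hij
  rw [tc_mul hpi hpj hpk hij hik hjk]
  exact H.mul_mem (h i hi j hj hpi hpj hij) (h j hj k hk hpj hpk hjk)

omit [Fintype α] in
/-- the union of two good sets with a common point is good -/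
lemma Good.union {H : Subgroup (Perm α)} {B B' : Finset α} (hB : Good H B) (hB' : Good H B')
    (h3 : 3 ≤ B.card) (h3' : 3 ≤ B'.card) {p : α} (hp : p ∈ B) (hp' : p ∈ B') :
    Good H (B ∪ B') := by
  -- mixed star cycles
  have key : ∀ i ∈ B, ∀ j ∈ B', p ≠ i → p ≠ j → i ≠ j → tc p i j ∈ H := by
    intro i hi j hj hpi hpj hij
    by_cases hiB' : i ∈ B'
    · exact hB' p hp' i hiB' j hj hpi hpj hij
    by_cases hjB : j ∈ B
    · exact hB p hp i hi j hjB hpi hpj hij
    -- a third point in each
    have h1 : ∃ u ∈ B, u ≠ p ∧ u ≠ i := by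
      have : ((B.erase p).erase i).Nonempty := by
        rw [← Finset.card_pos, Finset.card_erase_of_mem (Finset.mem_erase.2 ⟨hpi.symm, hi⟩),
          Finset.card_erase_of_mem hp]
        omega
      obtain ⟨u, hu⟩ := this
      rw [Finset.mem_erase, Finset.mem_erase] at hu
      exact ⟨u, hu.2.2, hu.2.1, hu.1⟩
    have h2 : ∃ v ∈ B', v ≠ p ∧ v ≠ j := by
      have : ((B'.erase p).erase j).Nonempty := by
        rw [← Finset.card_pos, Finset.card_erase_of_mem (Finset.mem_erase.2 ⟨hpj.symm, hj⟩),
          Finset.card_erase_of_mem hp']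
        omega
      obtain ⟨u, hu⟩ := this
      rw [Finset.mem_erase, Finset.mem_erase] at hu
      exact ⟨u, hu.2.2, hu.2.1, hu.1⟩
    obtain ⟨u, hu, hup, hui⟩ := h1
    obtain ⟨v, hv, hvp, hvj⟩ := h2
    have hvi : v ≠ i := fun h => hiB' (h ▸ hv)
    have huj : u ≠ j := fun h => hjB (h ▸ hu)
    by_cases huv : u = v
    · subst huv
      -- conjugate tc p u j by tc p i u
      have e1 : tc p i u ∈ H := hB p hp i hi u hu hpi hup.symm hui.symm
      have e2 : tc p u j ∈ H := hB' p hp' u hv j hj hup.symm hpj huj
      have e3 := H.mul_mem (H.mul_mem e1 e2) (H.inv_mem e1)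
      rw [tc_conj, tc_apply hpi hup.symm hui.symm, tc_apply hpi hup.symm hui.symm,
        tc_apply hpi hup.symm hui.symm] at e3
      simp only [if_true, hup, hui, if_false, hpj.symm, hij.symm, huj.symm] at e3
      -- e3 : tc i p j ∈ H
      have e4 := H.inv_mem e3
      rw [tc_inv hpi.symm hij hpj, tc_rot hij hpi.symm hpj.symm,
        tc_rot hpj.symm hij.symm hpi] at e4
      exact e4
    · have e1 : tc p i u ∈ H := hB p hp i hi u hu hpi hup.symm hui.symm
      have e2 : tc p j v ∈ H := hB' p hp' j hj v hv hpj hvp.symm hvj.symm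
      have a1 := tc_apply hpi hup.symm hui.symm
      have a2 := tc_apply hpj hvp.symm hvj.symm
      have b1 : tc p i u p = i := by rw [a1]; simp
      have b2 : tc p j v p = j := by rw [a2]; simp
      have e3 := comm_eq_tc (g := tc p i u) (h := tc p j v) (b := p)
        (by rw [b1]; exact hpi.symm) (by rw [b2]; exact hpj.symm) (by
          intro x hx
          by_cases h1 : x = i
          · right
            subst h1
            rw [a2]; simp [hx, hij, hvi.symm]
          by_cases h2 : x = u
          · right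
            subst h2
            rw [a2]; simp [hx, huj, huv]
          left
          rw [a1]; simp [hx, h1, h2])
      rw [b1, b2] at e3
      rw [← e3]
      exact H.mul_mem (H.mul_mem (H.mul_mem e1 e2) (H.inv_mem e1)) (H.inv_mem e2)
  refine good_of_star (p := p) ?_
  intro i hi j hj hpi hpj hij
  rw [Finset.mem_union] at hi hj
  rcases hi with hi | hi <;> rcases hj with hj | hj
  · exact hB p hp i hi j hj hpi hpj hij
  · exact key i hi j hj hpi hpj hij
  · have e1 := key j hj i hi hpj hpi hij.symm
    rw [← tc_inv hpi hpj hij] at e1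
    exact (H.inv_mem_iff).1 e1
  · exact hB' p hp' i hi j hj hpi hpj hij

end Fintype

end Pool.Helper24.MinHadwiger
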