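import Pool.Agent.Helper24.MinHadwiger.Basic

/-!
# The upper bound `m(G) ≤ |Ω| + 2`
-/

namespace Pool.Helper24.MinHadwiger

open SimpleGraph

section Construction

variable {G Ω : Type*} [Group G] [MulAction G Ω] {n : ℕ}

/-- hubs `Ω`, and for every `g : G` a path `(g,0), …, (g,n)` with `(g,j+1)` attached to the hub
`g • e j`. -/
def uGraph (e : Fin n ≃ Ω) : SimpleGraph (Ω ⊕ (G × Fin (n + 1))) where
  Adj x y := match x, y with
    | Sum.inl _, Sum.inl _ => False
    | Sum.inl ω, Sum.inr p => ∃ i : Fin n, p.2 = i.succ ∧ ω = p.1 • e i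
    | Sum.inr p, Sum.inl ω => ∃ i : Fin n, p.2 = i.succ ∧ ω = p.1 • e i
    | Sum.inr p, Sum.inr q => p.1 = q.1 ∧ ((p.2 : ℕ) + 1 = q.2 ∨ (q.2 : ℕ) + 1 = p.2)
  symm := by
    constructor
    intro x y h
    rcases x with x | x <;> rcases y with y | y
    · exact h
    · exact h
    · exact h
    · exact ⟨h.1.symm, h.2.symm⟩
  loopless := by
    constructor
    intro x h
    rcases x with x | x
    · exact h
    · have := h.2
      omega

variable (e : Fin n ≃ Ω)

@[simp] lemma uGraph_inl_inl (a b : Ω) :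
    ¬ (uGraph (G := G) e).Adj (Sum.inl a) (Sum.inl b) := fun h => h

lemma uGraph_inl_inr {a : Ω} {g : G} {j : Fin (n + 1)} :
    (uGraph e).Adj (Sum.inl a) (Sum.inr (g, j)) ↔ ∃ i : Fin n, j = i.succ ∧ a = g • e i := Iff.rfl

lemma uGraph_inr_inl {a : Ω} {g : G} {j : Fin (n + 1)} :
    (uGraph e).Adj (Sum.inr (g, j)) (Sum.inl a) ↔ ∃ i : Fin n, j = i.succ ∧ a = g • e i := Iff.rfl

lemma uGraph_inr_inr {g g' : G} {j j' : Fin (n + 1)} :
    (uGraph e).Adj (Sum.inr (g, j)) (Sum.inr (g', j')) ↔
      g = g' ∧ ((j : ℕ) + 1 = j' ∨ (j' : ℕ) + 1 = j) := Iff.rfl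

/-- the action of `G` on the graph -/
def uIso (h : G) : uGraph (G := G) e ≃g uGraph (G := G) e where
  toFun x := match x with
    | Sum.inl a => Sum.inl (h • a)
    | Sum.inr p => Sum.inr (h * p.1, p.2)
  invFun x := match x with
    | Sum.inl a => Sum.inl (h⁻¹ • a)
    | Sum.inr p => Sum.inr (h⁻¹ * p.1, p.2)
  left_inv x := by rcases x with x | x <;> simp
  right_inv x := by rcases x with x | x <;> simp
  map_rel_iff' := by
    intro x y
    rcases x with x | ⟨g, j⟩ <;> rcases y with y | ⟨g', j'⟩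
    · exact Iff.rfl
    · change (∃ i : Fin n, j' = i.succ ∧ h • x = (h * g') • e i) ↔ _
      rw [uGraph_inl_inr]
      simp only [mul_smul, smul_left_cancel_iff]
    · change (∃ i : Fin n, j = i.succ ∧ h • y = (h * g) • e i) ↔ _
      rw [uGraph_inr_inl]
      simp only [mul_smul, smul_left_cancel_iff]
    · change (h * g = h * g' ∧ _) ↔ _
      rw [uGraph_inr_inr, mul_right_inj]

@[simp] lemma uIso_inl (h : G) (a : Ω) : uIso e h (Sum.inl a) = Sum.inl (h • a) := rfl
@[simp] lemma uIso_inr (h g : G) (j : Fin (n + 1)) :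
    uIso e h (Sum.inr (g, j)) = Sum.inr (h * g, j) := rfl

/-- a vertex with four distinct neighbours -/
def FourNbrs {V : Type*} (X : SimpleGraph V) (v : V) : Prop :=
  ∃ f : Fin 4 → V, Function.Injective f ∧ ∀ i, X.Adj v (f i)

lemma FourNbrs.iso {V W : Type*} {X : SimpleGraph V} {Y : SimpleGraph W} {v : V}
    (h : FourNbrs X v) (φ : X ≃g Y) : FourNbrs Y (φ v) := by
  obtain ⟨f, hf, hadj⟩ := h
  exact ⟨fun i => φ (f i), fun i j hij => hf (φ.injective hij), fun i => φ.map_rel_iff.2 (hadj i)⟩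

lemma fourNbrs_inl [Finite G] (hG : 4 ≤ Nat.card G) (a : Ω) :
    FourNbrs (uGraph (G := G) e) (Sum.inl a) := by
  have := Fintype.ofFinite G
  rw [Nat.card_eq_fintype_card] at hG
  let c : Fin 4 → G := fun i => (Fintype.equivFin G).symm (Fin.castLE hG i)
  have hc : Function.Injective c := by
    intro i j hij
    have := (Fintype.equivFin G).symm.injective hij
    exact Fin.castLE_injective hG this
  refine ⟨fun i => Sum.inr (c i, (e.symm ((c i)⁻¹ • a)).succ), ?_, ?_⟩
  · intro i j hij
    simp only [Sum.inr.injEq, Prod.mk.injEq] at hij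
    exact hc hij.1
  · intro i
    rw [uGraph_inl_inr]
    exact ⟨_, rfl, by simp⟩

lemma not_fourNbrs_inr (g : G) (j : Fin (n + 1)) :
    ¬ FourNbrs (uGraph (G := G) e) (Sum.inr (g, j)) := by
  rintro ⟨f, hf, hadj⟩
  -- classify a neighbour by: hub (0), successor (1), predecessor (2)
  let cls : (Ω ⊕ (G × Fin (n + 1))) → Fin 3 := fun x => match x with
    | Sum.inl _ => 0
    | Sum.inr p => if (j : ℕ) + 1 = p.2 then 1 else 2
  have hcls : ∀ x y, (uGraph e).Adj (Sum.inr (g, j)) x → (uGraph e).Adj (Sum.inr (g, j)) y →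
      cls x = cls y → x = y := by
    intro x y hx hy hxy
    rcases x with x | ⟨g1, j1⟩ <;> rcases y with y | ⟨g2, j2⟩
    · rw [uGraph_inr_inl] at hx hy
      obtain ⟨i, hi, rfl⟩ := hx
      obtain ⟨i', hi', rfl⟩ := hy
      have : i = i' := Fin.succ_injective _ (hi.symm.trans hi')
      rw [this]
    · exfalso
      simp only [cls] at hxy
      split_ifs at hxy <;> exact absurd hxy (by decide)
    · exfalso
      simp only [cls] at hxy
      split_ifs at hxy <;> exact absurd hxy (by decide)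
    · rw [uGraph_inr_inr] at hx hy
      simp only [cls] at hxy
      obtain ⟨rfl, h1⟩ := hx
      obtain ⟨rfl, h2⟩ := hy
      have : j1 = j2 := by
        apply Fin.ext
        split_ifs at hxy with h3 h4 h4 <;> omega
      rw [this]
  have hinj : Function.Injective (fun i => cls (f i)) := by
    intro i i' h
    exact hf (hcls _ _ (hadj i) (hadj i') h)
  have := Fintype.card_le_of_injective _ hinj
  simp at this

variable [Finite G] (hG : 4 ≤ Nat.card G)
include hG

lemma map_inl (f : uGraph (G := G) e ≃g uGraph (G := G) e) (a : Ω) :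
    ∃ b, f (Sum.inl a) = Sum.inl b := by
  have h := (fourNbrs_inl e hG a).iso f
  rcases hfa : f (Sum.inl a) with b | ⟨g, j⟩
  · exact ⟨b, rfl⟩
  · rw [hfa] at h
    exact absurd h (not_fourNbrs_inr e g j)

lemma map_inr (f : uGraph (G := G) e ≃g uGraph (G := G) e) (p : G × Fin (n + 1)) :
    ∃ q, f (Sum.inr p) = Sum.inr q := by
  rcases hfa : f (Sum.inr p) with b | q
  · exfalso
    obtain ⟨c, hc⟩ := map_inl e hG f.symm b
    have : f.symm (f (Sum.inr p)) = Sum.inr p := f.symm_apply_apply _
    rw [hfa, hc] at this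
    exact absurd this (by simp)
  · exact ⟨q, rfl⟩

lemma map_end (f : uGraph (G := G) e ≃g uGraph (G := G) e) (g : G) :
    ∃ g', f (Sum.inr (g, 0)) = Sum.inr (g', 0) := by
  obtain ⟨⟨g', j⟩, h⟩ := map_inr e hG f (g, 0)
  refine ⟨g', ?_⟩
  rw [h]
  rcases Fin.eq_zero_or_eq_succ j with rfl | ⟨i, rfl⟩
  · rfl
  exfalso
  -- two distinct neighbours of the image, hence of (g, 0), a hub among them
  have h1 : (uGraph (G := G) e).Adj (f (Sum.inr (g, 0))) (Sum.inl (g' • e i)) := by
    rw [h, uGraph_inr_inl]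
    exact ⟨i, rfl, rfl⟩
  obtain ⟨b, hb⟩ := map_inl e hG f.symm (g' • e i)
  have h2 : Sum.inl (g' • e i) = f (Sum.inl b) := by
    rw [← hb]; simp
  rw [h2, f.map_adj_iff, uGraph_inr_inl] at h1
  obtain ⟨i', hi', _⟩ := h1
  exact absurd hi'.symm (Fin.succ_ne_zero i')

lemma map_path (f : uGraph (G := G) e ≃g uGraph (G := G) e) (g g' : G)
    (hg : f (Sum.inr (g, 0)) = Sum.inr (g', 0)) :
    (∀ j, f (Sum.inr (g, j)) = Sum.inr (g', j)) ∧
      ∀ i, f (Sum.inl (g • e i)) = Sum.inl (g' • e i) := by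
  have h1 : ∀ m : ℕ, ∀ hm : m < n + 1, ∀ l : ℕ, ∀ hl : l ≤ m,
      f (Sum.inr (g, ⟨l, by omega⟩)) = Sum.inr (g', ⟨l, by omega⟩) := by
    intro m
    induction m with
    | zero =>
      intro hm l hl
      have : l = 0 := by omega
      subst this
      exact hg
    | succ m ih =>
      intro hm l hl
      rcases Nat.lt_or_ge l (m + 1) with h | h
      · exact ih (by omega) l (by omega)
      have hl' : l = m + 1 := by omega
      subst hl'
      obtain ⟨⟨g2, j2⟩, h2⟩ := map_inr e hG f (g, ⟨m + 1, by omega⟩)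
      have ha : (uGraph (G := G) e).Adj (Sum.inr (g, ⟨m, by omega⟩)) (Sum.inr (g, ⟨m + 1, by omega⟩)) := by
        rw [uGraph_inr_inr]
        exact ⟨rfl, Or.inl rfl⟩
      have hb := f.map_adj_iff.2 ha
      rw [ih (by omega) m le_rfl, h2, uGraph_inr_inr] at hb
      obtain ⟨rfl, hb⟩ := hb
      simp only at hb
      rcases hb with hb | hb
      · rw [h2]
        congr 2
        apply Fin.ext
        simp only
        omega
      · exfalso
        -- then the image is (g', m-1) which is the image of (g, m-1)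
        have h3 := ih (by omega) (m - 1) (by omega)
        have h4 : (⟨m - 1, by omega⟩ : Fin (n + 1)) = j2 := by
          apply Fin.ext
          simp only
          omega
        rw [h4, ← h2] at h3
        have h5 := f.injective h3
        simp only [Sum.inr.injEq, Prod.mk.injEq, true_and] at h5
        have h6 := congrArg Fin.val h5
        have h7 := congrArg Fin.val h4
        simp only at h6 h7
        omega
  have h2 : ∀ j, f (Sum.inr (g, j)) = Sum.inr (g', j) := fun j => h1 j j.2 j le_rfl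
  refine ⟨h2, ?_⟩
  intro i
  have ha : (uGraph (G := G) e).Adj (Sum.inr (g, i.succ)) (Sum.inl (g • e i)) := by
    rw [uGraph_inr_inl]
    exact ⟨i, rfl, rfl⟩
  have hb := f.map_adj_iff.2 ha
  obtain ⟨b, hb'⟩ := map_inl e hG f (g • e i)
  rw [h2, hb', uGraph_inr_inl] at hb
  obtain ⟨i', hi', rfl⟩ := hb
  have : i = i' := Fin.succ_injective _ hi'
  rw [hb', this]

lemma aut_eq [FaithfulSMul G Ω] (f : uGraph (G := G) e ≃g uGraph (G := G) e) :
    ∃ h : G, f = uIso e h := by
  obtain ⟨h, hh⟩ := map_end e hG f 1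
  obtain ⟨_, h2⟩ := map_path e hG f 1 h hh
  have hhub : ∀ a, f (Sum.inl a) = Sum.inl (h • a) := by
    intro a
    have := h2 (e.symm a)
    simpa using this
  refine ⟨h, ?_⟩
  ext x
  rcases x with a | ⟨g, j⟩
  · rw [hhub, uIso_inl]
  · obtain ⟨g', hg'⟩ := map_end e hG f g
    obtain ⟨h3, h4⟩ := map_path e hG f g g' hg'
    have : g' = h * g := by
      apply FaithfulSMul.eq_of_smul_eq_smul (α := Ω)
      intro a
      have h5 := h4 (e.symm a)
      rw [hhub] at h5
      simp only [Equiv.apply_symm_apply, Sum.inl.injEq] at h5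
      rw [← h5, mul_smul]
    rw [h3, this, uIso_inr]

/-- the automorphism group of the construction is `G` -/
noncomputable def uAut [FaithfulSMul G Ω] :
    G ≃* (uGraph (G := G) e ≃g uGraph (G := G) e) := by
  refine MulEquiv.ofBijective
    (⟨⟨fun h => uIso e h, ?_⟩, ?_⟩ : G →* (uGraph (G := G) e ≃g uGraph (G := G) e)) ⟨?_, ?_⟩
  · ext x
    rcases x with a | ⟨g, j⟩ <;> simp
  · intro h h'
    ext x
    rcases x with a | ⟨g, j⟩
    · simp [RelIso.mul_apply, mul_smul]
    · simp [RelIso.mul_apply, mul_assoc]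
  · intro h h' hh
    have h1 : uIso e h = uIso e h' := hh
    have h2 : uIso e h (Sum.inr (1, 0)) = uIso e h' (Sum.inr (1, 0)) := by rw [h1]
    simpa using h2
  · intro f
    obtain ⟨h, hh⟩ := aut_eq e hG f
    exact ⟨h, hh.symm⟩

omit hG [Finite G] in
/-- three hub-free pairwise adjacent disjoint connected sets do not exist -/
lemma no_three (B : Fin 3 → Set (Ω ⊕ (G × Fin (n + 1))))
    (hh : ∀ i, ∀ x ∈ B i, ∃ p, x = Sum.inr p)
    (hc : ∀ i, (B i).Nonempty ∧ ∀ a ∈ B i, ∀ b ∈ B i, JoinedIn (uGraph e) (B i) a b)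
    (hd : ∀ i j, i ≠ j → Disjoint (B i) (B j))
    (ha : ∀ i j, i ≠ j → ∃ x ∈ B i, ∃ y ∈ B j, (uGraph e).Adj x y) : False := by
  -- joined inside unions of two
  have hjoin : ∀ i j, i ≠ j → ∀ x ∈ B i, ∀ y ∈ B j, JoinedIn (uGraph e) (B i ∪ B j) x y := by
    intro i j hij x hx y hy
    obtain ⟨u, hu, v, hv, huv⟩ := ha i j hij
    have e1 := ((hc i).2 x hx u hu).mono (Set.subset_union_left (t := B j))
    have e2 := ((hc j).2 v hv y hy).mono (Set.subset_union_right (s := B i))
    exact e1.trans ((JoinedIn.of_adj huv (Or.inl hu) (Or.inr hv)).trans e2)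
  choose x hx using fun i => (hc i).1
  choose p hp using fun i => hh i (x i) (hx i)
  -- all in the same path
  have hsame : ∀ i j, i ≠ j → (p i).1 = (p j).1 := by
    intro i j hij
    have h1 := hjoin i j hij (x i) (hx i) (x j) (hx j)
    have h2 : ∃ l, x j = Sum.inr ((p i).1, l) := by
      refine h1.induct (P := fun z => ∃ l, z = Sum.inr ((p i).1, l)) ?_ ⟨(p i).2, by rw [hp i]⟩
      rintro a haB b hbB hab ⟨l, rfl⟩
      have hb : ∃ q, b = Sum.inr q := by
        rcases hbB with h | h
        · exact hh _ _ h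
        · exact hh _ _ h
      obtain ⟨⟨g, l'⟩, rfl⟩ := hb
      rw [uGraph_inr_inr] at hab
      exact ⟨l', by rw [hab.1]⟩
    obtain ⟨l, hl⟩ := h2
    rw [hp j] at hl
    simp only [Sum.inr.injEq] at hl
    rw [hl]
  -- betweenness is impossible
  have hbet : ∀ i j k, i ≠ j → i ≠ k → j ≠ k → ¬ (((p i).2 : ℕ) < (p j).2 ∧
      ((p j).2 : ℕ) < (p k).2) := by
    rintro i j k hij hik hjk ⟨h1, h2⟩
    have h3 := hjoin i k hik (x i) (hx i) (x k) (hx k)
    have h4 : ∃ l : Fin (n + 1), (l : ℕ) < (p j).2 ∧ x k = Sum.inr ((p j).1, l) := by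
      refine h3.induct (P := fun z => ∃ l : Fin (n + 1), (l : ℕ) < (p j).2 ∧
        z = Sum.inr ((p j).1, l)) ?_ ⟨(p i).2, h1, by rw [hp i, ← hsame i j hij]⟩
      rintro a haB b hbB hab ⟨l, hl, rfl⟩
      have hb : ∃ q, b = Sum.inr q := by
        rcases hbB with h | h
        · exact hh _ _ h
        · exact hh _ _ h
      obtain ⟨⟨g, l'⟩, rfl⟩ := hb
      rw [uGraph_inr_inr] at hab
      obtain ⟨rfl, hab⟩ := hab
      refine ⟨l', ?_, rfl⟩
      have hne : (l' : ℕ) ≠ (p j).2 := by
        intro hcon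
        have hz : x j ∈ B i ∪ B k := by
          rw [hp j]
          have : p j = ((p j).1, l') := by
            rw [Fin.ext hcon]
          rw [this]
          exact hbB
        rcases hz with h | h
        · exact Set.disjoint_left.1 (hd j i hij.symm) (hx j) h
        · exact Set.disjoint_left.1 (hd j k hjk) (hx j) h
      omega
    obtain ⟨l, hl, hl'⟩ := h4
    rw [hp k] at hl'
    simp only [Sum.inr.injEq] at hl'
    rw [hl'] at h2
    simp only at h2
    omega
  -- positions are distinct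
  have hne : ∀ i j, i ≠ j → ((p i).2 : ℕ) ≠ (p j).2 := by
    intro i j hij hcon
    have : x i = x j := by
      rw [hp i, hp j]
      congr 1
      exact Prod.ext (hsame i j hij) (Fin.ext hcon)
    exact Set.disjoint_left.1 (hd i j hij) (hx i) (by rw [this]; exact hx j)
  have a01 := hne 0 1 (by decide)
  have a02 := hne 0 2 (by decide)
  have a12 := hne 1 2 (by decide)
  have b1 := hbet 0 1 2 (by decide) (by decide) (by decide)
  have b2 := hbet 0 2 1 (by decide) (by decide) (by decide)
  have b3 := hbet 1 0 2 (by decide) (by decide) (by decide)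
  have b4 := hbet 1 2 0 (by decide) (by decide) (by decide)
  have b5 := hbet 2 0 1 (by decide) (by decide) (by decide)
  have b6 := hbet 2 1 0 (by decide) (by decide) (by decide)
  omega

omit hG [Finite G] in
lemma uGraph_cliqueMinor_le {k : ℕ} (h : HasCliqueMinor (uGraph (G := G) e) k) : k ≤ n + 2 := by
  classical
  by_contra hk
  push Not at hk
  rw [hasCliqueMinor_iff] at h
  obtain ⟨B, hc, hd, ha⟩ := h
  -- indices with a hub
  let S : Finset (Fin k) := Finset.univ.filter (fun i => ∃ a, Sum.inl a ∈ B i)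
  have hS : S.card ≤ n := by
    have h1 : ∀ i : S, ∃ a, Sum.inl a ∈ B i := fun i => (Finset.mem_filter.1 i.2).2
    choose a ha using h1
    have hinj : Function.Injective (fun i : S => e.symm (a i)) := by
      intro i j hij
      have hij' : a i = a j := e.symm.injective hij
      by_contra hne
      have hne' : (i : Fin k) ≠ j := fun h => hne (Subtype.ext h)
      exact Set.disjoint_left.1 (hd _ _ hne') (ha i) (by rw [hij']; exact ha j)
    have := Fintype.card_le_of_injective _ hinj
    simpa using this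
  have hT : 2 < Sᶜ.card := by
    rw [Finset.card_compl, Fintype.card_fin]
    omega
  rw [Finset.two_lt_card_iff] at hT
  obtain ⟨i0, i1, i2, h0, h1, h2, h01, h02, h12⟩ := hT
  have hnot : ∀ i ∈ Sᶜ, ∀ x ∈ B i, ∃ p, x = Sum.inr p := by
    intro i hi x hx
    rcases x with a | p
    · exfalso
      rw [Finset.mem_compl, Finset.mem_filter] at hi
      exact hi ⟨Finset.mem_univ _, a, hx⟩
    · exact ⟨p, rfl⟩
  let c : Fin 3 → Fin k := ![i0, i1, i2]
  have hcinj : Function.Injective c := by
    intro i j hij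
    fin_cases i <;> fin_cases j <;> simp_all [c]
  have hcS : ∀ i, c i ∈ Sᶜ := by
    intro i
    fin_cases i
    · exact h0
    · exact h1
    · exact h2
  exact no_three e (fun i => B (c i)) (fun i => hnot _ (hcS i)) (fun i => hc _)
    (fun i j hij => hd _ _ (fun h => hij (hcinj h))) (fun i j hij => ha _ _ (fun h => hij (hcinj h)))

end Construction

/-- **Upper bound.** A finite group with at least four elements which acts faithfully on a finite
set with `n` elements is the automorphism group of a finite graph of Hadwiger number at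
most `n + 2`. -/
theorem minHadwiger_le_card_add_two (G Ω : Type*) [Group G] [Finite G] [Finite Ω] [MulAction G Ω]
    [FaithfulSMul G Ω] (hG : 4 ≤ Nat.card G) :
    (∃ (N : ℕ) (X : SimpleGraph (Fin N)), Nonempty ((X ≃g X) ≃* G)) ∧
      minHadwiger G ≤ Nat.card Ω + 2 := by
  let e : Fin (Nat.card Ω) ≃ Ω := (Finite.equivFin Ω).symm
  have haut : Nonempty ((uGraph (G := G) e ≃g uGraph (G := G) e) ≃* G) := ⟨(uAut e hG).symm⟩
  constructor
  · let V := Ω ⊕ (G × Fin (Nat.card Ω + 1))
    let f : V ≃ Fin (Nat.card V) := Finite.equivFin V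
    let Y : SimpleGraph (Fin (Nat.card V)) := (uGraph (G := G) e).map f.toEmbedding
    have iso : uGraph (G := G) e ≃g Y := SimpleGraph.Iso.map f _
    obtain ⟨a⟩ := haut
    exact ⟨_, Y, ⟨(autEquiv iso).symm.trans a⟩⟩
  · refine (minHadwiger_le_of_aut _ haut).trans ?_
    exact hadwigerNumber_le (fun k hk => uGraph_cliqueMinor_le e hk)

end Pool.Helper24.MinHadwiger
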